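import Mathlib
import Pool.Agent.W652.TwelveData

set_option autoImplicit false
set_option maxHeartbeats 4000000
set_option maxRecDepth 100000

namespace Pool.Agent.W652.Twelve

/-- The value of an integer linear form. -/
def dotZ : List ℤ → List ℝ → ℝ
  | z :: a, x :: d => (z : ℝ) * x + dotZ a d
  | _, _ => 0

@[simp] lemma dotZ_nil (d : List ℝ) : dotZ [] d = 0 := by cases d <;> rfl
@[simp] lemma dotZ_nil' (a : List ℤ) : dotZ a [] = 0 := by cases a <;> rfl
@[simp] lemma dotZ_cons (z : ℤ) (a : List ℤ) (x : ℝ) (d : List ℝ) :
    dotZ (z :: a) (x :: d) = (z : ℝ) * x + dotZ a d := rfl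

/-- Sum of integer forms. -/
def addL : List ℤ → List ℤ → List ℤ
  | [], b => b
  | a, [] => a
  | x :: a, y :: b => (x + y) :: addL a b

/-- Multiple of an integer form. -/
def smulL (c : ℤ) : List ℤ → List ℤ
  | [] => []
  | x :: a => (c * x) :: smulL c a

/-- Combination of integer forms. -/
def comb : List ℤ → List (List ℤ) → List ℤ
  | c :: cs, r :: rs => addL (smulL c r) (comb cs rs)
  | _, _ => []

lemma dotZ_addL (a b : List ℤ) (d : List ℝ) : dotZ (addL a b) d = dotZ a d + dotZ b d := by
  induction a generalizing b d with
  | nil => simp [addL]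
  | cons x a ih =>
    cases b with
    | nil => simp [addL]
    | cons y b =>
      cases d with
      | nil => simp
      | cons w d => simp [addL, ih]; ring

lemma dotZ_smulL (c : ℤ) (a : List ℤ) (d : List ℝ) : dotZ (smulL c a) d = c * dotZ a d := by
  induction a generalizing d with
  | nil => simp [smulL]
  | cons x a ih =>
    cases d with
    | nil => simp
    | cons w d => simp [smulL, ih]; ring

lemma dotZ_comb (cs : List ℤ) (rs : List (List ℤ)) (d : List ℝ) :
    dotZ (comb cs rs) d = dotZ cs (rs.map fun r => dotZ r d) := by
  induction cs generalizing rs with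
  | nil => simp [comb]
  | cons c cs ih =>
    cases rs with
    | nil => simp [comb]
    | cons r rs => simp [comb, dotZ_addL, dotZ_smulL, ih]

/-- The sum of the entries. -/
def sumL : List ℤ → ℤ
  | [] => 0
  | x :: a => x + sumL a

/-- The sum of the absolute values of the entries. -/
def absL : List ℤ → ℤ
  | [] => 0
  | x :: a => |x| + absL a

lemma absL_nonneg (a : List ℤ) : 0 ≤ absL a := by
  induction a with
  | nil => simp [absL]
  | cons x a ih => simp only [absL]; positivity

lemma dotZ_le_sum (a : List ℤ) (d : List ℝ) (B : ℝ) (hB : 0 ≤ B) (ha : ∀ z ∈ a, 0 ≤ z)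
    (hd : ∀ y ∈ d, y ≤ B) : dotZ a d ≤ sumL a * B := by
  induction a generalizing d with
  | nil => simp [sumL]
  | cons x a ih =>
    have hx : (0 : ℝ) ≤ x := by exact_mod_cast ha x (by simp)
    have hs : 0 ≤ sumL a := by
      have h2 : ∀ z ∈ a, 0 ≤ z := fun z hz => ha z (by simp [hz])
      clear ih ha hd hx
      induction a with
      | nil => simp [sumL]
      | cons y a ih =>
        simp only [sumL]
        have := ih fun z hz => h2 z (by simp [hz])
        have := h2 y (by simp)
        omega
    cases d with
    | nil =>
      simp only [dotZ_nil', sumL]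
      push_cast
      have hs' : (0 : ℝ) ≤ sumL a := by exact_mod_cast hs
      positivity
    | cons w d =>
      have h1 := ih d (fun z hz => ha z (by simp [hz])) (fun y hy => hd y (by simp [hy]))
      have h2 := hd w (by simp)
      simp only [dotZ_cons, sumL]
      push_cast
      nlinarith [mul_le_mul_of_nonneg_left h2 hx]

lemma dotZ_le_abs (a : List ℤ) (d : List ℝ) (B : ℝ) (hB : 0 ≤ B)
    (hd : ∀ y ∈ d, |y| ≤ B) : |dotZ a d| ≤ absL a * B := by
  induction a generalizing d with
  | nil => simp [absL]
  | cons x a ih =>
    have hs : (0 : ℝ) ≤ absL a := by exact_mod_cast absL_nonneg a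
    cases d with
    | nil =>
      simp only [dotZ_nil', abs_zero, absL]
      push_cast
      positivity
    | cons w d =>
      have h1 := ih d (fun y hy => hd y (by simp [hy]))
      have h2 := hd w (by simp)
      simp only [dotZ_cons, absL]
      push_cast
      calc |(x : ℝ) * w + dotZ a d| ≤ |(x : ℝ) * w| + |dotZ a d| := abs_add_le _ _
        _ ≤ |(x : ℝ)| * B + absL a * B := by
            rw [abs_mul]
            have := mul_le_mul_of_nonneg_left h2 (abs_nonneg (x : ℝ))
            linarith
        _ = _ := by ring

lemma dotZ_zero (a : List ℤ) (d : List ℝ) (hd : ∀ y ∈ d, y = 0) : dotZ a d = 0 := by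
  induction a generalizing d with
  | nil => simp
  | cons x a ih =>
    cases d with
    | nil => simp
    | cons w d =>
      simp only [dotZ_cons]
      rw [ih d (fun y hy => hd y (by simp [hy])), hd w (by simp)]
      simp

/-- The entry of a list of lists. -/
def row (i : ℕ) : List ℤ := P.getD i []

/-- The first variation of the inner product of the points `i` and `j`. -/
def rowE (i j : ℕ) : List ℤ :=
  (List.range 12).flatMap fun m =>
    if m = i then row j else if m = j then row i else [0, 0, 0]

/-- The first variation of the squared norm of the point `i`. -/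
def rowN (i : ℕ) : List ℤ :=
  (List.range 12).flatMap fun m => if m = i then smulL 2 (row i) else [0, 0, 0]

/-- The rows of the gauge condition. -/
def rowG : ℕ → List ℤ
  | 0 => P.flatMap fun q => [0, -(q.getD 2 0), q.getD 1 0]
  | 1 => P.flatMap fun q => [q.getD 2 0, 0, -(q.getD 0 0)]
  | _ => P.flatMap fun q => [-(q.getD 1 0), q.getD 0 0, 0]

/-- The contact rows. -/
def ME : List (List ℤ) := E.map fun e => rowE e.1 e.2
/-- The norm rows. -/
def MN : List (List ℤ) := (List.range 12).map rowN
/-- The gauge rows. -/
def MG : List (List ℤ) := [rowG 0, rowG 1, rowG 2]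

/-- A coordinate form with coefficient `c`. -/
def target (k : ℕ) (c : ℤ) : List ℤ := List.replicate k 0 ++ [c]

/-- The residual of a certificate. -/
def resid (k : ℕ) (s : ℤ) (c : List ℤ × List ℤ × List ℤ) : List ℤ :=
  addL (addL (comb c.1 ME) (addL (comb c.2.1 MN) (comb c.2.2 MG)))
    (target k (-(s * 10 ^ 18)))

/-- The test of one certificate. -/
def test (k : ℕ) (s : ℤ) (c : List ℤ × List ℤ × List ℤ) : Bool :=
  c.1.all (fun z => decide (0 ≤ z)) && decide (sumL c.1 ≤ 402000000) &&
    decide (absL c.2.1 ≤ 201000000) && decide (absL (resid k s c) ≤ 20000000000000)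

/-- The test of all certificates. -/
def testAll : ℕ → List (List ℤ × List ℤ × List ℤ) → Bool
  | k, c :: c' :: l => test k 1 c && test k (-1) c' && testAll (k + 1) l
  | _, _ => true

theorem testAll_certs : testAll 0 certs = true := by decide +kernel

end Pool.Agent.W652.Twelve
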