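import Mathlib
import Pool.Agent.W652.TwelveCheck

set_option autoImplicit false
set_option maxHeartbeats 4000000
set_option maxRecDepth 100000

namespace Pool.Agent.W652.Twelve

lemma dotZ_target (k : ℕ) (c : ℤ) (d : List ℝ) : dotZ (target k c) d = c * d.getD k 0 := by
  induction k generalizing d with
  | zero =>
    cases d with
    | nil => simp [target]
    | cons x d => simp [target]
  | succ k ih =>
    cases d with
    | nil => simp
    | cons x d =>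
      have := ih d
      simp only [target] at this ⊢
      rw [List.replicate_succ, List.cons_append, dotZ_cons, this]
      simp

lemma test_sound (k : ℕ) (s : ℤ) (c : List ℤ × List ℤ × List ℤ) (d : List ℝ) (B N ρ : ℝ)
    (hB : 0 ≤ B) (hN0 : 0 ≤ N) (hρ : 0 ≤ ρ) (h : test k s c = true)
    (hE : ∀ r ∈ ME, dotZ r d ≤ 10 ^ 12 * B) (hN : ∀ r ∈ MN, |dotZ r d| ≤ 10 ^ 12 * N)
    (hG : ∀ r ∈ MG, dotZ r d = 0) (hd : ∀ x ∈ d, |x| ≤ ρ) :
    s * d.getD k 0 ≤ 402 * B + 201 * N + 2 / 10 ^ 5 * ρ := by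
  simp only [test, Bool.and_eq_true, decide_eq_true_eq, List.all_eq_true] at h
  obtain ⟨⟨⟨h1, h2⟩, h3⟩, h4⟩ := h
  have a1 := dotZ_le_sum c.1 (ME.map fun r => dotZ r d) (10 ^ 12 * B) (by positivity) h1
    (by
      intro y hy
      obtain ⟨r, hr, rfl⟩ := List.mem_map.1 hy
      exact hE r hr)
  have a2 := dotZ_le_abs c.2.1 (MN.map fun r => dotZ r d) (10 ^ 12 * N) (by positivity)
    (by
      intro y hy
      obtain ⟨r, hr, rfl⟩ := List.mem_map.1 hy
      exact hN r hr)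
  have a3 := dotZ_zero c.2.2 (MG.map fun r => dotZ r d)
    (by
      intro y hy
      obtain ⟨r, hr, rfl⟩ := List.mem_map.1 hy
      exact hG r hr)
  have a4 := dotZ_le_abs (resid k s c) d ρ hρ hd
  have a2' := (abs_le.1 a2).2
  have a4' := (abs_le.1 a4).1
  have b1 : (sumL c.1 : ℝ) ≤ 402000000 := by exact_mod_cast h2
  have b2 : (absL c.2.1 : ℝ) ≤ 201000000 := by exact_mod_cast h3
  have b4 : (absL (resid k s c) : ℝ) ≤ 20000000000000 := by exact_mod_cast h4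
  have c1 := mul_le_mul_of_nonneg_right b1 (show (0 : ℝ) ≤ 10 ^ 12 * B by positivity)
  have c2 := mul_le_mul_of_nonneg_right b2 (show (0 : ℝ) ≤ 10 ^ 12 * N by positivity)
  have c4 := mul_le_mul_of_nonneg_right b4 hρ
  have e' : dotZ (resid k s c) d = dotZ c.1 (ME.map fun r => dotZ r d) +
      (dotZ c.2.1 (MN.map fun r => dotZ r d) + dotZ c.2.2 (MG.map fun r => dotZ r d)) +
      ((-(s * 10 ^ 18) : ℤ) : ℝ) * d.getD k 0 := by
    unfold resid
    rw [dotZ_addL, dotZ_addL, dotZ_addL, dotZ_comb, dotZ_comb, dotZ_comb, dotZ_target]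
  push_cast at e'
  nlinarith

lemma testAll_sound : ∀ (l : List (List ℤ × List ℤ × List ℤ)) (k : ℕ), testAll k l = true →
    ∀ j, 2 * j + 1 < l.length → (∃ c, test (k + j) 1 c = true) ∧ ∃ c, test (k + j) (-1) c = true
  | [], _, _, j, hj => by simp at hj
  | [_], _, _, j, hj => by simp at hj
  | c :: c' :: l, k, h, j, hj => by
    simp only [testAll, Bool.and_eq_true] at h
    cases j with
    | zero => exact ⟨⟨c, h.1.1⟩, ⟨c', h.1.2⟩⟩
    | succ j =>
      have := testAll_sound l (k + 1) h.2 j (by simp at hj; omega)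
      rwa [show k + 1 + j = k + (j + 1) by ring] at this

/-- The coordinates of the twelve vectors. -/
def dl (δ : ℕ → ℕ → ℝ) : List ℝ :=
  [δ 0 0, δ 0 1, δ 0 2, δ 1 0, δ 1 1, δ 1 2, δ 2 0, δ 2 1, δ 2 2, δ 3 0, δ 3 1, δ 3 2,
   δ 4 0, δ 4 1, δ 4 2, δ 5 0, δ 5 1, δ 5 2, δ 6 0, δ 6 1, δ 6 2, δ 7 0, δ 7 1, δ 7 2,
   δ 8 0, δ 8 1, δ 8 2, δ 9 0, δ 9 1, δ 9 2, δ 10 0, δ 10 1, δ 10 2, δ 11 0, δ 11 1, δ 11 2]

/-- The points near which we work. -/
noncomputable def p (i k : ℕ) : ℝ := (((row i).getD k 0 : ℤ) : ℝ) / 10 ^ 12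

lemma sem_E (δ : ℕ → ℕ → ℝ) : ∀ e ∈ E, dotZ (rowE e.1 e.2) (dl δ) =
    10 ^ 12 * (p e.1 0 * δ e.2 0 + p e.1 1 * δ e.2 1 + p e.1 2 * δ e.2 2 +
      (p e.2 0 * δ e.1 0 + p e.2 1 * δ e.1 1 + p e.2 2 * δ e.1 2)) := by
  intro e he
  simp only [E, List.mem_cons, List.not_mem_nil, or_false] at he
  rcases he with rfl | rfl | rfl | rfl | rfl | rfl | rfl | rfl | rfl | rfl | rfl | rfl | rfl |
    rfl | rfl | rfl | rfl | rfl | rfl | rfl | rfl | rfl | rfl <;>
  · simp [rowE, row, P, List.range, List.range.loop, dl, p]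
    ring

lemma sem_N (δ : ℕ → ℕ → ℝ) : ∀ i < 12, dotZ (rowN i) (dl δ) =
    10 ^ 12 * (2 * (p i 0 * δ i 0 + p i 1 * δ i 1 + p i 2 * δ i 2)) := by
  intro i hi
  interval_cases i <;>
  · simp [rowN, row, P, List.range, List.range.loop, dl, p, smulL]
    ring

lemma sem_G0 (δ : ℕ → ℕ → ℝ) : dotZ (rowG 0) (dl δ) =
    10 ^ 12 * ∑ i ∈ Finset.range 12, (p i 1 * δ i 2 - p i 2 * δ i 1) := by
  simp only [Finset.sum_range_succ, Finset.sum_range_zero]
  simp [rowG, row, P, dl, p]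
  ring

lemma sem_G1 (δ : ℕ → ℕ → ℝ) : dotZ (rowG 1) (dl δ) =
    10 ^ 12 * ∑ i ∈ Finset.range 12, (p i 2 * δ i 0 - p i 0 * δ i 2) := by
  simp only [Finset.sum_range_succ, Finset.sum_range_zero]
  simp [rowG, row, P, dl, p]
  ring

lemma sem_G2 (δ : ℕ → ℕ → ℝ) : dotZ (rowG 2) (dl δ) =
    10 ^ 12 * ∑ i ∈ Finset.range 12, (p i 0 * δ i 1 - p i 1 * δ i 0) := by
  simp only [Finset.sum_range_succ, Finset.sum_range_zero]
  simp [rowG, row, P, dl, p]
  ring

/-- The inner product of the points `i` and `j`. -/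
noncomputable def ipp (i j : ℕ) : ℝ := p i 0 * p j 0 + p i 1 * p j 1 + p i 2 * p j 2

/-- Integer version of `ipp`. -/
def ipz (i j : ℕ) : ℤ :=
  (row i).getD 0 0 * (row j).getD 0 0 + (row i).getD 1 0 * (row j).getD 1 0 +
    (row i).getD 2 0 * (row j).getD 2 0

lemma ipp_eq (i j : ℕ) : ipp i j = ipz i j / 10 ^ 24 := by
  unfold ipp ipz p
  push_cast
  ring

/-- Contact pairs have inner product close to the bound. -/
lemma ipz_contact : ∀ e ∈ E, 499494075100000000000000 ≤ ipz e.1 e.2 := by decide +kernel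

/-- All the pairs have inner product below the bound. -/
lemma ipz_le : ∀ i < 12, ∀ j < 12, i ≠ j → ipz i j ≤ 499494075613000000000000 := by
  decide +kernel

lemma ipz_self : ∀ i < 12, 1000000000000000000000000 ≤ ipz i i ∧
    ipz i i ≤ 1000000000010000000000000 := by
  decide +kernel

lemma E_lt : ∀ e ∈ E, e.1 < 12 ∧ e.2 < 12 ∧ e.1 ≠ e.2 := by decide +kernel

/-- The isolation statement. -/
theorem core (v : ℕ → ℕ → ℝ) (hn : ∀ i < 12, v i 0 ^ 2 + v i 1 ^ 2 + v i 2 ^ 2 = 1)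
    (hE : ∀ e ∈ E, v e.1 0 * v e.2 0 + v e.1 1 * v e.2 1 + v e.1 2 * v e.2 2 ≤ 0.4994940761)
    (h0 : ∑ i ∈ Finset.range 12, (p i 1 * v i 2 - p i 2 * v i 1) = 0)
    (h1 : ∑ i ∈ Finset.range 12, (p i 2 * v i 0 - p i 0 * v i 2) = 0)
    (h2 : ∑ i ∈ Finset.range 12, (p i 0 * v i 1 - p i 1 * v i 0) = 0)
    (hρ : ∑ i ∈ Finset.range 12,
      ((v i 0 - p i 0) ^ 2 + (v i 1 - p i 1) ^ 2 + (v i 2 - p i 2) ^ 2) ≤ (1 / 10 ^ 4) ^ 2) :
    ∑ i ∈ Finset.range 12,
      ((v i 0 - p i 0) ^ 2 + (v i 1 - p i 1) ^ 2 + (v i 2 - p i 2) ^ 2) ≤ (1 / 10 ^ 4) ^ 2 / 4 := by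
  set δ : ℕ → ℕ → ℝ := fun i k => v i k - p i k with hδ
  have hv : ∀ i k, v i k = p i k + δ i k := fun i k => by simp [hδ]
  -- small pieces
  have hpos : ∀ i ∈ Finset.range 12, 0 ≤ δ i 0 ^ 2 + δ i 1 ^ 2 + δ i 2 ^ 2 := fun i _ => by
    positivity
  have hone : ∀ i < 12, δ i 0 ^ 2 + δ i 1 ^ 2 + δ i 2 ^ 2 ≤ (1 / 10 ^ 4) ^ 2 := fun i hi =>
    (Finset.single_le_sum hpos (Finset.mem_range.2 hi)).trans hρ
  have htwo : ∀ i < 12, ∀ j < 12, i ≠ j → (δ i 0 ^ 2 + δ i 1 ^ 2 + δ i 2 ^ 2) +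
      (δ j 0 ^ 2 + δ j 1 ^ 2 + δ j 2 ^ 2) ≤ (1 / 10 ^ 4) ^ 2 := by
    intro i hi j hj hij
    have := Finset.sum_le_sum_of_subset_of_nonneg (s := {i, j}) (t := Finset.range 12)
      (f := fun i => δ i 0 ^ 2 + δ i 1 ^ 2 + δ i 2 ^ 2)
      (by
        intro x hx
        simp only [Finset.mem_insert, Finset.mem_singleton] at hx
        rcases hx with rfl | rfl <;> simpa) (fun i hi _ => hpos i hi)
    rw [Finset.sum_pair hij] at this
    exact this.trans hρ
  have hsmall : ∀ i < 12, ∀ k < 3, |δ i k| ≤ 1 / 10 ^ 4 := by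
    intro i hi k hk
    have := hone i hi
    apply abs_le_of_sq_le_sq _ (by positivity)
    interval_cases k <;> nlinarith [sq_nonneg (δ i 0), sq_nonneg (δ i 1), sq_nonneg (δ i 2)]
  -- the rows
  have rE : ∀ r ∈ ME, dotZ r (dl δ) ≤ 10 ^ 12 * (6 / 10 ^ 9) := by
    intro r hr
    obtain ⟨e, he, rfl⟩ := List.mem_map.1 hr
    rw [sem_E δ e he]
    obtain ⟨l1, l2, l3⟩ := E_lt e he
    have a1 := hE e he
    have a2 := htwo _ l1 _ l2 l3
    have a3 := ipz_contact e he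
    have a4 : ipp e.1 e.2 = ipz e.1 e.2 / 10 ^ 24 := ipp_eq _ _
    have a5 : (499494075100000000000000 : ℝ) ≤ ipz e.1 e.2 := by exact_mod_cast a3
    have a6 : (0.4994940751 : ℝ) ≤ ipp e.1 e.2 := by
      rw [a4, le_div_iff₀ (by positivity)]
      linarith
    unfold ipp at a6
    simp only [hv] at a1
    apply mul_le_mul_of_nonneg_left _ (by positivity)
    nlinarith [sq_nonneg (δ e.1 0 + δ e.2 0), sq_nonneg (δ e.1 1 + δ e.2 1),
      sq_nonneg (δ e.1 2 + δ e.2 2)]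
  have rN : ∀ r ∈ MN, |dotZ r (dl δ)| ≤ 10 ^ 12 * (1001 / 10 ^ 11) := by
    intro r hr
    obtain ⟨i, hi, rfl⟩ := List.mem_map.1 hr
    have hi' : i < 12 := by simpa using hi
    rw [sem_N δ i hi', abs_mul, abs_of_pos (by positivity : (0 : ℝ) < 10 ^ 12)]
    apply mul_le_mul_of_nonneg_left _ (by positivity)
    have a1 := hn i hi'
    have a2 := hone i hi'
    obtain ⟨a3, a3'⟩ := ipz_self i hi'
    have a4 : ipp i i = ipz i i / 10 ^ 24 := ipp_eq _ _
    have a5 : (1000000000000000000000000 : ℝ) ≤ ipz i i := by exact_mod_cast a3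
    have a5' : (ipz i i : ℝ) ≤ 1000000000010000000000000 := by exact_mod_cast a3'
    have a6 : 1 ≤ ipp i i := by
      rw [a4, le_div_iff₀ (by positivity)]
      linarith
    have a6' : ipp i i ≤ 1 + 1 / 10 ^ 11 := by
      rw [a4, div_le_iff₀ (by positivity)]
      linarith
    unfold ipp at a6 a6'
    simp only [hv] at a1
    have a7 := hpos i (Finset.mem_range.2 hi')
    rw [abs_le]
    constructor <;> nlinarith
  have rG : ∀ r ∈ MG, dotZ r (dl δ) = 0 := by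
    intro r hr
    simp only [MG, List.mem_cons, List.not_mem_nil, or_false] at hr
    rcases hr with rfl | rfl | rfl
    · rw [sem_G0, ← h0]
      have : ∑ i ∈ Finset.range 12, (p i 1 * δ i 2 - p i 2 * δ i 1) =
          ∑ i ∈ Finset.range 12, (p i 1 * v i 2 - p i 2 * v i 1) :=
        Finset.sum_congr rfl fun i _ => by simp only [hδ]; ring
      rw [this, h0, mul_zero]
    · rw [sem_G1, ← h1]
      have : ∑ i ∈ Finset.range 12, (p i 2 * δ i 0 - p i 0 * δ i 2) =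
          ∑ i ∈ Finset.range 12, (p i 2 * v i 0 - p i 0 * v i 2) :=
        Finset.sum_congr rfl fun i _ => by simp only [hδ]; ring
      rw [this, h1, mul_zero]
    · rw [sem_G2, ← h2]
      have : ∑ i ∈ Finset.range 12, (p i 0 * δ i 1 - p i 1 * δ i 0) =
          ∑ i ∈ Finset.range 12, (p i 0 * v i 1 - p i 1 * v i 0) :=
        Finset.sum_congr rfl fun i _ => by simp only [hδ]; ring
      rw [this, h2, mul_zero]
  have rd : ∀ x ∈ dl δ, |x| ≤ 1 / 10 ^ 4 := by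
    intro x hx
    simp only [dl, List.mem_cons, List.not_mem_nil, or_false] at hx
    rcases hx with rfl | rfl | rfl | rfl | rfl | rfl | rfl | rfl | rfl | rfl | rfl | rfl |
      rfl | rfl | rfl | rfl | rfl | rfl | rfl | rfl | rfl | rfl | rfl | rfl |
      rfl | rfl | rfl | rfl | rfl | rfl | rfl | rfl | rfl | rfl | rfl | rfl <;>
    exact hsmall _ (by norm_num) _ (by norm_num)
  have hK : ∀ k < 36, |(dl δ).getD k 0| ≤ 5 / 10 ^ 6 := by
    intro k hk
    obtain ⟨⟨c, hc⟩, c', hc'⟩ := testAll_sound certs 0 testAll_certs k (by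
      have : certs.length = 72 := by decide +kernel
      omega)
    have b1 := test_sound _ 1 c (dl δ) (6 / 10 ^ 9) (1001 / 10 ^ 11) (1 / 10 ^ 4) (by positivity)
      (by positivity) (by positivity) hc rE rN rG rd
    have b2 := test_sound _ (-1) c' (dl δ) (6 / 10 ^ 9) (1001 / 10 ^ 11) (1 / 10 ^ 4)
      (by positivity) (by positivity) (by positivity) hc' rE rN rG rd
    rw [zero_add] at b1 b2
    push_cast at b1 b2
    rw [abs_le]
    constructor <;> norm_num at b1 b2 ⊢ <;> linarith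
  have hsq : ∀ k < 36, (dl δ).getD k 0 ^ 2 ≤ 25 / 10 ^ 12 := by
    intro k hk
    have := hK k hk
    rw [← sq_abs]
    calc |(dl δ).getD k 0| ^ 2 ≤ (5 / 10 ^ 6) ^ 2 := by gcongr
      _ = _ := by norm_num
  have hfin : ∑ k ∈ Finset.range 36, (dl δ).getD k 0 ^ 2 ≤ 36 * (25 / 10 ^ 12) := by
    have := Finset.sum_le_card_nsmul (Finset.range 36) (fun k => (dl δ).getD k 0 ^ 2)
      (25 / 10 ^ 12) (fun k hk => hsq k (Finset.mem_range.1 hk))
    simpa using this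
  have heq : ∑ k ∈ Finset.range 36, (dl δ).getD k 0 ^ 2 =
      ∑ i ∈ Finset.range 12, (δ i 0 ^ 2 + δ i 1 ^ 2 + δ i 2 ^ 2) := by
    simp only [Finset.sum_range_succ, Finset.sum_range_zero]
    simp [dl]
    ring
  have : ∑ i ∈ Finset.range 12, (δ i 0 ^ 2 + δ i 1 ^ 2 + δ i 2 ^ 2) ≤ (1 / 10 ^ 4) ^ 2 / 4 := by
    rw [← heq]
    refine hfin.trans ?_
    norm_num
  exact this

end Pool.Agent.W652.Twelve
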