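import Mathlib
import Pool.Agent.W652.TwelveCore

set_option autoImplicit false
set_option maxHeartbeats 4000000

open Matrix

namespace Pool.Agent.W652.Twelve

/-- Orthogonal matrices. -/
def KK : Set (Matrix (Fin 3) (Fin 3) ℝ) := {g | g.transpose * g = 1}

lemma one_mem : (1 : Matrix (Fin 3) (Fin 3) ℝ) ∈ KK := by simp [KK]

lemma mul_mem {g h : Matrix (Fin 3) (Fin 3) ℝ} (hg : g ∈ KK) (hh : h ∈ KK) : g * h ∈ KK := by
  simp only [KK, Set.mem_ofPred_eq] at *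
  rw [Matrix.transpose_mul, Matrix.mul_assoc, ← Matrix.mul_assoc g.transpose, hg, Matrix.one_mul,
    hh]

lemma isometry {g : Matrix (Fin 3) (Fin 3) ℝ} (hg : g ∈ KK) (a b : Fin 3 → ℝ) :
    (g *ᵥ a) ⬝ᵥ (g *ᵥ b) = a ⬝ᵥ b := by
  simp only [KK, Set.mem_ofPred_eq] at hg
  rw [Matrix.dotProduct_mulVec, Matrix.vecMul_mulVec, hg, Matrix.vecMul_one]

lemma isometry3 {g : Matrix (Fin 3) (Fin 3) ℝ} (hg : g ∈ KK) (a b : Fin 3 → ℝ) :
    (g *ᵥ a) 0 * (g *ᵥ b) 0 + (g *ᵥ a) 1 * (g *ᵥ b) 1 + (g *ᵥ a) 2 * (g *ᵥ b) 2 =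
      a 0 * b 0 + a 1 * b 1 + a 2 * b 2 := by
  have := isometry hg a b
  simpa [dotProduct, Fin.sum_univ_three] using this

lemma isClosed_KK : IsClosed KK := by
  unfold KK
  exact isClosed_eq (by fun_prop) continuous_const

lemma isCompact_KK : IsCompact KK := by
  have h1 : IsCompact (Set.pi Set.univ (fun _ : Fin 3 => Set.pi Set.univ
      fun _ : Fin 3 => Set.Icc (-1 : ℝ) 1)) :=
    isCompact_univ_pi fun _ => isCompact_univ_pi fun _ => isCompact_Icc
  refine h1.of_isClosed_subset isClosed_KK ?_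
  intro g hg i _ j _
  have h2 : ((show Matrix (Fin 3) (Fin 3) ℝ from g).transpose *
      (show Matrix (Fin 3) (Fin 3) ℝ from g)) j j = 1 := by
    have : (show Matrix (Fin 3) (Fin 3) ℝ from g).transpose *
      (show Matrix (Fin 3) (Fin 3) ℝ from g) = 1 := hg
    rw [this]; simp
  rw [Matrix.mul_apply] at h2
  simp only [Matrix.transpose_apply] at h2
  have h3 : g i j * g i j ≤ 1 := by
    rw [← h2]
    exact Finset.single_le_sum (f := fun k => g k j * g k j) (fun k _ => mul_self_nonneg _)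
      (Finset.mem_univ i)
  exact abs_le.1 (abs_le_one_iff_mul_self_le_one.2 h3)

/-- The squared distance. -/
noncomputable def Q (g : Matrix (Fin 3) (Fin 3) ℝ) (x : Fin 12 → Fin 3 → ℝ) (s : ℝ) : ℝ :=
  ∑ i : Fin 12, (((g *ᵥ x i) 0 - s * p i 0) ^ 2 + ((g *ᵥ x i) 1 - s * p i 1) ^ 2 +
    ((g *ᵥ x i) 2 - s * p i 2) ^ 2)

lemma continuous_Q (s : ℝ) : Continuous fun y : Matrix (Fin 3) (Fin 3) ℝ × (Fin 12 → Fin 3 → ℝ) =>
    Q y.1 y.2 s := by
  unfold Q
  simp only [Matrix.mulVec, dotProduct]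
  fun_prop

lemma exists_min (x : Fin 12 → Fin 3 → ℝ) (s : ℝ) :
    ∃ g ∈ KK, ∀ h ∈ KK, Q g x s ≤ Q h x s := by
  obtain ⟨g, hg, h⟩ := isCompact_KK.exists_isMinOn ⟨1, one_mem⟩
    (f := fun g => Q g x s) (((continuous_Q s).comp (by fun_prop :
      Continuous fun g : Matrix (Fin 3) (Fin 3) ℝ => (g, x))).continuousOn)
  exact ⟨g, hg, fun h' hh' => h hh'⟩

lemma zero_of_forall {A B : ℝ} (h : ∀ t : ℝ, t * B ≤ t ^ 2 * A) : B = 0 := by
  by_contra hB
  have h1 := h (B / (|A| + 1))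
  have h2 : 0 < |A| + 1 := by positivity
  have h3 : 0 < B ^ 2 := by positivity
  have h4 : A ≤ |A| := le_abs_self A
  rw [div_pow, div_mul_eq_mul_div, div_mul_eq_mul_div, div_le_div_iff₀ h2 (by positivity)] at h1
  nlinarith [mul_pos h3 h2]

/-- Rotations in the three coordinate planes. -/
noncomputable def R0 (t : ℝ) : Matrix (Fin 3) (Fin 3) ℝ :=
  !![1, 0, 0; 0, (1 - t ^ 2) / (1 + t ^ 2), -(2 * t / (1 + t ^ 2));
    0, 2 * t / (1 + t ^ 2), (1 - t ^ 2) / (1 + t ^ 2)]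

/-- Rotations in the three coordinate planes. -/
noncomputable def R1 (t : ℝ) : Matrix (Fin 3) (Fin 3) ℝ :=
  !![(1 - t ^ 2) / (1 + t ^ 2), 0, 2 * t / (1 + t ^ 2); 0, 1, 0;
    -(2 * t / (1 + t ^ 2)), 0, (1 - t ^ 2) / (1 + t ^ 2)]

/-- Rotations in the three coordinate planes. -/
noncomputable def R2 (t : ℝ) : Matrix (Fin 3) (Fin 3) ℝ :=
  !![(1 - t ^ 2) / (1 + t ^ 2), -(2 * t / (1 + t ^ 2)), 0;
    2 * t / (1 + t ^ 2), (1 - t ^ 2) / (1 + t ^ 2), 0; 0, 0, 1]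

lemma R0_mem (t : ℝ) : R0 t ∈ KK := by
  have h : (1 : ℝ) + t ^ 2 ≠ 0 := by positivity
  simp only [KK, Set.mem_ofPred_eq]
  ext i j
  fin_cases i <;> fin_cases j <;>
    simp [R0, Matrix.mul_apply, Fin.sum_univ_three] <;> field_simp <;> ring

lemma R1_mem (t : ℝ) : R1 t ∈ KK := by
  have h : (1 : ℝ) + t ^ 2 ≠ 0 := by positivity
  simp only [KK, Set.mem_ofPred_eq]
  ext i j
  fin_cases i <;> fin_cases j <;>
    simp [R1, Matrix.mul_apply, Fin.sum_univ_three] <;> field_simp <;> ring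

lemma R2_mem (t : ℝ) : R2 t ∈ KK := by
  have h : (1 : ℝ) + t ^ 2 ≠ 0 := by positivity
  simp only [KK, Set.mem_ofPred_eq]
  ext i j
  fin_cases i <;> fin_cases j <;>
    simp [R2, Matrix.mul_apply, Fin.sum_univ_three] <;> field_simp <;> ring

/-- The first order conditions at a minimum. -/
lemma gauge {x : Fin 12 → Fin 3 → ℝ} {s : ℝ} (hs : 0 < s) {g : Matrix (Fin 3) (Fin 3) ℝ}
    (hg : g ∈ KK) (hmin : ∀ h ∈ KK, Q g x s ≤ Q h x s) :
    (∑ i : Fin 12, (p i 1 * (g *ᵥ x i) 2 - p i 2 * (g *ᵥ x i) 1) = 0) ∧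
    (∑ i : Fin 12, (p i 2 * (g *ᵥ x i) 0 - p i 0 * (g *ᵥ x i) 2) = 0) ∧
    (∑ i : Fin 12, (p i 0 * (g *ᵥ x i) 1 - p i 1 * (g *ᵥ x i) 0) = 0) := by
  have key : ∀ (A B : ℝ), (∀ t : ℝ, 0 ≤ -2 * s * (((1 - t ^ 2) / (1 + t ^ 2) - 1) * A +
      2 * t / (1 + t ^ 2) * B)) → B = 0 := by
    intro A B h
    refine zero_of_forall (A := A) fun t => ?_
    have h1 := h t
    have h2 : (0 : ℝ) < 1 + t ^ 2 := by positivity
    have h3 : ((1 - t ^ 2) / (1 + t ^ 2) - 1) * A + 2 * t / (1 + t ^ 2) * B =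
        2 * (t * B - t ^ 2 * A) / (1 + t ^ 2) := by
      field_simp
      ring
    rw [h3] at h1
    have h4 : 2 * (t * B - t ^ 2 * A) / (1 + t ^ 2) ≤ 0 := by
      by_contra hc
      push Not at hc
      nlinarith [mul_pos hs hc]
    have h5 : 2 * (t * B - t ^ 2 * A) ≤ 0 := by
      by_contra hc
      push Not at hc
      exact absurd h4 (not_le.2 (div_pos hc h2))
    linarith
  have hcs : ∀ t : ℝ, ((1 - t ^ 2) / (1 + t ^ 2)) ^ 2 + (2 * t / (1 + t ^ 2)) ^ 2 = 1 := by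
    intro t
    have : (1 : ℝ) + t ^ 2 ≠ 0 := by positivity
    field_simp
    ring
  refine ⟨?_, ?_, ?_⟩
  · have := key (∑ i : Fin 12, (p i 1 * (g *ᵥ x i) 1 + p i 2 * (g *ᵥ x i) 2))
      (∑ i : Fin 12, (p i 2 * (g *ᵥ x i) 1 - p i 1 * (g *ᵥ x i) 2)) (fun t => by
        have h1 := hmin _ (mul_mem (R0_mem t) hg)
        have h2 : Q (R0 t * g) x s - Q g x s = -2 * s * (((1 - t ^ 2) / (1 + t ^ 2) - 1) *
            (∑ i : Fin 12, (p i 1 * (g *ᵥ x i) 1 + p i 2 * (g *ᵥ x i) 2)) +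
            2 * t / (1 + t ^ 2) *
            (∑ i : Fin 12, (p i 2 * (g *ᵥ x i) 1 - p i 1 * (g *ᵥ x i) 2))) := by
          unfold Q
          rw [Finset.mul_sum, Finset.mul_sum, ← Finset.sum_sub_distrib, ← Finset.sum_add_distrib,
            Finset.mul_sum]
          refine Finset.sum_congr rfl fun i _ => ?_
          rw [← Matrix.mulVec_mulVec]
          set w := g *ᵥ x i
          have e0 : (R0 t *ᵥ w) 0 = w 0 := by
            simp [R0, Matrix.mulVec, dotProduct, Fin.sum_univ_three]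
          have e1 : (R0 t *ᵥ w) 1 = (1 - t ^ 2) / (1 + t ^ 2) * w 1 -
              2 * t / (1 + t ^ 2) * w 2 := by
            simp [R0, Matrix.mulVec, dotProduct, Fin.sum_univ_three]; ring
          have e2 : (R0 t *ᵥ w) 2 = 2 * t / (1 + t ^ 2) * w 1 +
              (1 - t ^ 2) / (1 + t ^ 2) * w 2 := by
            simp [R0, Matrix.mulVec, dotProduct, Fin.sum_univ_three]
          rw [e0, e1, e2]
          linear_combination (w 1 ^ 2 + w 2 ^ 2) * hcs t
        linarith)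
    rw [← neg_eq_zero, ← Finset.sum_neg_distrib]
    rw [← this]
    exact Finset.sum_congr rfl fun i _ => by ring
  · have := key (∑ i : Fin 12, (p i 0 * (g *ᵥ x i) 0 + p i 2 * (g *ᵥ x i) 2))
      (∑ i : Fin 12, (p i 0 * (g *ᵥ x i) 2 - p i 2 * (g *ᵥ x i) 0)) (fun t => by
        have h1 := hmin _ (mul_mem (R1_mem t) hg)
        have h2 : Q (R1 t * g) x s - Q g x s = -2 * s * (((1 - t ^ 2) / (1 + t ^ 2) - 1) *
            (∑ i : Fin 12, (p i 0 * (g *ᵥ x i) 0 + p i 2 * (g *ᵥ x i) 2)) +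
            2 * t / (1 + t ^ 2) *
            (∑ i : Fin 12, (p i 0 * (g *ᵥ x i) 2 - p i 2 * (g *ᵥ x i) 0))) := by
          unfold Q
          rw [Finset.mul_sum, Finset.mul_sum, ← Finset.sum_sub_distrib, ← Finset.sum_add_distrib,
            Finset.mul_sum]
          refine Finset.sum_congr rfl fun i _ => ?_
          rw [← Matrix.mulVec_mulVec]
          set w := g *ᵥ x i
          have e0 : (R1 t *ᵥ w) 0 = (1 - t ^ 2) / (1 + t ^ 2) * w 0 +
              2 * t / (1 + t ^ 2) * w 2 := by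
            simp [R1, Matrix.mulVec, dotProduct, Fin.sum_univ_three]
          have e1 : (R1 t *ᵥ w) 1 = w 1 := by
            simp [R1, Matrix.mulVec, dotProduct, Fin.sum_univ_three]
          have e2 : (R1 t *ᵥ w) 2 = -(2 * t / (1 + t ^ 2) * w 0) +
              (1 - t ^ 2) / (1 + t ^ 2) * w 2 := by
            simp [R1, Matrix.mulVec, dotProduct, Fin.sum_univ_three]
          rw [e0, e1, e2]
          linear_combination (w 0 ^ 2 + w 2 ^ 2) * hcs t
        linarith)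
    rw [← neg_eq_zero, ← Finset.sum_neg_distrib]
    rw [← this]
    exact Finset.sum_congr rfl fun i _ => by ring
  · have := key (∑ i : Fin 12, (p i 0 * (g *ᵥ x i) 0 + p i 1 * (g *ᵥ x i) 1))
      (∑ i : Fin 12, (p i 1 * (g *ᵥ x i) 0 - p i 0 * (g *ᵥ x i) 1)) (fun t => by
        have h1 := hmin _ (mul_mem (R2_mem t) hg)
        have h2 : Q (R2 t * g) x s - Q g x s = -2 * s * (((1 - t ^ 2) / (1 + t ^ 2) - 1) *
            (∑ i : Fin 12, (p i 0 * (g *ᵥ x i) 0 + p i 1 * (g *ᵥ x i) 1)) +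
            2 * t / (1 + t ^ 2) *
            (∑ i : Fin 12, (p i 1 * (g *ᵥ x i) 0 - p i 0 * (g *ᵥ x i) 1))) := by
          unfold Q
          rw [Finset.mul_sum, Finset.mul_sum, ← Finset.sum_sub_distrib, ← Finset.sum_add_distrib,
            Finset.mul_sum]
          refine Finset.sum_congr rfl fun i _ => ?_
          rw [← Matrix.mulVec_mulVec]
          set w := g *ᵥ x i
          have e0 : (R2 t *ᵥ w) 0 = (1 - t ^ 2) / (1 + t ^ 2) * w 0 -
              2 * t / (1 + t ^ 2) * w 1 := by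
            simp [R2, Matrix.mulVec, dotProduct, Fin.sum_univ_three]; ring
          have e1 : (R2 t *ᵥ w) 1 = 2 * t / (1 + t ^ 2) * w 0 +
              (1 - t ^ 2) / (1 + t ^ 2) * w 1 := by
            simp [R2, Matrix.mulVec, dotProduct, Fin.sum_univ_three]
          have e2 : (R2 t *ᵥ w) 2 = w 2 := by
            simp [R2, Matrix.mulVec, dotProduct, Fin.sum_univ_three]
          rw [e0, e1, e2]
          linear_combination (w 0 ^ 2 + w 1 ^ 2) * hcs t
        linarith)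
    rw [← neg_eq_zero, ← Finset.sum_neg_distrib]
    rw [← this]
    exact Finset.sum_congr rfl fun i _ => by ring

/-- The space of the configurations with radius `r`. -/
def Conf (r : ℝ) : Set (Fin 12 → Fin 3 → ℝ) :=
  {x : Fin 12 → Fin 3 → ℝ |
    (∀ i, ∑ k, (x i k) ^ 2 = (1 + r) ^ 2) ∧
    ∀ i j, i ≠ j → (2 * r) ^ 2 ≤ ∑ k, (x i k - x j k) ^ 2}

lemma conf_norm {r : ℝ} {x : Fin 12 → Fin 3 → ℝ} (hx : x ∈ Conf r) (i : Fin 12) :
    x i 0 * x i 0 + x i 1 * x i 1 + x i 2 * x i 2 = (1 + r) ^ 2 := by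
  have := hx.1 i
  rw [Fin.sum_univ_three] at this
  linarith

lemma conf_ip {r : ℝ} {x : Fin 12 → Fin 3 → ℝ} (hx : x ∈ Conf r) (i j : Fin 12) (hij : i ≠ j) :
    x i 0 * x j 0 + x i 1 * x j 1 + x i 2 * x j 2 ≤ (1 + r) ^ 2 - 2 * r ^ 2 := by
  have h1 := hx.2 i j hij
  have h2 := conf_norm hx i
  have h3 := conf_norm hx j
  rw [Fin.sum_univ_three] at h1
  nlinarith

/-- The contraction. -/
theorem contraction {r : ℝ} (hr : 1.001012104 < r) {x : Fin 12 → Fin 3 → ℝ} (hx : x ∈ Conf r)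
    (h : ∃ g ∈ KK, Q g x (1 + r) ≤ ((1 + r) * (1 / 10 ^ 4)) ^ 2) :
    ∃ g ∈ KK, Q g x (1 + r) ≤ ((1 + r) * (1 / 10 ^ 4)) ^ 2 / 4 := by
  have hs : (0 : ℝ) < 1 + r := by linarith
  have hs2 : (0 : ℝ) < (1 + r) ^ 2 := by positivity
  obtain ⟨g, hg, hmin⟩ := exists_min x (1 + r)
  obtain ⟨g', hg', hQ'⟩ := h
  have hQ := (hmin g' hg').trans hQ'
  refine ⟨g, hg, ?_⟩
  obtain ⟨G0, G1, G2⟩ := gauge hs hg hmin
  set v : ℕ → ℕ → ℝ := fun i k => (g *ᵥ x (Fin.ofNat 12 i)) (Fin.ofNat 3 k) / (1 + r) with hv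
  have hvF : ∀ (i : Fin 12) (k : ℕ), v i k = (g *ᵥ x i) (Fin.ofNat 3 k) / (1 + r) := by
    intro i k
    have : Fin.ofNat 12 (i : ℕ) = i := by
      ext
      simp [Fin.ofNat, Nat.mod_eq_of_lt i.2]
    simp only [hv, this]
  have o0 : Fin.ofNat 3 0 = 0 := rfl
  have o1 : Fin.ofNat 3 1 = 1 := rfl
  have o2 : Fin.ofNat 3 2 = 2 := rfl
  have conv : ∑ i ∈ Finset.range 12,
      ((v i 0 - p i 0) ^ 2 + (v i 1 - p i 1) ^ 2 + (v i 2 - p i 2) ^ 2) =
      Q g x (1 + r) / (1 + r) ^ 2 := by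
    rw [Finset.sum_range, Q, Finset.sum_div]
    refine Finset.sum_congr rfl fun i _ => ?_
    simp only [hvF, o0, o1, o2]
    field_simp
  have hcore := core v ?_ ?_ ?_ ?_ ?_ ?_
  · rw [conv, div_le_iff₀ hs2] at hcore
    refine hcore.trans (le_of_eq ?_)
    ring
  · intro i hi
    have h1 := conf_norm hx (Fin.ofNat 12 i)
    have h2 := isometry3 hg (x (Fin.ofNat 12 i)) (x (Fin.ofNat 12 i))
    simp only [hv, o0, o1, o2]
    rw [div_pow, div_pow, div_pow, ← add_div, ← add_div, div_eq_one_iff_eq hs2.ne']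
    rw [h1] at h2
    linarith
  · intro e he
    obtain ⟨l1, l2, l3⟩ := E_lt e he
    have hne : Fin.ofNat 12 e.1 ≠ Fin.ofNat 12 e.2 := by
      intro hc
      apply l3
      have := congrArg Fin.val hc
      simpa [Fin.ofNat, Nat.mod_eq_of_lt l1, Nat.mod_eq_of_lt l2] using this
    have h1 := conf_ip hx _ _ hne
    have h2 := isometry3 hg (x (Fin.ofNat 12 e.1)) (x (Fin.ofNat 12 e.2))
    simp only [hv, o0, o1, o2]
    rw [← h2] at h1
    have h3 : (1 + r) ^ 2 - 2 * r ^ 2 ≤ 0.4994940761 * (1 + r) ^ 2 := by nlinarith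
    have h4 := h1.trans h3
    rw [← div_le_iff₀ hs2] at h4
    refine le_trans (le_of_eq ?_) h4
    field_simp
  · rw [Finset.sum_range]
    rw [← zero_div (1 + r), ← G0, Finset.sum_div]
    refine Finset.sum_congr rfl fun i _ => ?_
    simp only [hvF, o0, o1, o2]
    ring
  · rw [Finset.sum_range]
    rw [← zero_div (1 + r), ← G1, Finset.sum_div]
    refine Finset.sum_congr rfl fun i _ => ?_
    simp only [hvF, o0, o1, o2]
    ring
  · rw [Finset.sum_range]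
    rw [← zero_div (1 + r), ← G2, Finset.sum_div]
    refine Finset.sum_congr rfl fun i _ => ?_
    simp only [hvF, o0, o1, o2]
    ring
  · rw [conv, div_le_iff₀ hs2]
    refine hQ.trans (le_of_eq ?_)
    ring

/-- The neighbourhood. -/
def UU (s : ℝ) : Set (Fin 12 → Fin 3 → ℝ) :=
  {x | ∃ g ∈ KK, Q g x s < (s * (1 / 10 ^ 4)) ^ 2}

/-- The complement of a smaller neighbourhood. -/
def VV (s : ℝ) : Set (Fin 12 → Fin 3 → ℝ) :=
  {x | ∃ g ∈ KK, Q g x s ≤ (s * (1 / 10 ^ 4)) ^ 2 / 4}ᶜ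

lemma continuous_Q_right (g : Matrix (Fin 3) (Fin 3) ℝ) (s : ℝ) :
    Continuous fun x : Fin 12 → Fin 3 → ℝ => Q g x s := by
  unfold Q
  simp only [Matrix.mulVec, dotProduct]
  fun_prop

lemma continuous_Q_sub (s : ℝ) :
    Continuous fun y : KK × (Fin 12 → Fin 3 → ℝ) => Q y.1.1 y.2 s := by
  have h : Continuous fun y : KK × (Fin 12 → Fin 3 → ℝ) =>
      ((y.1.1, y.2) : Matrix (Fin 3) (Fin 3) ℝ × (Fin 12 → Fin 3 → ℝ)) :=
    (continuous_subtype_val.comp continuous_fst).prodMk continuous_snd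
  have h2 := (continuous_Q s).comp h
  simp only [Function.comp_def] at h2
  exact h2

lemma isOpen_UU_aux (g : Matrix (Fin 3) (Fin 3) ℝ) (s c : ℝ) :
    IsOpen {x : Fin 12 → Fin 3 → ℝ | Q g x s < c} :=
  isOpen_lt (continuous_Q_right g s) continuous_const

lemma isOpen_UU (s : ℝ) : IsOpen (UU s) := by
  have : UU s = ⋃ g ∈ KK, {x | Q g x s < (s * (1 / 10 ^ 4)) ^ 2} := by
    ext x
    simp only [UU, Set.mem_ofPred_eq, Set.mem_iUnion, exists_prop]
  rw [this]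
  exact isOpen_biUnion fun g _ => isOpen_UU_aux g s _

lemma isOpen_VV (s : ℝ) : IsOpen (VV s) := by
  rw [VV, isOpen_compl_iff]
  have : CompactSpace KK := isCompact_iff_compactSpace.1 isCompact_KK
  have h1 : IsClosed {y : KK × (Fin 12 → Fin 3 → ℝ) |
      Q y.1.1 y.2 s ≤ (s * (1 / 10 ^ 4)) ^ 2 / 4} :=
    isClosed_le (continuous_Q_sub s) continuous_const
  have h2 := isClosedMap_snd_of_compactSpace _ h1
  convert h2 using 1
  ext x
  simp only [Set.mem_ofPred_eq, Set.mem_image, Prod.exists, exists_eq_right, Subtype.exists]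
  constructor
  · rintro ⟨g, hg, h⟩
    exact ⟨g, hg, h⟩
  · rintro ⟨g, hg, h⟩
    exact ⟨g, hg, h⟩

/-- The component of a configuration in the neighbourhood stays there. -/
theorem component_subset {r : ℝ} (hr : 1.001012104 < r) {x : Fin 12 → Fin 3 → ℝ}
    (hx : x ∈ Conf r) (hU : x ∈ UU (1 + r)) : connectedComponentIn (Conf r) x ⊆ UU (1 + r) := by
  have hpre : IsPreconnected (connectedComponentIn (Conf r) x) :=
    isPreconnected_connectedComponentIn
  have hsub : connectedComponentIn (Conf r) x ⊆ Conf r := connectedComponentIn_subset _ _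
  have hcontr : ∀ y ∈ Conf r, y ∈ UU (1 + r) → y ∉ VV (1 + r) := by
    rintro y hy ⟨g, hg, h⟩ hV
    exact hV (contraction hr hy ⟨g, hg, h.le⟩)
  have hcov : connectedComponentIn (Conf r) x ⊆ UU (1 + r) ∪ VV (1 + r) := by
    intro y _
    by_cases hV : y ∈ VV (1 + r)
    · exact Or.inr hV
    · left
      simp only [VV, Set.mem_compl_iff, not_not] at hV
      obtain ⟨g, hg, h⟩ := hV
      refine ⟨g, hg, h.trans_lt ?_⟩
      have : (0 : ℝ) < ((1 + r) * (1 / 10 ^ 4)) ^ 2 := by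
        have : 0 < 1 + r := by linarith
        positivity
      linarith
  have hdis : connectedComponentIn (Conf r) x ∩ (UU (1 + r) ∩ VV (1 + r)) = ∅ := by
    ext y
    simp only [Set.mem_inter_iff, Set.mem_empty_iff_false, iff_false, not_and]
    intro hy hyU
    exact hcontr y (hsub hy) hyU
  rcases isPreconnected_iff_subset_of_disjoint.1 hpre _ _ (isOpen_UU _) (isOpen_VV _) hcov hdis
    with h | h
  · exact h
  · exact absurd (h (mem_connectedComponentIn hx)) (hcontr x hx hU)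

/-- The base configuration. -/
noncomputable def base (r : ℝ) : Fin 12 → Fin 3 → ℝ := fun i k =>
  (1 + r) * (p i k / Real.sqrt (ipp i i))

lemma ipp_self_bounds (i : Fin 12) : 1 ≤ ipp i i ∧ ipp i i ≤ 1 + 1 / 10 ^ 11 := by
  obtain ⟨a3, a3'⟩ := ipz_self i i.2
  have a4 : ipp i i = ipz i i / 10 ^ 24 := ipp_eq _ _
  have a5 : (1000000000000000000000000 : ℝ) ≤ ipz i i := by exact_mod_cast a3
  have a5' : (ipz i i : ℝ) ≤ 1000000000010000000000000 := by exact_mod_cast a3'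
  constructor
  · rw [a4, le_div_iff₀ (by positivity)]
    linarith
  · rw [a4, div_le_iff₀ (by positivity)]
    linarith

lemma sqrt_bounds (i : Fin 12) : 1 ≤ Real.sqrt (ipp i i) ∧
    Real.sqrt (ipp i i) ≤ 1 + 1 / 10 ^ 11 := by
  obtain ⟨h1, h2⟩ := ipp_self_bounds i
  constructor
  · rw [Real.one_le_sqrt]
    exact h1
  · rw [Real.sqrt_le_left (by positivity)]
    nlinarith

lemma base_mem {r : ℝ} (hr1 : 1 < r) (hr : r < 1.0010121048) : base r ∈ Conf r := by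
  have hnorm : ∀ i : Fin 12, base r i 0 * base r i 0 + base r i 1 * base r i 1 +
      base r i 2 * base r i 2 = (1 + r) ^ 2 := by
    intro i
    obtain ⟨h1, -⟩ := ipp_self_bounds i
    obtain ⟨h3, -⟩ := sqrt_bounds i
    have h2 : Real.sqrt (ipp i i) ^ 2 = ipp i i := Real.sq_sqrt (by linarith)
    have h4 : ipp i i = p i 0 * p i 0 + p i 1 * p i 1 + p i 2 * p i 2 := rfl
    simp only [base]
    have e0 : ((0 : Fin 3) : ℕ) = 0 := rfl
    have e1 : ((1 : Fin 3) : ℕ) = 1 := rfl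
    have e2 : ((2 : Fin 3) : ℕ) = 2 := rfl
    rw [e0, e1, e2]
    have h5 : Real.sqrt (ipp i i) ≠ 0 := by linarith
    field_simp
    rw [h2, h4]
    ring
  have hip : ∀ i j : Fin 12, i ≠ j → base r i 0 * base r j 0 + base r i 1 * base r j 1 +
      base r i 2 * base r j 2 ≤ (1 + r) ^ 2 - 2 * r ^ 2 := by
    intro i j hij
    obtain ⟨h3, -⟩ := sqrt_bounds i
    obtain ⟨h4, -⟩ := sqrt_bounds j
    have hne : (i : ℕ) ≠ j := fun h => hij (Fin.ext h)
    have h5 := ipz_le i i.2 j j.2 hne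
    have h6 : ipp i j = ipz i j / 10 ^ 24 := ipp_eq _ _
    have h7 : (ipz i j : ℝ) ≤ 499494075613000000000000 := by exact_mod_cast h5
    have h8 : ipp i j ≤ 0.499494075613 := by
      rw [h6, div_le_iff₀ (by positivity)]
      linarith
    have h9 : base r i 0 * base r j 0 + base r i 1 * base r j 1 + base r i 2 * base r j 2 =
        (1 + r) ^ 2 * (ipp i j / (Real.sqrt (ipp i i) * Real.sqrt (ipp j j))) := by
      simp only [base, ipp]
      have e0 : ((0 : Fin 3) : ℕ) = 0 := rfl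
      have e1 : ((1 : Fin 3) : ℕ) = 1 := rfl
      have e2 : ((2 : Fin 3) : ℕ) = 2 := rfl
      rw [e0, e1, e2]
      ring
    rw [h9]
    have h10 : ipp i j / (Real.sqrt (ipp i i) * Real.sqrt (ipp j j)) ≤ 0.499494075613 := by
      rw [div_le_iff₀ (by positivity)]
      have : 1 ≤ Real.sqrt (ipp i i) * Real.sqrt (ipp j j) := by nlinarith
      linarith
    have h11 : (1 + r) ^ 2 * (ipp i j / (Real.sqrt (ipp i i) * Real.sqrt (ipp j j))) ≤
        (1 + r) ^ 2 * 0.499494075613 := mul_le_mul_of_nonneg_left h10 (by positivity)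
    refine h11.trans ?_
    nlinarith
  refine ⟨fun i => ?_, fun i j hij => ?_⟩
  · rw [Fin.sum_univ_three]
    linarith [hnorm i]
  · rw [Fin.sum_univ_three]
    nlinarith [hnorm i, hnorm j, hip i j hij]

lemma base_mem_UU {r : ℝ} (hr1 : 1 < r) : base r ∈ UU (1 + r) := by
  refine ⟨1, one_mem, ?_⟩
  have h : Q 1 (base r) (1 + r) ≤ ∑ i : Fin 12, (1 + r) ^ 2 * (2 / 10 ^ 22) := by
    unfold Q
    refine Finset.sum_le_sum fun i _ => ?_
    rw [Matrix.one_mulVec]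
    obtain ⟨h1, h2⟩ := ipp_self_bounds i
    obtain ⟨h3, h4⟩ := sqrt_bounds i
    have h5 : ipp i i = p i 0 * p i 0 + p i 1 * p i 1 + p i 2 * p i 2 := rfl
    have e0 : ((0 : Fin 3) : ℕ) = 0 := rfl
    have e1 : ((1 : Fin 3) : ℕ) = 1 := rfl
    have e2 : ((2 : Fin 3) : ℕ) = 2 := rfl
    simp only [base]
    rw [e0, e1, e2]
    set q := Real.sqrt (ipp i i)
    have h6 : ((1 + r) * (p i 0 / q) - (1 + r) * p i 0) ^ 2 +
        ((1 + r) * (p i 1 / q) - (1 + r) * p i 1) ^ 2 +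
        ((1 + r) * (p i 2 / q) - (1 + r) * p i 2) ^ 2 =
        (1 + r) ^ 2 * (ipp i i * (1 / q - 1) ^ 2) := by
      rw [h5]
      ring
    rw [h6]
    apply mul_le_mul_of_nonneg_left _ (by positivity)
    have h7 : 0 ≤ 1 - 1 / q := by
      rw [sub_nonneg, div_le_iff₀ (by linarith)]
      linarith
    have h8 : 1 - 1 / q ≤ 1 / 10 ^ 11 := by
      have : 1 - 1 / q = (q - 1) / q := by
        field_simp
      rw [this, div_le_iff₀ (by linarith)]
      nlinarith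
    have h9 : (1 / q - 1) ^ 2 ≤ (1 / 10 ^ 11) ^ 2 := by
      rw [← neg_sub, neg_sq]
      exact pow_le_pow_left₀ h7 h8 2
    have h10 : 0 ≤ (1 / q - 1) ^ 2 := sq_nonneg _
    calc ipp i i * (1 / q - 1) ^ 2 ≤ 2 * (1 / 10 ^ 11) ^ 2 := by
          apply mul_le_mul _ h9 h10 (by norm_num)
          linarith
      _ = _ := by norm_num
  refine h.trans_lt ?_
  rw [Finset.sum_const, Finset.card_univ, Fintype.card_fin, nsmul_eq_mul]
  have : (0 : ℝ) < (1 + r) ^ 2 := by positivity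
  rw [mul_pow]
  norm_num
  linarith

/-- The inner product of the points `1` and `4` of a configuration in the neighbourhood. -/
lemma UU_ip {r : ℝ} (hr1 : 1 < r) {x : Fin 12 → Fin 3 → ℝ} (hU : x ∈ UU (1 + r)) :
    0.45 * (1 + r) ^ 2 < x 1 0 * x 4 0 + x 1 1 * x 4 1 + x 1 2 * x 4 2 ∧
    x 1 0 * x 4 0 + x 1 1 * x 4 1 + x 1 2 * x 4 2 < 0.55 * (1 + r) ^ 2 := by
  obtain ⟨g, hg, hQ⟩ := hU
  have hs : (0 : ℝ) < 1 + r := by linarith
  rw [← isometry3 hg]
  have hone : ∀ i : Fin 12, ((g *ᵥ x i) 0 - (1 + r) * p i 0) ^ 2 +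
      ((g *ᵥ x i) 1 - (1 + r) * p i 1) ^ 2 + ((g *ᵥ x i) 2 - (1 + r) * p i 2) ^ 2 ≤
      ((1 + r) * (1 / 10 ^ 4)) ^ 2 := by
    intro i
    refine le_trans ?_ hQ.le
    unfold Q
    exact Finset.single_le_sum (f := fun i : Fin 12 => ((g *ᵥ x i) 0 - (1 + r) * p i 0) ^ 2 +
      ((g *ᵥ x i) 1 - (1 + r) * p i 1) ^ 2 + ((g *ᵥ x i) 2 - (1 + r) * p i 2) ^ 2)
      (fun i _ => by positivity) (Finset.mem_univ i)
  have hco : ∀ i : Fin 12, |(g *ᵥ x i) 0 / (1 + r) - p i 0| ≤ 1 / 10 ^ 4 ∧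
      |(g *ᵥ x i) 1 / (1 + r) - p i 1| ≤ 1 / 10 ^ 4 ∧
      |(g *ᵥ x i) 2 / (1 + r) - p i 2| ≤ 1 / 10 ^ 4 := by
    intro i
    have h := hone i
    have aux : ∀ a b : ℝ, (a - (1 + r) * b) ^ 2 ≤ ((1 + r) * (1 / 10 ^ 4)) ^ 2 →
        |a / (1 + r) - b| ≤ 1 / 10 ^ 4 := by
      intro a b hab
      have h1 := abs_le_of_sq_le_sq hab (by positivity)
      have h2 : a / (1 + r) - b = (a - (1 + r) * b) / (1 + r) := by field_simp
      rw [h2, abs_div, abs_of_pos hs, div_le_iff₀ hs]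
      linarith
    refine ⟨aux _ _ ?_, aux _ _ ?_, aux _ _ ?_⟩ <;>
    nlinarith [sq_nonneg ((g *ᵥ x i) 0 - (1 + r) * p i 0),
      sq_nonneg ((g *ᵥ x i) 1 - (1 + r) * p i 1), sq_nonneg ((g *ᵥ x i) 2 - (1 + r) * p i 2)]
  obtain ⟨a0, a1, a2⟩ := hco 1
  obtain ⟨b0, b1, b2⟩ := hco 4
  set w := g *ᵥ x 1
  set z := g *ᵥ x 4
  have n1 : ((1 : Fin 12) : ℕ) = 1 := rfl
  have n4 : ((4 : Fin 12) : ℕ) = 4 := rfl
  rw [n1] at a0 a1 a2
  rw [n4] at b0 b1 b2
  have p10 : p 1 0 = 0.349319001141 := by norm_num [p, row, P]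
  have p11 : p 1 1 = -0.698001217943 := by norm_num [p, row, P]
  have p12 : p 1 2 = -0.625116417316 := by norm_num [p, row, P]
  have p40 : p 4 0 = 0.200419731376 := by norm_num [p, row, P]
  have p41 : p 4 1 = 0.236218752055 := by norm_num [p, row, P]
  have p42 : p 4 2 = -0.950806306489 := by norm_num [p, row, P]
  rw [p10, abs_le] at a0
  rw [p11, abs_le] at a1
  rw [p12, abs_le] at a2
  rw [p40, abs_le] at b0
  rw [p41, abs_le] at b1
  rw [p42, abs_le] at b2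
  have e : w 0 * z 0 + w 1 * z 1 + w 2 * z 2 = (w 0 / (1 + r) * (z 0 / (1 + r)) +
      w 1 / (1 + r) * (z 1 / (1 + r)) + w 2 / (1 + r) * (z 2 / (1 + r))) * (1 + r) ^ 2 := by
    field_simp
  rw [e]
  set W0 := w 0 / (1 + r)
  set W1 := w 1 / (1 + r)
  set W2 := w 2 / (1 + r)
  set Z0 := z 0 / (1 + r)
  set Z1 := z 1 / (1 + r)
  set Z2 := z 2 / (1 + r)
  have hs2 : (0 : ℝ) < (1 + r) ^ 2 := by positivity
  have q1 : 0.45 < W0 * Z0 + W1 * Z1 + W2 * Z2 := by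
    nlinarith [mul_nonneg (by linarith [a0.1] : 0 ≤ W0 - 0.3492) (by linarith [b0.1] : 0 ≤ Z0 - 0.2003),
      mul_nonneg (by linarith [a1.1] : 0 ≤ W1 + 0.6982) (by linarith [b1.2] : 0 ≤ 0.2364 - Z1),
      mul_nonneg (by linarith [a2.2] : 0 ≤ -0.625 - W2) (by linarith [b2.2] : 0 ≤ -0.9507 - Z2)]
  have q2 : W0 * Z0 + W1 * Z1 + W2 * Z2 < 0.55 := by
    nlinarith [mul_nonneg (by linarith [a0.2] : 0 ≤ 0.3495 - W0) (by linarith [b0.1] : 0 ≤ Z0 - 0.2003),
      mul_nonneg (by linarith [a1.2] : 0 ≤ -0.6979 - W1) (by linarith [b1.2] : 0 ≤ 0.2364 - Z1),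
      mul_nonneg (by linarith [a2.1] : 0 ≤ W2 + 0.6253) (by linarith [b2.2] : 0 ≤ -0.9507 - Z2)]
  constructor
  · exact mul_lt_mul_of_pos_right q1 hs2
  · exact mul_lt_mul_of_pos_right q2 hs2

end Pool.Agent.W652.Twelve
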