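import Pool.Agent.W652.OriDefs
import Pool.Agent.Helper475.Miranda

/-!
# A transversal crossing is not a uniform limit of injective continuous maps
-/

set_option autoImplicit false

namespace Pool.Agent.W652.Origami

open Set

/-- If `σ` maps a segment of the sheet and a parallelogram of the sheet, disjoint from each other,
affinely to space such that the images cross transversally in the common centre, then `σ` is not a
uniform limit of injective continuous maps. -/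
theorem not_limit_of_crossing {R : Set Plane} {σ : Plane → Space}
    (hlim : ∀ ε > 0, ∃ τ : Plane → Space, ContinuousOn τ R ∧ Set.InjOn τ R ∧
      ∀ x ∈ R, dist (σ x) (τ x) < ε)
    (c₁ c₂ d₁ d₂ d₃ : Plane) (m₀ m₁ m₂ : Space)
    (h₁ : ∀ a : ℝ, -1 ≤ a → a ≤ 1 → c₁ + a • d₁ ∈ R)
    (h₂ : ∀ b c : ℝ, -1 ≤ b → b ≤ 1 → -1 ≤ c → c ≤ 1 → c₂ + b • d₂ + c • d₃ ∈ R)
    (hne : ∀ a b c : ℝ, -1 ≤ a → a ≤ 1 → -1 ≤ b → b ≤ 1 → -1 ≤ c → c ≤ 1 →
      c₁ + a • d₁ ≠ c₂ + b • d₂ + c • d₃)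
    (hσ : ∀ a b c : ℝ, -1 ≤ a → a ≤ 1 → -1 ≤ b → b ≤ 1 → -1 ≤ c → c ≤ 1 →
      σ (c₁ + a • d₁) - σ (c₂ + b • d₂ + c • d₃) = a • m₀ + b • m₁ + c • m₂)
    (hli : ∀ a b c : ℝ, a • m₀ + b • m₁ + c • m₂ = 0 → a = 0 ∧ b = 0 ∧ c = 0) : False := by
  have hli' : LinearIndependent ℝ ![m₀, m₁, m₂] := by
    rw [Fintype.linearIndependent_iff]
    intro g hg
    have h3 := hli (g 0) (g 1) (g 2) (by simpa [Fin.sum_univ_three] using hg)
    intro i
    fin_cases i
    · exact h3.1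
    · exact h3.2.1
    · exact h3.2.2
  let B := basisOfLinearIndependentOfCardEqFinrank hli' (by simp)
  have hB0 : B 0 = m₀ := by simp [B]
  have hB1 : B 1 = m₁ := by simp [B]
  have hB2 : B 2 = m₂ := by simp [B]
  let N : Space →L[ℝ] (Fin 3 → ℝ) := LinearMap.toContinuousLinearMap (B.equivFun : Space →ₗ[ℝ] (Fin 3 → ℝ))
  have hN : ∀ v, N v = B.equivFun v := fun v => rfl
  have hNcomb : ∀ a b c : ℝ, N (a • m₀ + b • m₁ + c • m₂) = ![a, b, c] := by
    intro a b c
    rw [hN]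
    have : a • m₀ + b • m₁ + c • m₂ = B.equivFun.symm ![a, b, c] := by
      rw [Module.Basis.equivFun_symm_apply]
      simp [Fin.sum_univ_three, hB0, hB1, hB2]
    rw [this, LinearEquiv.apply_symm_apply]
  obtain ⟨C, hC0, hC⟩ : ∃ C : ℝ, 0 < C ∧ ∀ v, ‖N v‖ ≤ C * ‖v‖ :=
    ⟨‖N‖ + 1, by positivity, fun v => (N.le_opNorm v).trans (by
      have := norm_nonneg v
      nlinarith [norm_nonneg v])⟩
  obtain ⟨τ, hτc, hτi, hτ⟩ := hlim (1 / (2 * C)) (by positivity)
  -- the map on the cube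
  let A : (Fin 3 → ℝ) → Plane := fun t => c₁ + (2 * t 0 - 1) • d₁
  let A' : (Fin 3 → ℝ) → Plane := fun t => c₂ + (2 * t 1 - 1) • d₂ + (2 * t 2 - 1) • d₃
  have hA : ∀ t : Fin 3 → ℝ, (∀ i, 0 ≤ t i ∧ t i ≤ 1) → A t ∈ R := fun t ht =>
    h₁ _ (by linarith [(ht 0).1]) (by linarith [(ht 0).2])
  have hA' : ∀ t : Fin 3 → ℝ, (∀ i, 0 ≤ t i ∧ t i ≤ 1) → A' t ∈ R := fun t ht =>
    h₂ _ _ (by linarith [(ht 1).1]) (by linarith [(ht 1).2]) (by linarith [(ht 2).1])
      (by linarith [(ht 2).2])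
  let F : (Fin 3 → ℝ) → (Fin 3 → ℝ) := fun t => N (τ (A t) - τ (A' t))
  have hclose : ∀ t : Fin 3 → ℝ, (∀ i, 0 ≤ t i ∧ t i ≤ 1) →
      ∀ i, |F t i - ![2 * t 0 - 1, 2 * t 1 - 1, 2 * t 2 - 1] i| ≤ 1 := by
    intro t ht i
    have e1 : ![2 * t 0 - 1, 2 * t 1 - 1, 2 * t 2 - 1] = N (σ (A t) - σ (A' t)) := by
      rw [hσ _ _ _ (by linarith [(ht 0).1]) (by linarith [(ht 0).2]) (by linarith [(ht 1).1])
        (by linarith [(ht 1).2]) (by linarith [(ht 2).1]) (by linarith [(ht 2).2]), hNcomb]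
    rw [e1]
    have e2 : F t i - N (σ (A t) - σ (A' t)) i =
        N ((τ (A t) - σ (A t)) + (σ (A' t) - τ (A' t))) i := by
      have e5 : F t - N (σ (A t) - σ (A' t)) =
          N ((τ (A t) - σ (A t)) + (σ (A' t) - τ (A' t))) := by
        simp only [F, ← map_sub]
        congr 1
        abel
      rw [← e5, Pi.sub_apply]
    rw [e2]
    have e3 := hτ _ (hA t ht)
    have e4 := hτ _ (hA' t ht)
    rw [dist_eq_norm] at e3 e4
    rw [norm_sub_rev] at e3
    calc |N ((τ (A t) - σ (A t)) + (σ (A' t) - τ (A' t))) i|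
        ≤ ‖N ((τ (A t) - σ (A t)) + (σ (A' t) - τ (A' t)))‖ := by
          rw [← Real.norm_eq_abs]
          exact norm_le_pi_norm (N ((τ (A t) - σ (A t)) + (σ (A' t) - τ (A' t)))) i
      _ ≤ C * ‖(τ (A t) - σ (A t)) + (σ (A' t) - τ (A' t))‖ := hC _
      _ ≤ C * (1 / (2 * C) + 1 / (2 * C)) := by
          apply mul_le_mul_of_nonneg_left _ hC0.le
          exact (norm_add_le _ _).trans (by linarith)
      _ = 1 := by field_simp; norm_num
  have hFc : ContinuousOn F {x | ∀ i, 0 ≤ x i ∧ x i ≤ 1} := by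
    apply N.continuous.comp_continuousOn
    apply ContinuousOn.sub
    · apply hτc.comp
      · exact (by fun_prop : Continuous A).continuousOn
      · intro t ht; exact hA t ht
    · apply hτc.comp
      · exact (by fun_prop : Continuous A').continuousOn
      · intro t ht; exact hA' t ht
  obtain ⟨t, ht, hFt⟩ := Helper475.Miranda.poincare_miranda 3 F hFc
    (by
      intro t ht i hi
      have := abs_le.1 (hclose t ht i)
      fin_cases i <;> simp at hi this ⊢ <;> linarith)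
    (by
      intro t ht i hi
      have := abs_le.1 (hclose t ht i)
      fin_cases i <;> simp at hi this ⊢ <;> linarith)
  have h5 : τ (A t) - τ (A' t) = 0 := by
    have : B.equivFun (τ (A t) - τ (A' t)) = 0 := hFt
    exact (LinearEquiv.map_eq_zero_iff _).1 this
  have h6 := hτi (hA t ht) (hA' t ht) (sub_eq_zero.1 h5)
  exact hne (2 * t 0 - 1) (2 * t 1 - 1) (2 * t 2 - 1) (by linarith [(ht 0).1])
    (by linarith [(ht 0).2]) (by linarith [(ht 1).1]) (by linarith [(ht 1).2])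
    (by linarith [(ht 2).1]) (by linarith [(ht 2).2]) h6

end Pool.Agent.W652.Origami
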