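import Pool.Agent.W652.OriVertex
import Pool.Agent.W652.OriCross

/-!
# The two blocked folding angles
-/

set_option autoImplicit false

namespace Pool.Agent.W652.Origami

open Set Filter
open scoped Topology

theorem poly_subset_rect (i : Fin 6) : cpoly (pl i) ⊆ rect := by
  fin_cases i
  · intro p hp
    obtain ⟨h1, h2, h3, h4⟩ := mem_T.1 hp
    refine ⟨⟨?_, ?_⟩, ?_, ?_⟩ <;> linarith
  · intro p hp
    obtain ⟨h1, h2, h3, h4⟩ := mem_TL.1 hp
    refine ⟨⟨?_, ?_⟩, ?_, ?_⟩ <;> linarith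
  · intro p hp
    obtain ⟨h1, h2, h3, h4⟩ := mem_TR.1 hp
    refine ⟨⟨?_, ?_⟩, ?_, ?_⟩ <;> linarith
  · intro p hp
    obtain ⟨h1, h2, h3, h4⟩ := mem_B.1 hp
    refine ⟨⟨?_, ?_⟩, ?_, ?_⟩ <;> linarith
  · intro p hp
    obtain ⟨h1, h2, h3, h4⟩ := mem_BL.1 hp
    refine ⟨⟨?_, ?_⟩, ?_, ?_⟩ <;> linarith
  · intro p hp
    obtain ⟨h1, h2, h3, h4⟩ := mem_BR.1 hp
    refine ⟨⟨?_, ?_⟩, ?_, ?_⟩ <;> linarith

/-- The left arm. -/
def ArmL (f : Plane → Space) (c s a b d : ℝ) : Prop :=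
  ∀ p ∈ cpoly (pl 1), f p =
    !₂[p 0 + (5 / 12 * p 1 - (p 0 + 21)) * a, c * p 1 + (5 / 12 * p 1 - (p 0 + 21)) * b,
      s * p 1 + (5 / 12 * p 1 - (p 0 + 21)) * d]

/-- The lower face of the right arm. -/
def ArmR (f : Plane → Space) (c s a b d : ℝ) : Prop :=
  ∀ p ∈ cpoly (pl 5), f p =
    !₂[p 0 - (p 0 - 21 - 5 / 12 * p 1) * a, c * p 1 - (p 0 - 21 - 5 / 12 * p 1) * b,
      -(s * p 1) + (p 0 - 21 - 5 / 12 * p 1) * d]

theorem armR_of_twist {f : Plane → Space} {c s a b d : ℝ}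
    (h : ArmL (fun p => rot (f (-p))) c s a b d) : ArmR f c s a b d := by
  intro p hp
  have h1 := h (-p) (neg_BR hp)
  simp only [neg_neg] at h1
  have h0 := congrArg (fun P : Space => P 0) h1
  have h2 := congrArg (fun P : Space => P 1) h1
  have h3 := congrArg (fun P : Space => P 2) h1
  simp [rot] at h0 h2 h3
  apply space_ext
  · simp; linarith
  · simp; linarith
  · simp; linarith

/-- At the first blocked angle the two arms cross. -/
theorem blocked_one {f : Plane → Space} (hlim : IsLimit f)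
    (hL : ArmL f (15 / 17) (8 / 17) (663552 / 415297) (-156672 / 415297) (-293760 / 415297))
    (hR : ArmR f (15 / 17) (8 / 17) (663552 / 415297) (-156672 / 415297) (-293760 / 415297)) :
    False := by
  have mL : ∀ α : ℝ, -1 ≤ α → α ≤ 1 →
      !₂[-4644864 / 107413, 6214656 / 537065] + α • !₂[1, 0] ∈ cpoly (pl 1) := by
    intro α h1 h2
    refine mem_TL.2 ⟨?_, ?_, ?_, ?_⟩ <;> simp <;> linarith
  have mR : ∀ β γ : ℝ, -1 ≤ β → β ≤ 1 → -1 ≤ γ → γ ≤ 1 →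
      !₂[4644864 / 107413, -6214656 / 537065] + β • !₂[1, 0] + γ • !₂[0, 1 / 4] ∈
        cpoly (pl 5) := by
    intro β γ h1 h2 h3 h4
    refine mem_BR.2 ⟨?_, ?_, ?_, ?_⟩ <;> simp <;> linarith
  refine not_limit_of_crossing hlim !₂[-4644864 / 107413, 6214656 / 537065]
    !₂[4644864 / 107413, -6214656 / 537065] !₂[1, 0] !₂[1, 0] !₂[0, 1 / 4]
    !₂[1 - 663552 / 415297, 156672 / 415297, 293760 / 415297]
    !₂[-(1 - 663552 / 415297), -156672 / 415297, 293760 / 415297]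
    !₂[-(1 / 4 * (5 / 12 * (663552 / 415297))), -(1 / 4 * (15 / 17 - 5 / 12 * (156672 / 415297))),
      -(1 / 4 * (-8 / 17 + 5 / 12 * (293760 / 415297)))]
    ?_ ?_ ?_ ?_ ?_
  · intro α h1 h2
    exact poly_subset_rect 1 (mL α h1 h2)
  · intro β γ h1 h2 h3 h4
    exact poly_subset_rect 5 (mR β γ h1 h2 h3 h4)
  · intro α β γ h1 h2 h3 h4 h5 h6 h
    have h0 := congrArg (fun P : Plane => P 0) h
    simp at h0
    linarith
  · intro α β γ h1 h2 h3 h4 h5 h6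
    rw [hL _ (mL α h1 h2), hR _ (mR β γ h3 h4 h5 h6)]
    apply space_ext <;> simp <;> ring
  · intro α β γ h
    have h0 := congrArg (fun P : Space => P 0) h
    have h1 := congrArg (fun P : Space => P 1) h
    have h2 := congrArg (fun P : Space => P 2) h
    simp at h0 h1 h2
    refine ⟨?_, ?_, ?_⟩ <;> linarith

/-- At the second blocked angle the left arm crosses the lower middle face. -/
theorem blocked_two {f : Plane → Space} (hlim : IsLimit f)
    (hL : ArmL f (3 / 5) (4 / 5) (165888 / 98569) (-57600 / 98569) (-43200 / 98569))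
    (hB : ∀ p ∈ cpoly (pl 3), f p = !₂[p 0, 3 / 5 * p 1, -(4 / 5 * p 1)]) : False := by
  have mL : ∀ α : ℝ, -1 ≤ α → α ≤ 1 →
      !₂[-21 - 67319 / 25000, 3] + α • !₂[1, 0] ∈ cpoly (pl 1) := by
    intro α h1 h2
    refine mem_TL.2 ⟨?_, ?_, ?_, ?_⟩ <;> simp <;> linarith
  have mB : ∀ β γ : ℝ, -1 ≤ β → β ≤ 1 → -1 ≤ γ → γ ≤ 1 →
      !₂[-21 + 98569 / 25000, -21 / 25] + β • !₂[1, 0] + γ • !₂[0, 1 / 4] ∈
        cpoly (pl 3) := by
    intro β γ h1 h2 h3 h4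
    refine mem_B.2 ⟨?_, ?_, ?_, ?_⟩ <;> simp <;> linarith
  refine not_limit_of_crossing hlim !₂[-21 - 67319 / 25000, 3]
    !₂[-21 + 98569 / 25000, -21 / 25] !₂[1, 0] !₂[1, 0] !₂[0, 1 / 4]
    !₂[1 - 165888 / 98569, 57600 / 98569, 43200 / 98569]
    !₂[-1, 0, 0]
    !₂[0, -(1 / 4 * (3 / 5)), 1 / 4 * (4 / 5)]
    ?_ ?_ ?_ ?_ ?_
  · intro α h1 h2
    exact poly_subset_rect 1 (mL α h1 h2)
  · intro β γ h1 h2 h3 h4
    exact poly_subset_rect 3 (mB β γ h1 h2 h3 h4)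
  · intro α β γ h1 h2 h3 h4 h5 h6 h
    have h0 := congrArg (fun P : Plane => P 1) h
    simp at h0
    linarith
  · intro α β γ h1 h2 h3 h4 h5 h6
    rw [hL _ (mL α h1 h2), hB _ (mB β γ h3 h4 h5 h6)]
    apply space_ext <;> simp <;> ring
  · intro α β γ h
    have h0 := congrArg (fun P : Space => P 0) h
    have h1 := congrArg (fun P : Space => P 1) h
    have h2 := congrArg (fun P : Space => P 2) h
    simp at h0 h1 h2
    refine ⟨?_, ?_, ?_⟩ <;> linarith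

end Pool.Agent.W652.Origami
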