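import Mathlib

/-!
# Rigid origami: crease patterns, rigidly folded states, configuration spaces
-/

set_option autoImplicit false

namespace Pool.Agent.W652.Origami

open scoped Topology

/-- The plane of the sheet. -/
abbrev Plane := EuclideanSpace ℝ (Fin 2)

/-- Three-dimensional space. -/
abbrev Space := EuclideanSpace ℝ (Fin 3)

/-- The counter-clockwise rotation of the plane by a quarter turn. -/
noncomputable def quarter (v : Plane) : Plane := !₂[-(v 1), v 0]

/-- The cross product in three-dimensional space. -/
noncomputable def cross (u v : Space) : Space :=
  !₂[u 1 * v 2 - u 2 * v 1, u 2 * v 0 - u 0 * v 2, u 0 * v 1 - u 1 * v 0]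

/-- A crease pattern: a finite plane graph with straight-line edges (the creases), drawn on a
compact region `R` of the plane.  The creases are oriented from `src` to `tgt` for bookkeeping
only. -/
structure CreasePattern where
  /-- the sheet -/
  R : Set Plane
  isCompact_R : IsCompact R
  closure_interior_R : closure (interior R) = R
  isConnected_interior_R : IsConnected (interior R)
  /-- the number of vertices -/
  nV : ℕ
  /-- the number of creases -/
  nE : ℕ
  /-- the vertices -/
  vert : Fin nV → Plane
  vert_injective : Function.Injective vert
  vert_mem : ∀ i, vert i ∈ R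
  /-- the first endpoint of a crease -/
  src : Fin nE → Fin nV
  /-- the second endpoint of a crease -/
  tgt : Fin nE → Fin nV
  src_ne_tgt : ∀ e, src e ≠ tgt e
  /-- a crease runs in the interior of the sheet, except possibly for its endpoints -/
  openSegment_subset : ∀ e, openSegment ℝ (vert (src e)) (vert (tgt e)) ⊆ interior R
  /-- no vertex lies in the relative interior of a crease -/
  vert_notMem : ∀ e i, vert i ∉ openSegment ℝ (vert (src e)) (vert (tgt e))
  /-- different creases do not meet in their relative interiors -/
  disjoint_creases : ∀ e e', e ≠ e' →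
    Disjoint (openSegment ℝ (vert (src e)) (vert (tgt e)))
      (openSegment ℝ (vert (src e')) (vert (tgt e')))

namespace CreasePattern

variable (G : CreasePattern)

/-- The union of the creases. -/
def creases : Set Plane := ⋃ e, segment ℝ (G.vert (G.src e)) (G.vert (G.tgt e))

/-- The faces: the closures of the connected components of `R` minus the creases. -/
def IsFace (F : Set Plane) : Prop :=
  ∃ x ∈ G.R \ G.creases, F = closure (connectedComponentIn (G.R \ G.creases) x)

/-- At the crease `e` the signed deviation from flat of the dihedral angle of `σ` is `t`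
(positive for a valley, negative for a mountain, `±π` for folded flat).

Let `D` be the unit direction in space of the image of the crease, `c` a point of the relative
interior of the crease, and let `L`, `M` be the images under `σ`, relative to `σ c`, of the points
`c + h n` and `c - h n` at the same small distance from `c` on the left and on the right of the
crease, perpendicularly to it.  Then `M` is obtained from `L` by turning it about `D` by the angle
`π - t`, that is `M = -cos t L + sin t (D × L)`. -/
def HasFoldAngle (σ : Plane → Space) (e : Fin G.nE) (t : ℝ) : Prop :=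
  ∀ c ∈ openSegment ℝ (G.vert (G.src e)) (G.vert (G.tgt e)), ∀ᶠ h in 𝓝[>] (0 : ℝ),
    σ (c - h • quarter (G.vert (G.tgt e) - G.vert (G.src e))) - σ c =
      -(Real.cos t) • (σ (c + h • quarter (G.vert (G.tgt e) - G.vert (G.src e))) - σ c) +
      Real.sin t • cross
        ((dist (G.vert (G.src e)) (G.vert (G.tgt e)))⁻¹ •
          (σ (G.vert (G.tgt e)) - σ (G.vert (G.src e))))
        (σ (c + h • quarter (G.vert (G.tgt e) - G.vert (G.src e))) - σ c)

/-- `σ` is a rigid origami with folding angles `ρ`. -/
structure IsRigidOrigami (ρ : Fin G.nE → ℝ) (σ : Plane → Space) : Prop where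
  continuousOn : ContinuousOn σ G.R
  /-- `σ` is an isometry on each face -/
  isometric : ∀ F, G.IsFace F → ∀ x ∈ F, ∀ y ∈ F, dist (σ x) (σ y) = dist x y
  /-- the folding angle at the crease `e` is `ρ e` -/
  foldAngle : ∀ e, G.HasFoldAngle σ e (ρ e)
  /-- `σ` is a uniform limit of injective continuous maps -/
  limit : ∀ ε > 0, ∃ τ : Plane → Space, ContinuousOn τ G.R ∧ Set.InjOn τ G.R ∧
    ∀ x ∈ G.R, dist (σ x) (τ x) < ε

/-- The configuration space: the set of the families of folding angles in `[-π, π]` which are
realised by a rigid origami. -/
def configSpace : Set (Fin G.nE → ℝ) :=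
  {ρ | (∀ e, ρ e ∈ Set.Icc (-Real.pi) Real.pi) ∧ ∃ σ, G.IsRigidOrigami ρ σ}

/-- `G` is rigid-foldable: there is a non-constant continuous path in the configuration space which
starts at the unfolded state. -/
def RigidFoldable : Prop :=
  ∃ γ : unitInterval → (Fin G.nE → ℝ), Continuous γ ∧ (∀ t, γ t ∈ G.configSpace) ∧ γ 0 = 0 ∧
    ∃ t, γ t ≠ 0

/-- `G` is two-vertex: exactly two of its vertices lie in the interior of the sheet, all others
lie on its boundary. -/
def TwoVertex : Prop :=
  {i | G.vert i ∈ interior G.R}.ncard = 2 ∧
    ∀ i, G.vert i ∉ interior G.R → G.vert i ∈ frontier G.R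

end CreasePattern

end Pool.Agent.W652.Origami
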