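import Pool.Agent.W652.OriPattern

/-!
# The faces of the crease pattern
-/

set_option autoImplicit false

namespace Pool.Agent.W652.Origami

open Set Filter
open scoped Topology

theorem mem_creases_of {e : Fin 7} {p : Plane} (h : p ∈ segment ℝ (vt (sr e)) (vt (tg e))) :
    p ∈ G0.creases := Set.mem_iUnion.2 ⟨e, h⟩

theorem plane_ext {p q : Plane} (h0 : p 0 = q 0) (h1 : p 1 = q 1) : p = q := by
  ext i
  fin_cases i
  · exact h0
  · exact h1

theorem crease_axis {p : Plane} (hp : p ∈ rect) (h : p 1 = 0) : p ∈ G0.creases := by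
  obtain ⟨⟨h1, h2⟩, h3, h4⟩ := hp
  rcases le_total (p 0) (-21) with h5 | h5
  · apply mem_creases_of (e := 3)
    refine ⟨1 - (-21 - p 0) / 29, (-21 - p 0) / 29, by linarith, by linarith, by ring, ?_⟩
    apply plane_ext
    · simp [vt, sr, tg]; ring
    · simp [vt, sr, tg, h]
  rcases le_total (p 0) 21 with h6 | h6
  · apply mem_creases_of (e := 0)
    refine ⟨1 - (p 0 + 21) / 42, (p 0 + 21) / 42, by linarith, by linarith, by ring, ?_⟩
    apply plane_ext
    · simp [vt, sr, tg]; ring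
    · simp [vt, sr, tg, h]
  · apply mem_creases_of (e := 6)
    refine ⟨1 - (p 0 - 21) / 29, (p 0 - 21) / 29, by linarith, by linarith, by ring, ?_⟩
    apply plane_ext
    · simp [vt, sr, tg]; ring
    · simp [vt, sr, tg, h]

theorem crease_a1 {p : Plane} (h3 : 0 ≤ p 1) (h4 : p 1 ≤ 12) (h : 12 * (p 0 + 21) = 5 * p 1) :
    p ∈ G0.creases := by
  apply mem_creases_of (e := 1)
  refine ⟨1 - p 1 / 12, p 1 / 12, by linarith, by linarith, by ring, ?_⟩
  apply plane_ext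
  · simp [vt, sr, tg]; linarith
  · simp [vt, sr, tg]

theorem crease_b1 {p : Plane} (h3 : p 1 ≤ 0) (h4 : -12 ≤ p 1) (h : p 0 = -21) :
    p ∈ G0.creases := by
  apply mem_creases_of (e := 2)
  refine ⟨1 - (-p 1 / 12), -p 1 / 12, by linarith, by linarith, by ring, ?_⟩
  apply plane_ext
  · simp [vt, sr, tg]; linarith
  · simp [vt, sr, tg]

theorem crease_a2 {p : Plane} (h3 : p 1 ≤ 0) (h4 : -12 ≤ p 1) (h : 12 * (p 0 - 21) = 5 * p 1) :
    p ∈ G0.creases := by
  apply mem_creases_of (e := 4)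
  refine ⟨1 - (-p 1 / 12), -p 1 / 12, by linarith, by linarith, by ring, ?_⟩
  apply plane_ext
  · simp [vt, sr, tg]; linarith
  · simp [vt, sr, tg]

theorem crease_b2 {p : Plane} (h3 : 0 ≤ p 1) (h4 : p 1 ≤ 12) (h : p 0 = 21) :
    p ∈ G0.creases := by
  apply mem_creases_of (e := 5)
  refine ⟨1 - p 1 / 12, p 1 / 12, by linarith, by linarith, by ring, ?_⟩
  apply plane_ext
  · simp [vt, sr, tg]; linarith
  · simp [vt, sr, tg]

/-- Every face lies in one of the six polygons. -/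
theorem face_subset {F : Set Plane} (hF : G0.IsFace F) : ∃ i, F ⊆ cpoly (pl i) := by
  obtain ⟨x, hx, rfl⟩ := hF
  set C := connectedComponentIn (G0.R \ G0.creases) x with hC
  have hCs : C ⊆ G0.R \ G0.creases := connectedComponentIn_subset _ _
  have hCp : IsPreconnected C := isPreconnected_connectedComponentIn
  have hR : ∀ p ∈ C, p ∈ rect := fun p hp => (hCs hp).1
  have hN : ∀ p ∈ C, p ∉ G0.creases := fun p hp => (hCs hp).2
  suffices h : ∃ i, C ⊆ cpoly (pl i) by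
    obtain ⟨i, hi⟩ := h
    exact ⟨i, closure_minimal hi (isClosed_cpoly _)⟩
  have c0 : Continuous fun p : Plane => p 1 := by fun_prop
  have c1 : Continuous fun p : Plane => 12 * (p 0 + 21) - 5 * p 1 := by fun_prop
  have c2 : Continuous fun p : Plane => p 0 - 21 := by fun_prop
  have c3 : Continuous fun p : Plane => p 0 + 21 := by fun_prop
  have c4 : Continuous fun p : Plane => 12 * (p 0 - 21) - 5 * p 1 := by fun_prop
  rcases sign_of_preconnected hCp c0 (fun p hp h => hN p hp (crease_axis (hR p hp) h)) with hs | hs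
  · -- below the axis
    rcases sign_of_preconnected hCp c3 (fun p hp h =>
      hN p hp (crease_b1 (hs p hp).le (hR p hp).2.1 (by linarith))) with h1 | h1
    · refine ⟨4, fun p hp => mem_BL.2 ⟨(hs p hp).le, (hR p hp).2.1, ?_, (hR p hp).1.1⟩⟩
      linarith [h1 p hp]
    · rcases sign_of_preconnected hCp c4 (fun p hp h =>
        hN p hp (crease_a2 (hs p hp).le (hR p hp).2.1 (by linarith))) with h2 | h2
      · refine ⟨3, fun p hp => mem_B.2 ⟨(hs p hp).le, (hR p hp).2.1, ?_, ?_⟩⟩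
        · linarith [h1 p hp]
        · linarith [h2 p hp]
      · refine ⟨5, fun p hp => mem_BR.2 ⟨(hs p hp).le, (hR p hp).2.1, ?_, (hR p hp).1.2⟩⟩
        linarith [h2 p hp]
  · -- above the axis
    rcases sign_of_preconnected hCp c2 (fun p hp h =>
      hN p hp (crease_b2 (hs p hp).le (hR p hp).2.2 (by linarith))) with h1 | h1
    · rcases sign_of_preconnected hCp c1 (fun p hp h =>
        hN p hp (crease_a1 (hs p hp).le (hR p hp).2.2 (by linarith))) with h2 | h2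
      · refine ⟨1, fun p hp => mem_TL.2 ⟨(hs p hp).le, (hR p hp).2.2, ?_, (hR p hp).1.1⟩⟩
        linarith [h2 p hp]
      · refine ⟨0, fun p hp => mem_T.2 ⟨(hs p hp).le, (hR p hp).2.2, ?_, ?_⟩⟩
        · linarith [h2 p hp]
        · linarith [h1 p hp]
    · refine ⟨2, fun p hp => mem_TR.2 ⟨(hs p hp).le, (hR p hp).2.2, ?_, (hR p hp).1.2⟩⟩
      linarith [h1 p hp]

/-- A point of a crease satisfies one of the five crease equations. -/
theorem eq_of_mem_creases {p : Plane} (hp : p ∈ G0.creases) :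
    p 1 = 0 ∨ (0 ≤ p 1 ∧ 12 * (p 0 + 21) = 5 * p 1) ∨ (p 1 ≤ 0 ∧ p 0 = -21) ∨
      (p 1 ≤ 0 ∧ 12 * (p 0 - 21) = 5 * p 1) ∨ (0 ≤ p 1 ∧ p 0 = 21) := by
  obtain ⟨e, a, b, ha, hb, hab, rfl⟩ := Set.mem_iUnion.1 hp
  have : a = 1 - b := by linarith
  subst this
  change Fin 7 at e
  fin_cases e
  · left; simp [G0, vt, sr, tg]
  · right; left; simp [G0, vt, sr, tg]; exact ⟨hb, by ring⟩
  · right; right; left; simp [G0, vt, sr, tg]; exact ⟨hb, by ring⟩
  · left; simp [G0, vt, sr, tg]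
  · right; right; right; left; simp [G0, vt, sr, tg]; exact ⟨hb, by ring⟩
  · right; right; right; right; simp [G0, vt, sr, tg]; exact ⟨hb, by ring⟩
  · left; simp [G0, vt, sr, tg]

/-- An open polygon which avoids the creases lies in a face, together with its closure. -/
theorem subset_face (l : List (ℝ × ℝ × ℝ)) (hne : (opoly l).Nonempty)
    (h1 : ∀ p ∈ opoly l, p ∈ rect) (h2 : ∀ p ∈ opoly l, p ∉ G0.creases) :
    ∃ F, G0.IsFace F ∧ cpoly l ⊆ F := by
  obtain ⟨q, hq⟩ := hne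
  refine ⟨_, ⟨q, ⟨h1 q hq, h2 q hq⟩, rfl⟩, ?_⟩
  refine (cpoly_subset_closure ⟨q, hq⟩).trans (closure_mono ?_)
  exact (convex_opoly l).isPreconnected.subset_connectedComponentIn hq
    fun p hp => ⟨h1 p hp, h2 p hp⟩

/-- Each of the six polygons lies in a face. -/
theorem poly_subset_face (i : Fin 6) : ∃ F, G0.IsFace F ∧ cpoly (pl i) ⊆ F := by
  have key : ∀ (l : List (ℝ × ℝ × ℝ)), (opoly l).Nonempty →
      (∀ p : Plane, (∀ h ∈ l, 0 < val h p) → p ∈ rect ∧ ¬ (p 1 = 0 ∨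
        (0 ≤ p 1 ∧ 12 * (p 0 + 21) = 5 * p 1) ∨ (p 1 ≤ 0 ∧ p 0 = -21) ∨
        (p 1 ≤ 0 ∧ 12 * (p 0 - 21) = 5 * p 1) ∨ (0 ≤ p 1 ∧ p 0 = 21))) →
      ∃ F, G0.IsFace F ∧ cpoly l ⊆ F := fun l hne h =>
    subset_face l hne (fun p hp => (h p hp).1) (fun p hp hc => (h p hp).2 (eq_of_mem_creases hc))
  fin_cases i
  · apply key [(0, 1, 0), (0, -1, 12), (12, -5, 252), (-1, 0, 21)]
    · refine ⟨!₂[0, 1], ?_⟩
      simp [opoly, val]; norm_num
    · intro p
      simp only [List.mem_cons, List.not_mem_nil, or_false, forall_eq_or_imp, forall_eq, val]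
      rintro ⟨k1, k2, k3, k4⟩
      refine ⟨⟨⟨?_, ?_⟩, ?_, ?_⟩, ?_⟩
      iterate 4 linarith
      rintro (h | ⟨-, h⟩ | ⟨h, -⟩ | ⟨h, -⟩ | ⟨-, h⟩) <;> linarith
  · apply key [(0, 1, 0), (0, -1, 12), (-12, 5, -252), (1, 0, 50)]
    · refine ⟨!₂[-30, 1], ?_⟩
      simp [opoly, val]; norm_num
    · intro p
      simp only [List.mem_cons, List.not_mem_nil, or_false, forall_eq_or_imp, forall_eq, val]
      rintro ⟨k1, k2, k3, k4⟩
      refine ⟨⟨⟨?_, ?_⟩, ?_, ?_⟩, ?_⟩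
      iterate 4 linarith
      rintro (h | ⟨-, h⟩ | ⟨h, -⟩ | ⟨h, -⟩ | ⟨-, h⟩) <;> linarith
  · apply key [(0, 1, 0), (0, -1, 12), (1, 0, -21), (-1, 0, 50)]
    · refine ⟨!₂[30, 1], ?_⟩
      simp [opoly, val]; norm_num
    · intro p
      simp only [List.mem_cons, List.not_mem_nil, or_false, forall_eq_or_imp, forall_eq, val]
      rintro ⟨k1, k2, k3, k4⟩
      refine ⟨⟨⟨?_, ?_⟩, ?_, ?_⟩, ?_⟩
      iterate 4 linarith
      rintro (h | ⟨-, h⟩ | ⟨h, -⟩ | ⟨h, -⟩ | ⟨-, h⟩) <;> linarith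
  · apply key [(0, -1, 0), (0, 1, 12), (1, 0, 21), (-12, 5, 252)]
    · refine ⟨!₂[0, -1], ?_⟩
      simp [opoly, val]; norm_num
    · intro p
      simp only [List.mem_cons, List.not_mem_nil, or_false, forall_eq_or_imp, forall_eq, val]
      rintro ⟨k1, k2, k3, k4⟩
      refine ⟨⟨⟨?_, ?_⟩, ?_, ?_⟩, ?_⟩
      iterate 4 linarith
      rintro (h | ⟨h, -⟩ | ⟨-, h⟩ | ⟨-, h⟩ | ⟨h, -⟩) <;> linarith
  · apply key [(0, -1, 0), (0, 1, 12), (-1, 0, -21), (1, 0, 50)]
    · refine ⟨!₂[-30, -1], ?_⟩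
      simp [opoly, val]; norm_num
    · intro p
      simp only [List.mem_cons, List.not_mem_nil, or_false, forall_eq_or_imp, forall_eq, val]
      rintro ⟨k1, k2, k3, k4⟩
      refine ⟨⟨⟨?_, ?_⟩, ?_, ?_⟩, ?_⟩
      iterate 4 linarith
      rintro (h | ⟨h, -⟩ | ⟨-, h⟩ | ⟨-, h⟩ | ⟨h, -⟩) <;> linarith
  · apply key [(0, -1, 0), (0, 1, 12), (12, -5, -252), (-1, 0, 50)]
    · refine ⟨!₂[30, -1], ?_⟩
      simp [opoly, val]; norm_num
    · intro p
      simp only [List.mem_cons, List.not_mem_nil, or_false, forall_eq_or_imp, forall_eq, val]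
      rintro ⟨k1, k2, k3, k4⟩
      refine ⟨⟨⟨?_, ?_⟩, ?_, ?_⟩, ?_⟩
      iterate 4 linarith
      rintro (h | ⟨h, -⟩ | ⟨-, h⟩ | ⟨-, h⟩ | ⟨h, -⟩) <;> linarith

end Pool.Agent.W652.Origami
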