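import Pool.Agent.W652.OriSides

/-!
# A family of folded states
-/

set_option autoImplicit false

namespace Pool.Agent.W652.Origami

open Set Filter
open scoped Topology

/-- The signed distance function which is positive on the left arm. -/
noncomputable def uu (p : Plane) : ℝ := max (5 / 12 * max (p 1) 0 - (p 0 + 21)) 0

/-- The function which is positive on the right arm. -/
noncomputable def vv (p : Plane) : ℝ := max (5 / 12 * max (-(p 1)) 0 + (p 0 - 21)) 0

/-- The folded state with parameters `c`, `s` (cosine and sine of half the folding angle of the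
middle crease) and bending vector `(a, b, d)`. -/
noncomputable def sig (c s a b d : ℝ) (p : Plane) : Space :=
  !₂[p 0 + (uu p - vv p) * a, c * p 1 + (uu p - vv p) * b, s * |p 1| + (uu p + vv p) * d]

theorem continuous_sig (c s a b d : ℝ) : Continuous (sig c s a b d) := by
  have h1 : Continuous uu := by unfold uu; fun_prop
  have h2 : Continuous vv := by unfold vv; fun_prop
  unfold sig
  fun_prop

section formulas

variable {c s a b d : ℝ} {p : Plane}

theorem sig_T (hp : p ∈ cpoly (pl 0)) : sig c s a b d p = !₂[p 0, c * p 1, s * p 1] := by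
  obtain ⟨h1, h2, h3, h4⟩ := mem_T.1 hp
  have e1 : uu p = 0 := by
    unfold uu; rw [max_eq_left h1]; exact max_eq_right (by linarith)
  have e2 : vv p = 0 := by
    unfold vv; rw [max_eq_right (by linarith : -(p 1) ≤ 0)]; exact max_eq_right (by linarith)
  simp only [sig, e1, e2, abs_of_nonneg h1]
  congr 1
  ext i; fin_cases i <;> simp

theorem sig_TL (hp : p ∈ cpoly (pl 1)) : sig c s a b d p =
    !₂[p 0 + (5 / 12 * p 1 - (p 0 + 21)) * a, c * p 1 + (5 / 12 * p 1 - (p 0 + 21)) * b,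
      s * p 1 + (5 / 12 * p 1 - (p 0 + 21)) * d] := by
  obtain ⟨h1, h2, h3, h4⟩ := mem_TL.1 hp
  have e1 : uu p = 5 / 12 * p 1 - (p 0 + 21) := by
    unfold uu; rw [max_eq_left h1]; exact max_eq_left (by linarith)
  have e2 : vv p = 0 := by
    unfold vv; rw [max_eq_right (by linarith : -(p 1) ≤ 0)]; exact max_eq_right (by linarith)
  simp only [sig, e1, e2, abs_of_nonneg h1]
  congr 1
  ext i; fin_cases i <;> simp

theorem sig_TR (hp : p ∈ cpoly (pl 2)) : sig c s a b d p =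
    !₂[p 0 - (p 0 - 21) * a, c * p 1 - (p 0 - 21) * b, s * p 1 + (p 0 - 21) * d] := by
  obtain ⟨h1, h2, h3, h4⟩ := mem_TR.1 hp
  have e1 : uu p = 0 := by
    unfold uu; rw [max_eq_left h1]; exact max_eq_right (by linarith)
  have e2 : vv p = p 0 - 21 := by
    unfold vv; rw [max_eq_right (by linarith : -(p 1) ≤ 0)]
    rw [mul_zero, zero_add]; exact max_eq_left (by linarith)
  simp only [sig, e1, e2, abs_of_nonneg h1]
  congr 1
  ext i; fin_cases i <;> simp <;> ring

theorem sig_B (hp : p ∈ cpoly (pl 3)) : sig c s a b d p = !₂[p 0, c * p 1, -(s * p 1)] := by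
  obtain ⟨h1, h2, h3, h4⟩ := mem_B.1 hp
  have e1 : uu p = 0 := by
    unfold uu; rw [max_eq_right h1]; exact max_eq_right (by linarith)
  have e2 : vv p = 0 := by
    unfold vv; rw [max_eq_left (by linarith : 0 ≤ -(p 1))]; exact max_eq_right (by linarith)
  simp only [sig, e1, e2, abs_of_nonpos h1]
  congr 1
  ext i; fin_cases i <;> simp

theorem sig_BL (hp : p ∈ cpoly (pl 4)) : sig c s a b d p =
    !₂[p 0 - (p 0 + 21) * a, c * p 1 - (p 0 + 21) * b, -(s * p 1) - (p 0 + 21) * d] := by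
  obtain ⟨h1, h2, h3, h4⟩ := mem_BL.1 hp
  have e1 : uu p = -(p 0 + 21) := by
    unfold uu; rw [max_eq_right h1, mul_zero, zero_sub]; exact max_eq_left (by linarith)
  have e2 : vv p = 0 := by
    unfold vv; rw [max_eq_left (by linarith : 0 ≤ -(p 1))]; exact max_eq_right (by linarith)
  simp only [sig, e1, e2, abs_of_nonpos h1]
  congr 1
  ext i; fin_cases i <;> simp <;> ring

theorem sig_BR (hp : p ∈ cpoly (pl 5)) : sig c s a b d p =
    !₂[p 0 - (p 0 - 21 - 5 / 12 * p 1) * a, c * p 1 - (p 0 - 21 - 5 / 12 * p 1) * b,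
      -(s * p 1) + (p 0 - 21 - 5 / 12 * p 1) * d] := by
  obtain ⟨h1, h2, h3, h4⟩ := mem_BR.1 hp
  have e1 : uu p = 0 := by
    unfold uu; rw [max_eq_right h1]; exact max_eq_right (by linarith)
  have e2 : vv p = p 0 - 21 - 5 / 12 * p 1 := by
    unfold vv; rw [max_eq_left (by linarith : 0 ≤ -(p 1)),
      max_eq_left (by linarith : 0 ≤ 5 / 12 * -(p 1) + (p 0 - 21))]; ring
  simp only [sig, e1, e2, abs_of_nonpos h1]
  congr 1
  ext i; fin_cases i <;> simp <;> ring

end formulas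

theorem dist_eq_of_sq {p q : Plane} {P Q : Space}
    (h : (P 0 - Q 0) ^ 2 + (P 1 - Q 1) ^ 2 + (P 2 - Q 2) ^ 2 =
      (p 0 - q 0) ^ 2 + (p 1 - q 1) ^ 2) : dist P Q = dist p q := by
  rw [EuclideanSpace.dist_eq, EuclideanSpace.dist_eq, Fin.sum_univ_three, Fin.sum_univ_two]
  simp only [Real.dist_eq, sq_abs]
  rw [h]

/-- The folded state is isometric on each of the six polygons. -/
theorem sig_isometric {c s a b d : ℝ} (h1 : c ^ 2 + s ^ 2 = 1)
    (h2 : a ^ 2 + b ^ 2 + d ^ 2 = 2 * a) (h3 : c * b = -(5 / 24) * a) (h4 : s * d = -(5 / 24) * a)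
    (i : Fin 6) {p q : Plane} (hp : p ∈ cpoly (pl i)) (hq : q ∈ cpoly (pl i)) :
    dist (sig c s a b d p) (sig c s a b d q) = dist p q := by
  apply dist_eq_of_sq
  fin_cases i
  · rw [sig_T hp, sig_T hq]
    simp
    linear_combination (p 1 - q 1) ^ 2 * h1
  · rw [sig_TL hp, sig_TL hq]
    simp
    linear_combination (p 1 - q 1) ^ 2 * h1 +
      ((5 / 12 * (p 1 - q 1) - (p 0 - q 0))) ^ 2 * h2 +
      2 * (5 / 12 * (p 1 - q 1) - (p 0 - q 0)) * (p 1 - q 1) * (h3 + h4)
  · rw [sig_TR hp, sig_TR hq]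
    simp
    linear_combination (p 1 - q 1) ^ 2 * h1 + (p 0 - q 0) ^ 2 * h2 -
      2 * (p 0 - q 0) * (p 1 - q 1) * (h3 - h4)
  · rw [sig_B hp, sig_B hq]
    simp
    linear_combination (p 1 - q 1) ^ 2 * h1
  · rw [sig_BL hp, sig_BL hq]
    simp
    linear_combination (p 1 - q 1) ^ 2 * h1 + (p 0 - q 0) ^ 2 * h2 -
      2 * (p 0 - q 0) * (p 1 - q 1) * (h3 - h4)
  · rw [sig_BR hp, sig_BR hq]
    simp
    linear_combination (p 1 - q 1) ^ 2 * h1 + (p 0 - q 0 - 5 / 12 * (p 1 - q 1)) ^ 2 * h2 -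
      2 * (p 0 - q 0 - 5 / 12 * (p 1 - q 1)) * (p 1 - q 1) * (h3 + h4)

/-- The main part of the verification that a folded state has the right folding angles. -/
theorem hasFoldAngle_of (σ : Plane → Space) (e : Fin 7) (t : ℝ) (L M D : Space)
    (hD : (dist (vt (sr e)) (vt (tg e)))⁻¹ • (σ (vt (tg e)) - σ (vt (sr e))) = D)
    (hL : ∀ (c : Plane) (h : ℝ), c ∈ cpoly (pl (lft e)) → c + h • nml e ∈ cpoly (pl (lft e)) →
      σ (c + h • nml e) - σ c = h • L)
    (hM : ∀ (c : Plane) (h : ℝ), c ∈ cpoly (pl (rgt e)) → c - h • nml e ∈ cpoly (pl (rgt e)) →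
      σ (c - h • nml e) - σ c = h • M)
    (hE : M = -(Real.cos t) • L + Real.sin t • cross D L) : G0.HasFoldAngle σ e t := by
  intro c hc
  obtain ⟨⟨h1, h2⟩, h3⟩ := sides e hc
  filter_upwards [h3] with h hh
  have e1 := hL c h h1 hh.1
  have e2 := hM c h h2 hh.2
  have e3 : cross D (h • L) = h • cross D L := by
    ext i
    fin_cases i <;> simp [cross] <;> ring
  change σ (c - h • nml e) - σ c = -(Real.cos t) • (σ (c + h • nml e) - σ c) +
    Real.sin t • cross ((dist (vt (sr e)) (vt (tg e)))⁻¹ • (σ (vt (tg e)) - σ (vt (sr e))))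
      (σ (c + h • nml e) - σ c)
  rw [e1, e2, hD, e3, hE]
  module

/-- The images of the left normals of the creases. -/
noncomputable def Lv (c s a b d : ℝ) : Fin 7 → Space :=
  ![!₂[0, 42 * c, 42 * s],
    !₂[-12 + 169 / 12 * a, 5 * c + 169 / 12 * b, 5 * s + 169 / 12 * d],
    !₂[12, 0, 0],
    !₂[0, -29 * c, 29 * s],
    !₂[12 - 169 / 12 * a, -5 * c - 169 / 12 * b, 5 * s + 169 / 12 * d],
    !₂[-12, 0, 0],
    !₂[0, 29 * c, 29 * s]]

/-- The images of the right normals of the creases. -/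
noncomputable def Mv (c s a b d : ℝ) : Fin 7 → Space :=
  ![!₂[0, -42 * c, 42 * s],
    !₂[12, -5 * c, -5 * s],
    !₂[-12 + 12 * a, 12 * b, 12 * d],
    !₂[145 / 12 * a, 29 * c + 145 / 12 * b, 29 * s + 145 / 12 * d],
    !₂[-12, 5 * c, -5 * s],
    !₂[12 - 12 * a, -12 * b, 12 * d],
    !₂[-145 / 12 * a, -29 * c - 145 / 12 * b, 29 * s + 145 / 12 * d]]

/-- The unit directions of the images of the creases. -/
noncomputable def Dv (c s a b d : ℝ) : Fin 7 → Space :=
  ![!₂[1, 0, 0],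
    !₂[5 / 13, 12 / 13 * c, 12 / 13 * s],
    !₂[0, -c, s],
    !₂[-1 + a, b, d],
    !₂[-5 / 13, -12 / 13 * c, 12 / 13 * s],
    !₂[0, c, s],
    !₂[1 - a, -b, d]]

/-- The lengths of the creases. -/
def len : Fin 7 → ℝ := ![42, 13, 12, 29, 13, 12, 29]

theorem dist_vt (e : Fin 7) : dist (vt (sr e)) (vt (tg e)) = len e := by
  rw [EuclideanSpace.dist_eq, Fin.sum_univ_two, Real.sqrt_eq_iff_mul_self_eq_of_pos]
  · fin_cases e <;> simp [vt, sr, tg, len, Real.dist_eq] <;> norm_num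
  · fin_cases e <;> simp [len]

theorem vt_mem_poly (e : Fin 7) : vt (sr e) ∈ cpoly (pl (lft e)) ∧ vt (tg e) ∈ cpoly (pl (lft e)) := by
  fin_cases e
  · refine ⟨mem_T.2 ⟨?_, ?_, ?_, ?_⟩, mem_T.2 ⟨?_, ?_, ?_, ?_⟩⟩ <;> first
      | (simp [vt, sr, tg]; done)
      | (simp [vt, sr, tg]; norm_num)
  · refine ⟨mem_TL.2 ⟨?_, ?_, ?_, ?_⟩, mem_TL.2 ⟨?_, ?_, ?_, ?_⟩⟩ <;> first
      | (simp [vt, sr, tg]; done)
      | (simp [vt, sr, tg]; norm_num)
  · refine ⟨mem_B.2 ⟨?_, ?_, ?_, ?_⟩, mem_B.2 ⟨?_, ?_, ?_, ?_⟩⟩ <;> first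
      | (simp [vt, sr, tg]; done)
      | (simp [vt, sr, tg]; norm_num)
  · refine ⟨mem_BL.2 ⟨?_, ?_, ?_, ?_⟩, mem_BL.2 ⟨?_, ?_, ?_, ?_⟩⟩ <;> first
      | (simp [vt, sr, tg]; done)
      | (simp [vt, sr, tg]; norm_num)
  · refine ⟨mem_BR.2 ⟨?_, ?_, ?_, ?_⟩, mem_BR.2 ⟨?_, ?_, ?_, ?_⟩⟩ <;> first
      | (simp [vt, sr, tg]; done)
      | (simp [vt, sr, tg]; norm_num)
  · refine ⟨mem_T.2 ⟨?_, ?_, ?_, ?_⟩, mem_T.2 ⟨?_, ?_, ?_, ?_⟩⟩ <;> first
      | (simp [vt, sr, tg]; done)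
      | (simp [vt, sr, tg]; norm_num)
  · refine ⟨mem_TR.2 ⟨?_, ?_, ?_, ?_⟩, mem_TR.2 ⟨?_, ?_, ?_, ?_⟩⟩ <;> first
      | (simp [vt, sr, tg]; done)
      | (simp [vt, sr, tg]; norm_num)

theorem space_ext {P Q : Space} (h0 : P 0 = Q 0) (h1 : P 1 = Q 1) (h2 : P 2 = Q 2) : P = Q := by
  ext i
  fin_cases i
  · exact h0
  · exact h1
  · exact h2

theorem sig_hasFoldAngle {c s a b d : ℝ} (e : Fin 7) (t : ℝ)
    (hE : Mv c s a b d e =
      -(Real.cos t) • Lv c s a b d e + Real.sin t • cross (Dv c s a b d e) (Lv c s a b d e)) :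
    G0.HasFoldAngle (sig c s a b d) e t := by
  refine hasFoldAngle_of _ e t (Lv c s a b d e) (Mv c s a b d e) (Dv c s a b d e) ?_ ?_ ?_ hE
  · rw [dist_vt]
    obtain ⟨h1, h2⟩ := vt_mem_poly e
    fin_cases e
    · rw [sig_T h1, sig_T h2]
      apply space_ext <;> simp [vt, sr, tg, len, Dv] <;> ring
    · rw [sig_TL h1, sig_TL h2]
      apply space_ext <;> simp [vt, sr, tg, len, Dv] <;> ring
    · rw [sig_B h1, sig_B h2]
      apply space_ext <;> simp [vt, sr, tg, len, Dv] <;> ring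
    · rw [sig_BL h1, sig_BL h2]
      apply space_ext <;> simp [vt, sr, tg, len, Dv] <;> ring
    · rw [sig_BR h1, sig_BR h2]
      apply space_ext <;> simp [vt, sr, tg, len, Dv] <;> ring
    · rw [sig_T h1, sig_T h2]
      apply space_ext <;> simp [vt, sr, tg, len, Dv] <;> ring
    · rw [sig_TR h1, sig_TR h2]
      apply space_ext <;> simp [vt, sr, tg, len, Dv] <;> ring
  · intro p h h1 h2
    fin_cases e
    · rw [sig_T h1, sig_T h2]
      apply space_ext <;> simp [vt, sr, tg, nml, quarter, Lv] <;> ring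
    · rw [sig_TL h1, sig_TL h2]
      apply space_ext <;> simp [vt, sr, tg, nml, quarter, Lv] <;> ring
    · rw [sig_B h1, sig_B h2]
      apply space_ext <;> simp [vt, sr, tg, nml, quarter, Lv] <;> ring
    · rw [sig_BL h1, sig_BL h2]
      apply space_ext <;> simp [vt, sr, tg, nml, quarter, Lv] <;> ring
    · rw [sig_BR h1, sig_BR h2]
      apply space_ext <;> simp [vt, sr, tg, nml, quarter, Lv] <;> ring
    · rw [sig_T h1, sig_T h2]
      apply space_ext <;> simp [vt, sr, tg, nml, quarter, Lv] <;> ring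
    · rw [sig_TR h1, sig_TR h2]
      apply space_ext <;> simp [vt, sr, tg, nml, quarter, Lv] <;> ring
  · intro p h h1 h2
    fin_cases e
    · rw [sig_B h1, sig_B h2]
      apply space_ext <;> simp [vt, sr, tg, nml, quarter, Mv] <;> ring
    · rw [sig_T h1, sig_T h2]
      apply space_ext <;> simp [vt, sr, tg, nml, quarter, Mv] <;> ring
    · rw [sig_BL h1, sig_BL h2]
      apply space_ext <;> simp [vt, sr, tg, nml, quarter, Mv] <;> ring
    · rw [sig_TL h1, sig_TL h2]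
      apply space_ext <;> simp [vt, sr, tg, nml, quarter, Mv] <;> ring
    · rw [sig_B h1, sig_B h2]
      apply space_ext <;> simp [vt, sr, tg, nml, quarter, Mv] <;> ring
    · rw [sig_TR h1, sig_TR h2]
      apply space_ext <;> simp [vt, sr, tg, nml, quarter, Mv] <;> ring
    · rw [sig_BR h1, sig_BR h2]
      apply space_ext <;> simp [vt, sr, tg, nml, quarter, Mv] <;> ring

end Pool.Agent.W652.Origami
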