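import Pool.Agent.W652.OriFold

/-!
# The flexible folded state in the isolated part: injectivity
-/

set_option autoImplicit false

namespace Pool.Agent.W652.Origami

open Set Filter
open scoped Topology

theorem rect_cover {p : Plane} (hp : p ∈ rect) :
    (p ∈ cpoly (pl 0) ∨ p ∈ cpoly (pl 1) ∨ p ∈ cpoly (pl 2)) ∨
      (p ∈ cpoly (pl 3) ∨ p ∈ cpoly (pl 4) ∨ p ∈ cpoly (pl 5)) := by
  obtain ⟨⟨h1, h2⟩, h3, h4⟩ := hp
  rcases le_total 0 (p 1) with h | h
  · left
    rcases le_total (p 0) 21 with h5 | h5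
    · rcases le_total (5 * p 1) (12 * (p 0 + 21)) with h6 | h6
      · exact Or.inl (mem_T.2 ⟨h, h4, h6, h5⟩)
      · exact Or.inr (Or.inl (mem_TL.2 ⟨h, h4, h6, h1⟩))
    · exact Or.inr (Or.inr (mem_TR.2 ⟨h, h4, h5, h2⟩))
  · right
    rcases le_total (p 0) (-21) with h5 | h5
    · exact Or.inr (Or.inl (mem_BL.2 ⟨h, h3, h5, h1⟩))
    · rcases le_total (5 * p 1) (12 * (p 0 - 21)) with h6 | h6
      · exact Or.inr (Or.inr (mem_BR.2 ⟨h, h3, h6, h2⟩))
      · exact Or.inl (mem_B.2 ⟨h, h3, h5, h6⟩)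

/-- The folded state. -/
noncomputable def lock : Plane → Space :=
  sig (4 / 5) (3 / 5) (165888 / 98569) (-43200 / 98569) (-57600 / 98569)

theorem lock_T_T {p q : Plane} (hp : p ∈ cpoly (pl 0)) (hq : q ∈ cpoly (pl 0))
    (h : lock p = lock q) : p = q := by
  unfold lock at h
  rw [sig_T hp, sig_T hq] at h
  obtain ⟨p1, p2, p3, p4⟩ := mem_T.1 hp
  obtain ⟨q1, q2, q3, q4⟩ := mem_T.1 hq
  have h0 := congrArg (fun P : Space => P 0) h
  have h1 := congrArg (fun P : Space => P 1) h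
  have h2 := congrArg (fun P : Space => P 2) h
  simp at h0 h1 h2
  apply plane_ext <;> linarith

theorem lock_T_TL {p q : Plane} (hp : p ∈ cpoly (pl 0)) (hq : q ∈ cpoly (pl 1))
    (h : lock p = lock q) : p = q := by
  unfold lock at h
  rw [sig_T hp, sig_TL hq] at h
  obtain ⟨p1, p2, p3, p4⟩ := mem_T.1 hp
  obtain ⟨q1, q2, q3, q4⟩ := mem_TL.1 hq
  have h0 := congrArg (fun P : Space => P 0) h
  have h1 := congrArg (fun P : Space => P 1) h
  have h2 := congrArg (fun P : Space => P 2) h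
  simp at h0 h1 h2
  apply plane_ext <;> linarith

theorem lock_T_TR {p q : Plane} (hp : p ∈ cpoly (pl 0)) (hq : q ∈ cpoly (pl 2))
    (h : lock p = lock q) : p = q := by
  unfold lock at h
  rw [sig_T hp, sig_TR hq] at h
  obtain ⟨p1, p2, p3, p4⟩ := mem_T.1 hp
  obtain ⟨q1, q2, q3, q4⟩ := mem_TR.1 hq
  have h0 := congrArg (fun P : Space => P 0) h
  have h1 := congrArg (fun P : Space => P 1) h
  have h2 := congrArg (fun P : Space => P 2) h
  simp at h0 h1 h2
  apply plane_ext <;> linarith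

theorem lock_T_B {p q : Plane} (hp : p ∈ cpoly (pl 0)) (hq : q ∈ cpoly (pl 3))
    (h : lock p = lock q) : p = q := by
  unfold lock at h
  rw [sig_T hp, sig_B hq] at h
  obtain ⟨p1, p2, p3, p4⟩ := mem_T.1 hp
  obtain ⟨q1, q2, q3, q4⟩ := mem_B.1 hq
  have h0 := congrArg (fun P : Space => P 0) h
  have h1 := congrArg (fun P : Space => P 1) h
  have h2 := congrArg (fun P : Space => P 2) h
  simp at h0 h1 h2
  apply plane_ext <;> linarith

theorem lock_T_BL {p q : Plane} (hp : p ∈ cpoly (pl 0)) (hq : q ∈ cpoly (pl 4))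
    (h : lock p = lock q) : p = q := by
  unfold lock at h
  rw [sig_T hp, sig_BL hq] at h
  obtain ⟨p1, p2, p3, p4⟩ := mem_T.1 hp
  obtain ⟨q1, q2, q3, q4⟩ := mem_BL.1 hq
  have h0 := congrArg (fun P : Space => P 0) h
  have h1 := congrArg (fun P : Space => P 1) h
  have h2 := congrArg (fun P : Space => P 2) h
  simp at h0 h1 h2
  apply plane_ext <;> linarith

theorem lock_T_BR {p q : Plane} (hp : p ∈ cpoly (pl 0)) (hq : q ∈ cpoly (pl 5))
    (h : lock p = lock q) : p = q := by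
  unfold lock at h
  rw [sig_T hp, sig_BR hq] at h
  obtain ⟨p1, p2, p3, p4⟩ := mem_T.1 hp
  obtain ⟨q1, q2, q3, q4⟩ := mem_BR.1 hq
  have h0 := congrArg (fun P : Space => P 0) h
  have h1 := congrArg (fun P : Space => P 1) h
  have h2 := congrArg (fun P : Space => P 2) h
  simp at h0 h1 h2
  apply plane_ext <;> linarith

theorem lock_TL_TL {p q : Plane} (hp : p ∈ cpoly (pl 1)) (hq : q ∈ cpoly (pl 1))
    (h : lock p = lock q) : p = q := by
  unfold lock at h
  rw [sig_TL hp, sig_TL hq] at h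
  obtain ⟨p1, p2, p3, p4⟩ := mem_TL.1 hp
  obtain ⟨q1, q2, q3, q4⟩ := mem_TL.1 hq
  have h0 := congrArg (fun P : Space => P 0) h
  have h1 := congrArg (fun P : Space => P 1) h
  have h2 := congrArg (fun P : Space => P 2) h
  simp at h0 h1 h2
  apply plane_ext <;> linarith

theorem lock_TL_TR {p q : Plane} (hp : p ∈ cpoly (pl 1)) (hq : q ∈ cpoly (pl 2))
    (h : lock p = lock q) : p = q := by
  unfold lock at h
  rw [sig_TL hp, sig_TR hq] at h
  obtain ⟨p1, p2, p3, p4⟩ := mem_TL.1 hp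
  obtain ⟨q1, q2, q3, q4⟩ := mem_TR.1 hq
  have h0 := congrArg (fun P : Space => P 0) h
  have h1 := congrArg (fun P : Space => P 1) h
  have h2 := congrArg (fun P : Space => P 2) h
  simp at h0 h1 h2
  apply plane_ext <;> linarith

theorem lock_TL_B {p q : Plane} (hp : p ∈ cpoly (pl 1)) (hq : q ∈ cpoly (pl 3))
    (h : lock p = lock q) : p = q := by
  unfold lock at h
  rw [sig_TL hp, sig_B hq] at h
  obtain ⟨p1, p2, p3, p4⟩ := mem_TL.1 hp
  obtain ⟨q1, q2, q3, q4⟩ := mem_B.1 hq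
  have h0 := congrArg (fun P : Space => P 0) h
  have h1 := congrArg (fun P : Space => P 1) h
  have h2 := congrArg (fun P : Space => P 2) h
  simp at h0 h1 h2
  apply plane_ext <;> linarith

theorem lock_TL_BL {p q : Plane} (hp : p ∈ cpoly (pl 1)) (hq : q ∈ cpoly (pl 4))
    (h : lock p = lock q) : p = q := by
  unfold lock at h
  rw [sig_TL hp, sig_BL hq] at h
  obtain ⟨p1, p2, p3, p4⟩ := mem_TL.1 hp
  obtain ⟨q1, q2, q3, q4⟩ := mem_BL.1 hq
  have h0 := congrArg (fun P : Space => P 0) h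
  have h1 := congrArg (fun P : Space => P 1) h
  have h2 := congrArg (fun P : Space => P 2) h
  simp at h0 h1 h2
  apply plane_ext <;> linarith

theorem lock_TL_BR {p q : Plane} (hp : p ∈ cpoly (pl 1)) (hq : q ∈ cpoly (pl 5))
    (h : lock p = lock q) : p = q := by
  unfold lock at h
  rw [sig_TL hp, sig_BR hq] at h
  obtain ⟨p1, p2, p3, p4⟩ := mem_TL.1 hp
  obtain ⟨q1, q2, q3, q4⟩ := mem_BR.1 hq
  have h0 := congrArg (fun P : Space => P 0) h
  have h1 := congrArg (fun P : Space => P 1) h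
  have h2 := congrArg (fun P : Space => P 2) h
  simp at h0 h1 h2
  apply plane_ext <;> linarith

theorem lock_TR_TR {p q : Plane} (hp : p ∈ cpoly (pl 2)) (hq : q ∈ cpoly (pl 2))
    (h : lock p = lock q) : p = q := by
  unfold lock at h
  rw [sig_TR hp, sig_TR hq] at h
  obtain ⟨p1, p2, p3, p4⟩ := mem_TR.1 hp
  obtain ⟨q1, q2, q3, q4⟩ := mem_TR.1 hq
  have h0 := congrArg (fun P : Space => P 0) h
  have h1 := congrArg (fun P : Space => P 1) h
  have h2 := congrArg (fun P : Space => P 2) h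
  simp at h0 h1 h2
  apply plane_ext <;> linarith

theorem lock_TR_B {p q : Plane} (hp : p ∈ cpoly (pl 2)) (hq : q ∈ cpoly (pl 3))
    (h : lock p = lock q) : p = q := by
  unfold lock at h
  rw [sig_TR hp, sig_B hq] at h
  obtain ⟨p1, p2, p3, p4⟩ := mem_TR.1 hp
  obtain ⟨q1, q2, q3, q4⟩ := mem_B.1 hq
  have h0 := congrArg (fun P : Space => P 0) h
  have h1 := congrArg (fun P : Space => P 1) h
  have h2 := congrArg (fun P : Space => P 2) h
  simp at h0 h1 h2
  apply plane_ext <;> linarith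

theorem lock_TR_BL {p q : Plane} (hp : p ∈ cpoly (pl 2)) (hq : q ∈ cpoly (pl 4))
    (h : lock p = lock q) : p = q := by
  unfold lock at h
  rw [sig_TR hp, sig_BL hq] at h
  obtain ⟨p1, p2, p3, p4⟩ := mem_TR.1 hp
  obtain ⟨q1, q2, q3, q4⟩ := mem_BL.1 hq
  have h0 := congrArg (fun P : Space => P 0) h
  have h1 := congrArg (fun P : Space => P 1) h
  have h2 := congrArg (fun P : Space => P 2) h
  simp at h0 h1 h2
  apply plane_ext <;> linarith

theorem lock_TR_BR {p q : Plane} (hp : p ∈ cpoly (pl 2)) (hq : q ∈ cpoly (pl 5))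
    (h : lock p = lock q) : p = q := by
  unfold lock at h
  rw [sig_TR hp, sig_BR hq] at h
  obtain ⟨p1, p2, p3, p4⟩ := mem_TR.1 hp
  obtain ⟨q1, q2, q3, q4⟩ := mem_BR.1 hq
  have h0 := congrArg (fun P : Space => P 0) h
  have h1 := congrArg (fun P : Space => P 1) h
  have h2 := congrArg (fun P : Space => P 2) h
  simp at h0 h1 h2
  apply plane_ext <;> linarith

theorem lock_B_B {p q : Plane} (hp : p ∈ cpoly (pl 3)) (hq : q ∈ cpoly (pl 3))
    (h : lock p = lock q) : p = q := by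
  unfold lock at h
  rw [sig_B hp, sig_B hq] at h
  obtain ⟨p1, p2, p3, p4⟩ := mem_B.1 hp
  obtain ⟨q1, q2, q3, q4⟩ := mem_B.1 hq
  have h0 := congrArg (fun P : Space => P 0) h
  have h1 := congrArg (fun P : Space => P 1) h
  have h2 := congrArg (fun P : Space => P 2) h
  simp at h0 h1 h2
  apply plane_ext <;> linarith

theorem lock_B_BL {p q : Plane} (hp : p ∈ cpoly (pl 3)) (hq : q ∈ cpoly (pl 4))
    (h : lock p = lock q) : p = q := by
  unfold lock at h
  rw [sig_B hp, sig_BL hq] at h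
  obtain ⟨p1, p2, p3, p4⟩ := mem_B.1 hp
  obtain ⟨q1, q2, q3, q4⟩ := mem_BL.1 hq
  have h0 := congrArg (fun P : Space => P 0) h
  have h1 := congrArg (fun P : Space => P 1) h
  have h2 := congrArg (fun P : Space => P 2) h
  simp at h0 h1 h2
  apply plane_ext <;> linarith

theorem lock_B_BR {p q : Plane} (hp : p ∈ cpoly (pl 3)) (hq : q ∈ cpoly (pl 5))
    (h : lock p = lock q) : p = q := by
  unfold lock at h
  rw [sig_B hp, sig_BR hq] at h
  obtain ⟨p1, p2, p3, p4⟩ := mem_B.1 hp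
  obtain ⟨q1, q2, q3, q4⟩ := mem_BR.1 hq
  have h0 := congrArg (fun P : Space => P 0) h
  have h1 := congrArg (fun P : Space => P 1) h
  have h2 := congrArg (fun P : Space => P 2) h
  simp at h0 h1 h2
  apply plane_ext <;> linarith

theorem lock_BL_BL {p q : Plane} (hp : p ∈ cpoly (pl 4)) (hq : q ∈ cpoly (pl 4))
    (h : lock p = lock q) : p = q := by
  unfold lock at h
  rw [sig_BL hp, sig_BL hq] at h
  obtain ⟨p1, p2, p3, p4⟩ := mem_BL.1 hp
  obtain ⟨q1, q2, q3, q4⟩ := mem_BL.1 hq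
  have h0 := congrArg (fun P : Space => P 0) h
  have h1 := congrArg (fun P : Space => P 1) h
  have h2 := congrArg (fun P : Space => P 2) h
  simp at h0 h1 h2
  apply plane_ext <;> linarith

theorem lock_BL_BR {p q : Plane} (hp : p ∈ cpoly (pl 4)) (hq : q ∈ cpoly (pl 5))
    (h : lock p = lock q) : p = q := by
  unfold lock at h
  rw [sig_BL hp, sig_BR hq] at h
  obtain ⟨p1, p2, p3, p4⟩ := mem_BL.1 hp
  obtain ⟨q1, q2, q3, q4⟩ := mem_BR.1 hq
  have h0 := congrArg (fun P : Space => P 0) h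
  have h1 := congrArg (fun P : Space => P 1) h
  have h2 := congrArg (fun P : Space => P 2) h
  simp at h0 h1 h2
  apply plane_ext <;> linarith

theorem lock_BR_BR {p q : Plane} (hp : p ∈ cpoly (pl 5)) (hq : q ∈ cpoly (pl 5))
    (h : lock p = lock q) : p = q := by
  unfold lock at h
  rw [sig_BR hp, sig_BR hq] at h
  obtain ⟨p1, p2, p3, p4⟩ := mem_BR.1 hp
  obtain ⟨q1, q2, q3, q4⟩ := mem_BR.1 hq
  have h0 := congrArg (fun P : Space => P 0) h
  have h1 := congrArg (fun P : Space => P 1) h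
  have h2 := congrArg (fun P : Space => P 2) h
  simp at h0 h1 h2
  apply plane_ext <;> linarith

theorem lock_injOn : Set.InjOn lock rect := by
  intro p hp q hq h
  rcases rect_cover hp with (h1 | h1 | h1) | (h1 | h1 | h1) <;>
    rcases rect_cover hq with (h2 | h2 | h2) | (h2 | h2 | h2)
  · exact lock_T_T h1 h2 h
  · exact lock_T_TL h1 h2 h
  · exact lock_T_TR h1 h2 h
  · exact lock_T_B h1 h2 h
  · exact lock_T_BL h1 h2 h
  · exact lock_T_BR h1 h2 h
  · exact (lock_T_TL h2 h1 h.symm).symm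
  · exact lock_TL_TL h1 h2 h
  · exact lock_TL_TR h1 h2 h
  · exact lock_TL_B h1 h2 h
  · exact lock_TL_BL h1 h2 h
  · exact lock_TL_BR h1 h2 h
  · exact (lock_T_TR h2 h1 h.symm).symm
  · exact (lock_TL_TR h2 h1 h.symm).symm
  · exact lock_TR_TR h1 h2 h
  · exact lock_TR_B h1 h2 h
  · exact lock_TR_BL h1 h2 h
  · exact lock_TR_BR h1 h2 h
  · exact (lock_T_B h2 h1 h.symm).symm
  · exact (lock_TL_B h2 h1 h.symm).symm
  · exact (lock_TR_B h2 h1 h.symm).symm
  · exact lock_B_B h1 h2 h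
  · exact lock_B_BL h1 h2 h
  · exact lock_B_BR h1 h2 h
  · exact (lock_T_BL h2 h1 h.symm).symm
  · exact (lock_TL_BL h2 h1 h.symm).symm
  · exact (lock_TR_BL h2 h1 h.symm).symm
  · exact (lock_B_BL h2 h1 h.symm).symm
  · exact lock_BL_BL h1 h2 h
  · exact lock_BL_BR h1 h2 h
  · exact (lock_T_BR h2 h1 h.symm).symm
  · exact (lock_TL_BR h2 h1 h.symm).symm
  · exact (lock_TR_BR h2 h1 h.symm).symm
  · exact (lock_B_BR h2 h1 h.symm).symm
  · exact (lock_BL_BR h2 h1 h.symm).symm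
  · exact lock_BR_BR h1 h2 h

end Pool.Agent.W652.Origami
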