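import Pool.Agent.W652.OriLock

/-!
# Two kinds of points of the configuration space
-/

set_option autoImplicit false

namespace Pool.Agent.W652.Origami

open Set Filter
open scoped Topology

theorem sig_rigid {c s a b d : ℝ} (h1 : c ^ 2 + s ^ 2 = 1)
    (h2 : a ^ 2 + b ^ 2 + d ^ 2 = 2 * a) (h3 : c * b = -(5 / 24) * a) (h4 : s * d = -(5 / 24) * a)
    (hinj : Set.InjOn (sig c s a b d) rect) (ρ : Fin 7 → ℝ)
    (hE : ∀ e, Mv c s a b d e = -(Real.cos (ρ e)) • Lv c s a b d e +
      Real.sin (ρ e) • cross (Dv c s a b d e) (Lv c s a b d e)) :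
    G0.IsRigidOrigami ρ (sig c s a b d) where
  continuousOn := (continuous_sig c s a b d).continuousOn
  isometric := by
    intro F hF p hp q hq
    obtain ⟨i, hi⟩ := face_subset hF
    exact sig_isometric h1 h2 h3 h4 i (hi hp) (hi hq)
  foldAngle := fun e => sig_hasFoldAngle e (ρ e) (hE e)
  limit := fun ε hε => ⟨sig c s a b d, (continuous_sig c s a b d).continuousOn, hinj,
    fun x _ => by rw [dist_self]; exact hε⟩

/-- The folding angles of the simple fold along the long axis. -/
noncomputable def flatAngles (t : ℝ) : Fin 7 → ℝ := ![t, 0, 0, t, 0, 0, t]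

theorem flat_mem {t : ℝ} (ht0 : 0 ≤ t) (ht1 : t ≤ 1) : flatAngles t ∈ G0.configSpace := by
  have hpi := Real.pi_gt_three
  have hc : 0 < Real.cos (t / 2) :=
    Real.cos_pos_of_mem_Ioo ⟨by linarith, by linarith⟩
  have hcs : Real.cos (t / 2) ^ 2 + Real.sin (t / 2) ^ 2 = 1 := Real.cos_sq_add_sin_sq _
  have e1 : Real.cos t = Real.cos (t / 2) ^ 2 - Real.sin (t / 2) ^ 2 := by
    rw [← Real.cos_two_mul']; congr 1; ring
  have e2 : Real.sin t = 2 * Real.sin (t / 2) * Real.cos (t / 2) := by
    rw [← Real.sin_two_mul]; congr 1; ring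
  refine ⟨?_, sig (Real.cos (t / 2)) (Real.sin (t / 2)) 0 0 0, ?_⟩
  · intro e
    change Fin 7 at e
    have : flatAngles t e = t ∨ flatAngles t e = 0 := by
      fin_cases e <;> simp [flatAngles]
    rcases this with h | h <;> rw [h] <;> constructor <;> linarith
  · apply sig_rigid hcs (by ring) (by ring) (by ring)
    · intro p hp q hq h
      have h0 := congrArg (fun P : Space => P 0) h
      have h1 := congrArg (fun P : Space => P 1) h
      simp [sig] at h0 h1
      apply plane_ext h0
      rcases h1 with h1 | h1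
      · exact h1
      · exact absurd h1 hc.ne'
    · generalize Real.cos (t / 2) = c at *
      generalize Real.sin (t / 2) = s at *
      intro e
      fin_cases e
      · apply space_ext <;> simp [flatAngles, Lv, Mv, Dv, cross, e1, e2]
        · linear_combination (42 * c) * hcs
        · linear_combination (-42 * s) * hcs
      · apply space_ext <;> simp [flatAngles, Lv, Mv, Dv, cross]
      · apply space_ext <;> simp [flatAngles, Lv, Mv, Dv, cross]
      · apply space_ext <;> simp [flatAngles, Lv, Mv, Dv, cross, e1, e2]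
        · linear_combination (-29 * c) * hcs
        · linear_combination (-29 * s) * hcs
      · apply space_ext <;> simp [flatAngles, Lv, Mv, Dv, cross]
      · apply space_ext <;> simp [flatAngles, Lv, Mv, Dv, cross]
      · apply space_ext <;> simp [flatAngles, Lv, Mv, Dv, cross, e1, e2]
        · linear_combination (29 * c) * hcs
        · linear_combination (-29 * s) * hcs

theorem rigidFoldable_G0 : G0.RigidFoldable := by
  refine ⟨fun t => flatAngles t, ?_, fun t => flat_mem t.2.1 t.2.2, ?_, 1, ?_⟩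
  · apply continuous_pi
    intro e
    change Fin 7 at e
    fin_cases e <;> simp [flatAngles] <;> fun_prop
  · ext e
    change Fin 7 at e
    change flatAngles 0 e = 0
    fin_cases e <;> simp [flatAngles]
  · intro h
    have h1 : flatAngles 1 (0 : Fin 7) = 0 := congrFun h (0 : Fin 7)
    simp [flatAngles] at h1

theorem zero_mem : (0 : Fin 7 → ℝ) ∈ G0.configSpace := by
  have h := flat_mem (t := 0) le_rfl zero_le_one
  have h2 : flatAngles 0 = 0 := by
    ext e
    fin_cases e <;> simp [flatAngles]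
  rwa [h2] at h

theorem exists_angle {C S : ℝ} (h : C ^ 2 + S ^ 2 = 1) :
    ∃ φ ∈ Set.Icc (-Real.pi) Real.pi, Real.cos φ = C ∧ Real.sin φ = S := by
  have h1 : -1 ≤ C := by nlinarith [sq_nonneg S]
  have h2 : C ≤ 1 := by nlinarith [sq_nonneg S]
  have h3 : Real.sin (Real.arccos C) = |S| := by
    rw [Real.sin_arccos, ← Real.sqrt_sq_eq_abs]
    congr 1
    linarith
  rcases le_total 0 S with hS | hS
  · refine ⟨Real.arccos C, ⟨?_, Real.arccos_le_pi C⟩, Real.cos_arccos h1 h2, ?_⟩
    · linarith [Real.arccos_nonneg C, Real.pi_pos]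
    · rw [h3, abs_of_nonneg hS]
  · refine ⟨-Real.arccos C, ⟨?_, ?_⟩, ?_, ?_⟩
    · linarith [Real.arccos_le_pi C]
    · linarith [Real.arccos_nonneg C, Real.pi_pos]
    · rw [Real.cos_neg, Real.cos_arccos h1 h2]
    · rw [Real.sin_neg, h3, abs_of_nonpos hS, neg_neg]

/-- There is a folded state in the isolated part. -/
theorem exists_lock : ∃ ρ ∈ G0.configSpace, ρ (0 : Fin 7) = 2 * Real.arccos (4 / 5) ∧
    Real.cos (ρ (1 : Fin 7)) ≠ 1 ∧ Real.cos (ρ (4 : Fin 7)) ≠ 1 := by
  obtain ⟨φ₁, h1, c1, s1⟩ := exists_angle (C := -96119 / 98569) (S := -21840 / 98569) (by norm_num)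
  obtain ⟨φ₂, h2, c2, s2⟩ := exists_angle (C := -67319 / 98569) (S := -72000 / 98569) (by norm_num)
  obtain ⟨φ₃, h3, c3, s3⟩ := exists_angle (C := 7 / 25) (S := -24 / 25) (by norm_num)
  have hc : Real.cos (Real.arccos (4 / 5)) = 4 / 5 := Real.cos_arccos (by norm_num) (by norm_num)
  have hs : Real.sin (Real.arccos (4 / 5)) = 3 / 5 := by
    rw [Real.sin_arccos, Real.sqrt_eq_iff_mul_self_eq_of_pos (by norm_num)]; norm_num
  have hle : Real.arccos (4 / 5) ≤ Real.pi / 2 := Real.arccos_le_pi_div_two.2 (by norm_num)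
  have hnn := Real.arccos_nonneg (4 / 5)
  have c0 : Real.cos (2 * Real.arccos (4 / 5)) = 7 / 25 := by
    rw [Real.cos_two_mul, hc]; norm_num
  have s0 : Real.sin (2 * Real.arccos (4 / 5)) = 24 / 25 := by
    rw [Real.sin_two_mul, hc, hs]; norm_num
  refine ⟨(![2 * Real.arccos (4 / 5), φ₁, φ₂, φ₃, φ₁, φ₂, φ₃] : Fin 7 → ℝ), ⟨?_, lock, ?_⟩, rfl,
    ?_, ?_⟩
  · intro e
    change Fin 7 at e
    fin_cases e
    · constructor
      · change -Real.pi ≤ 2 * Real.arccos (4 / 5)
        linarith [Real.pi_pos]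
      · change 2 * Real.arccos (4 / 5) ≤ Real.pi
        linarith
    · exact h1
    · exact h2
    · exact h3
    · exact h1
    · exact h2
    · exact h3
  · apply sig_rigid (by norm_num) (by norm_num) (by norm_num) (by norm_num) lock_injOn
    intro e
    fin_cases e
    · apply space_ext <;> simp [Lv, Mv, Dv, cross, c0, s0] <;> norm_num
    · apply space_ext <;> simp [Lv, Mv, Dv, cross, c1, s1] <;> norm_num
    · apply space_ext <;> simp [Lv, Mv, Dv, cross, c2, s2] <;> norm_num
    · apply space_ext <;> simp [Lv, Mv, Dv, cross, c3, s3] <;> norm_num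
    · apply space_ext <;> simp [Lv, Mv, Dv, cross, c1, s1] <;> norm_num
    · apply space_ext <;> simp [Lv, Mv, Dv, cross, c2, s2] <;> norm_num
    · apply space_ext <;> simp [Lv, Mv, Dv, cross, c3, s3] <;> norm_num
  · change Real.cos φ₁ ≠ 1
    rw [c1]; norm_num
  · change Real.cos φ₁ ≠ 1
    rw [c1]; norm_num

end Pool.Agent.W652.Origami
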