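import Pool.Agent.W652.OriBlock
import Pool.Agent.W652.OriStates

/-!
# The configuration space is disconnected
-/

set_option autoImplicit false

namespace Pool.Agent.W652.Origami

open Set Filter
open scoped Topology

theorem nml_four : nml 4 = -nml 1 := by
  apply plane_ext <;> simp [nml, quarter, vt, sr, tg] <;> norm_num

/-- The structure of an arbitrary configuration. -/
theorem analysis {ρ : Fin 7 → ℝ} (hρ : ρ ∈ G0.configSpace) :
    ∃ f : Plane → Space, NF f (Real.cos (ρ 0 / 2)) (Real.sin (ρ 0 / 2)) ∧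
      (∃ a b d : ℝ, a ^ 2 + b ^ 2 + d ^ 2 = 2 * a ∧ Real.cos (ρ 0 / 2) * b = -(5 / 24) * a ∧
        Real.sin (ρ 0 / 2) * d = -(5 / 24) * a ∧
        ArmL f (Real.cos (ρ 0 / 2)) (Real.sin (ρ 0 / 2)) a b d ∧
        1 - Real.cos (ρ 1) = 169 / 144 * a) ∧
      (∃ a b d : ℝ, a ^ 2 + b ^ 2 + d ^ 2 = 2 * a ∧ Real.cos (ρ 0 / 2) * b = -(5 / 24) * a ∧
        Real.sin (ρ 0 / 2) * d = -(5 / 24) * a ∧
        ArmR f (Real.cos (ρ 0 / 2)) (Real.sin (ρ 0 / 2)) a b d ∧
        1 - Real.cos (ρ 4) = 169 / 144 * a) := by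
  obtain ⟨-, σ, hσ⟩ := hρ
  have hcs : Real.cos (ρ 0 / 2) ^ 2 + Real.sin (ρ 0 / 2) ^ 2 = 1 := Real.cos_sq_add_sin_sq _
  have e1 : Real.cos (ρ 0) = Real.cos (ρ 0 / 2) ^ 2 - Real.sin (ρ 0 / 2) ^ 2 := by
    rw [← Real.cos_two_mul']; congr 1; ring
  have e2 : Real.sin (ρ 0) = 2 * Real.sin (ρ 0 / 2) * Real.cos (ρ 0 / 2) := by
    rw [← Real.sin_two_mul]; congr 1; ring
  obtain ⟨f, hf, hfd⟩ := normal_form hσ hcs e1 e2
  have q1 : (!₂[-37 / 2, 6] : Plane) ∈ openSegment ℝ (vt (sr 1)) (vt (tg 1)) := by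
    refine ⟨1 / 2, 1 / 2, by norm_num, by norm_num, by norm_num, ?_⟩
    apply plane_ext <;> simp [vt, sr, tg] <;> norm_num
  have q4 : (!₂[37 / 2, -6] : Plane) ∈ openSegment ℝ (vt (sr 4)) (vt (tg 4)) := by
    refine ⟨1 / 2, 1 / 2, by norm_num, by norm_num, by norm_num, ?_⟩
    apply plane_ext <;> simp [vt, sr, tg] <;> norm_num
  obtain ⟨h, h0, h1, h2, h3⟩ := fold_dist hσ 1 q1
  obtain ⟨k, k0, k1, k2, k3⟩ := fold_dist hσ 4 q4
  refine ⟨f, hf, ?_, ?_⟩
  · obtain ⟨a, b, d, c1, c2, c3, c4⟩ := vertex hcs hf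
    refine ⟨a, b, d, c1, c2, c3, c4, ?_⟩
    rw [← hfd] at h3
    exact arm_angle hcs c1 c2 c3 hf.top c4 h0 h1 h2 h3
  · have hg := twist hf
    obtain ⟨a, b, d, c1, c2, c3, c4⟩ := vertex hcs hg
    refine ⟨a, b, d, c1, c2, c3, armR_of_twist c4, ?_⟩
    have p1 : -(!₂[37 / 2, -6] + k • nml 4 : Plane) = !₂[-37 / 2, 6] + k • nml 1 := by
      rw [nml_four]
      apply plane_ext <;> simp <;> ring
    have p2 : -(!₂[37 / 2, -6] - k • nml 4 : Plane) = !₂[-37 / 2, 6] - k • nml 1 := by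
      rw [nml_four]
      apply plane_ext <;> simp <;> ring
    have m1 : !₂[-37 / 2, 6] + k • nml 1 ∈ cpoly (pl 1) := by
      rw [← p1]; exact neg_BR k1
    have m2 : !₂[-37 / 2, 6] - k • nml 1 ∈ cpoly (pl 0) := by
      rw [← p2]; exact neg_B k2
    refine arm_angle hcs c1 c2 c3 hg.top c4 k0 m1 m2 ?_
    rw [← p1, ← p2, dist_rot, neg_neg, neg_neg, hfd]
    exact k3

/-- The relation between the folding angles of the middle crease and of an arm crease in the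
folded mode of a vertex. -/
noncomputable def H (x r : ℝ) : ℝ :=
  144 / 169 * (1 - Real.cos x) * (Real.sin r ^ 2 + 25 / 144) - 2 * Real.sin r ^ 2

theorem H_or {ρ : Fin 7 → ℝ} (hρ : ρ ∈ G0.configSpace) :
    (Real.cos (ρ 1) = 1 ∨ H (ρ 1) (ρ 0) = 0) ∧ (Real.cos (ρ 4) = 1 ∨ H (ρ 4) (ρ 0) = 0) := by
  obtain ⟨f, hf, ⟨a, b, d, a1, a2, a3, a4, a5⟩, ⟨a', b', d', b1, b2, b3, b4, b5⟩⟩ := analysis hρ
  have hcs : Real.cos (ρ 0 / 2) ^ 2 + Real.sin (ρ 0 / 2) ^ 2 = 1 := Real.cos_sq_add_sin_sq _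
  have e2 : 2 * Real.sin (ρ 0 / 2) * Real.cos (ρ 0 / 2) = Real.sin (ρ 0) := by
    rw [← Real.sin_two_mul]; congr 1; ring
  constructor
  · rcases mode a1 a2 a3 hcs with h | h
    · left; rw [h] at a5; linarith
    · right
      rw [e2] at h
      unfold H
      rw [a5]
      linear_combination h
  · rcases mode b1 b2 b3 hcs with h | h
    · left; rw [h] at b5; linarith
    · right
      rw [e2] at h
      unfold H
      rw [b5]
      linear_combination h

theorem not_at_one {ρ : Fin 7 → ℝ} (hρ : ρ ∈ G0.configSpace) (h0 : ρ 0 = 2 * Real.arccos (15 / 17))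
    (h1 : H (ρ 1) (ρ 0) = 0) (h4 : H (ρ 4) (ρ 0) = 0) : False := by
  obtain ⟨f, hf, ⟨a, b, d, a1, a2, a3, a4, a5⟩, ⟨a', b', d', b1, b2, b3, b4, b5⟩⟩ := analysis hρ
  have hc : Real.cos (ρ 0 / 2) = 15 / 17 := by
    rw [h0, mul_div_cancel_left₀ _ (two_ne_zero)]
    exact Real.cos_arccos (by norm_num) (by norm_num)
  have hs : Real.sin (ρ 0 / 2) = 8 / 17 := by
    rw [h0, mul_div_cancel_left₀ _ (two_ne_zero), Real.sin_arccos,
      Real.sqrt_eq_iff_mul_self_eq_of_pos (by norm_num)]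
    norm_num
  have hs0 : Real.sin (ρ 0) = 240 / 289 := by
    have : Real.sin (ρ 0) = 2 * Real.sin (ρ 0 / 2) * Real.cos (ρ 0 / 2) := by
      rw [← Real.sin_two_mul]; congr 1; ring
    rw [this, hc, hs]; norm_num
  unfold H at h1 h4
  rw [hs0, a5] at h1
  rw [hs0, b5] at h4
  rw [hc] at a2 b2
  rw [hs] at a3 b3
  have ea : a = 663552 / 415297 := by linarith
  have ea' : a' = 663552 / 415297 := by linarith
  subst ea ea'
  have eb : b = -156672 / 415297 := by linarith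
  have eb' : b' = -156672 / 415297 := by linarith
  have ed : d = -293760 / 415297 := by linarith
  have ed' : d' = -293760 / 415297 := by linarith
  subst eb eb' ed ed'
  rw [hc, hs] at a4 b4
  exact blocked_one hf.lim a4 b4

theorem not_at_two {ρ : Fin 7 → ℝ} (hρ : ρ ∈ G0.configSpace) (h0 : ρ 0 = 2 * Real.arccos (3 / 5))
    (h1 : H (ρ 1) (ρ 0) = 0) : False := by
  obtain ⟨f, hf, ⟨a, b, d, a1, a2, a3, a4, a5⟩, -⟩ := analysis hρ
  have hc : Real.cos (ρ 0 / 2) = 3 / 5 := by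
    rw [h0, mul_div_cancel_left₀ _ (two_ne_zero)]
    exact Real.cos_arccos (by norm_num) (by norm_num)
  have hs : Real.sin (ρ 0 / 2) = 4 / 5 := by
    rw [h0, mul_div_cancel_left₀ _ (two_ne_zero), Real.sin_arccos,
      Real.sqrt_eq_iff_mul_self_eq_of_pos (by norm_num)]
    norm_num
  have hs0 : Real.sin (ρ 0) = 24 / 25 := by
    have : Real.sin (ρ 0) = 2 * Real.sin (ρ 0 / 2) * Real.cos (ρ 0 / 2) := by
      rw [← Real.sin_two_mul]; congr 1; ring
    rw [this, hc, hs]; norm_num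
  unfold H at h1
  rw [hs0, a5] at h1
  rw [hc] at a2
  rw [hs] at a3
  have ea : a = 165888 / 98569 := by linarith
  subst ea
  have eb : b = -57600 / 98569 := by linarith
  have ed : d = -43200 / 98569 := by linarith
  subst eb ed
  have hb := hf.bot
  rw [hc, hs] at a4 hb
  exact blocked_two hf.lim a4 hb

theorem continuous_H (i : Fin 7) : Continuous fun ρ : Fin 7 → ℝ => H (ρ i) (ρ 0) := by
  unfold H
  fun_prop

theorem not_isPreconnected : ¬ IsPreconnected G0.configSpace := by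
  intro hpre
  set t₁ := 2 * Real.arccos (15 / 17) with ht₁
  set t₂ := 2 * Real.arccos (3 / 5) with ht₂
  have q1 : 0 < t₁ := by
    have := Real.arccos_pos.2 (show (15 / 17 : ℝ) < 1 by norm_num)
    linarith
  have q2 : t₁ < 2 * Real.arccos (4 / 5) := by
    have := Real.arccos_lt_arccos (x := 4 / 5) (y := 15 / 17) (by norm_num) (by norm_num)
      (by norm_num)
    linarith
  have q3 : 2 * Real.arccos (4 / 5) < t₂ := by
    have := Real.arccos_lt_arccos (x := 3 / 5) (y := 4 / 5) (by norm_num) (by norm_num)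
      (by norm_num)
    linarith
  have q4 : t₂ < Real.pi := by
    have := Real.arccos_lt_pi_div_two.2 (show (0 : ℝ) < 3 / 5 by norm_num)
    linarith
  let U₁ : Set (Fin 7 → ℝ) :=
    {ρ | t₁ < ρ 0 ∧ ρ 0 < t₂ ∧ Real.cos (ρ 1) ≠ 1 ∧ Real.cos (ρ 4) ≠ 1}
  let U₂ : Set (Fin 7 → ℝ) :=
    {ρ | ρ 0 < t₁ ∨ t₂ < ρ 0 ∨ H (ρ 1) (ρ 0) ≠ 0 ∨ H (ρ 4) (ρ 0) ≠ 0}
  have o1 : IsOpen U₁ := by
    apply (isOpen_lt continuous_const (continuous_apply 0)).inter
    apply (isOpen_lt (continuous_apply 0) continuous_const).inter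
    apply IsOpen.inter
    · exact isOpen_ne_fun (Real.continuous_cos.comp (continuous_apply 1)) continuous_const
    · exact isOpen_ne_fun (Real.continuous_cos.comp (continuous_apply 4)) continuous_const
  have o2 : IsOpen U₂ := by
    apply (isOpen_lt (continuous_apply 0) continuous_const).union
    apply (isOpen_lt continuous_const (continuous_apply 0)).union
    apply IsOpen.union
    · exact isOpen_ne_fun (continuous_H 1) continuous_const
    · exact isOpen_ne_fun (continuous_H 4) continuous_const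
  have hcov : G0.configSpace ⊆ U₁ ∪ U₂ := by
    intro ρ hρ
    by_cases h : ρ ∈ U₂
    · exact Or.inr h
    · left
      have h' : ¬ (ρ (0 : Fin 7) < t₁ ∨ t₂ < ρ (0 : Fin 7) ∨ H (ρ (1 : Fin 7)) (ρ (0 : Fin 7)) ≠ 0 ∨
          H (ρ (4 : Fin 7)) (ρ (0 : Fin 7)) ≠ 0) := h
      push Not at h'
      obtain ⟨h1, h2, h3, h4⟩ := h'
      have hsin : 0 < Real.sin (ρ (0 : Fin 7)) :=
        Real.sin_pos_of_pos_of_lt_pi (by linarith) (by linarith)
      refine ⟨lt_of_le_of_ne h1 fun h => ?_, lt_of_le_of_ne h2 fun h => ?_, fun h => ?_,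
        fun h => ?_⟩
      · exact not_at_one hρ h.symm h3 h4
      · exact not_at_two hρ h h3
      · unfold H at h3
        rw [h] at h3
        nlinarith
      · unfold H at h4
        rw [h] at h4
        nlinarith
  obtain ⟨ρ, hρ, r0, r1, r4⟩ := exists_lock
  have n1 : (G0.configSpace ∩ U₁).Nonempty :=
    ⟨ρ, hρ, by rw [r0]; exact q2, by rw [r0]; exact q3, r1, r4⟩
  have n2 : (G0.configSpace ∩ U₂).Nonempty := ⟨0, zero_mem, Or.inl q1⟩
  obtain ⟨ρ', hρ', ⟨u1, u2, u3, u4⟩, hu⟩ := hpre U₁ U₂ o1 o2 hcov n1 n2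
  obtain ⟨k1, k4⟩ := H_or hρ'
  rcases hu with hu | hu | hu | hu
  · linarith
  · linarith
  · exact hu (k1.resolve_left u3)
  · exact hu (k4.resolve_left u4)

end Pool.Agent.W652.Origami
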