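import Pool.Agent.W652.OriPoly

/-!
# The crease pattern: a rectangle with two interior vertices of degree four
-/

set_option autoImplicit false

namespace Pool.Agent.W652.Origami

open Set Filter
open scoped Topology

/-- The inequalities of the rectangle `[-50, 50] × [-12, 12]`. -/
def rectL : List (ℝ × ℝ × ℝ) := [(1, 0, 50), (-1, 0, 50), (0, 1, 12), (0, -1, 12)]

/-- The rectangle `[-50, 50] × [-12, 12]`. -/
def rect : Set Plane := {p | (-50 ≤ p 0 ∧ p 0 ≤ 50) ∧ (-12 ≤ p 1 ∧ p 1 ≤ 12)}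

theorem rect_eq : rect = cpoly rectL := by
  ext p
  simp only [rect, cpoly, rectL, val, Set.mem_ofPred_eq, List.mem_cons, List.not_mem_nil, or_false,
    forall_eq_or_imp, forall_eq]
  constructor
  · rintro ⟨⟨h1, h2⟩, h3, h4⟩
    refine ⟨?_, ?_, ?_, ?_⟩ <;> linarith
  · rintro ⟨h1, h2, h3, h4⟩
    refine ⟨⟨?_, ?_⟩, ?_, ?_⟩ <;> linarith

theorem mem_opoly_rect {p : Plane} :
    p ∈ opoly rectL ↔ (-50 < p 0 ∧ p 0 < 50) ∧ (-12 < p 1 ∧ p 1 < 12) := by
  simp only [opoly, rectL, val, Set.mem_ofPred_eq, List.mem_cons, List.not_mem_nil, or_false,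
    forall_eq_or_imp, forall_eq]
  constructor
  · rintro ⟨h1, h2, h3, h4⟩
    refine ⟨⟨?_, ?_⟩, ?_, ?_⟩ <;> linarith
  · rintro ⟨⟨h1, h2⟩, h3, h4⟩
    refine ⟨?_, ?_, ?_, ?_⟩ <;> linarith

theorem opoly_rect_nonempty : (opoly rectL).Nonempty :=
  ⟨0, mem_opoly_rect.2 (by simp)⟩

theorem opoly_subset_interior_rect : opoly rectL ⊆ interior rect := by
  apply interior_maximal _ (isOpen_opoly _)
  rw [rect_eq]
  exact opoly_subset_cpoly _

theorem isCompact_rect : IsCompact rect := by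
  rw [rect_eq]
  apply Metric.isCompact_of_isClosed_isBounded (isClosed_cpoly _)
  rw [← rect_eq]
  apply (Metric.isBounded_closedBall (x := (0 : Plane)) (r := 100)).subset
  rintro p ⟨⟨h1, h2⟩, h3, h4⟩
  rw [mem_closedBall_zero_iff, EuclideanSpace.norm_eq, Fin.sum_univ_two]
  apply Real.sqrt_le_iff.2
  refine ⟨by norm_num, ?_⟩
  simp only [Real.norm_eq_abs, sq_abs]
  nlinarith

theorem isClosed_rect : IsClosed rect := isCompact_rect.isClosed

theorem convex_rect : Convex ℝ rect := by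
  rw [rect_eq]; exact convex_cpoly _

theorem closure_interior_rect : closure (interior rect) = rect := by
  apply subset_antisymm
  · exact closure_minimal interior_subset isClosed_rect
  · calc rect = cpoly rectL := rect_eq
      _ ⊆ closure (opoly rectL) := cpoly_subset_closure opoly_rect_nonempty
      _ ⊆ closure (interior rect) := closure_mono opoly_subset_interior_rect

theorem isConnected_interior_rect : IsConnected (interior rect) :=
  ⟨opoly_rect_nonempty.mono opoly_subset_interior_rect, convex_rect.interior.isPreconnected⟩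

/-- The vertices. -/
noncomputable def vt : Fin 8 → Plane :=
  ![!₂[-21, 0], !₂[21, 0], !₂[-16, 12], !₂[-21, -12], !₂[-50, 0], !₂[16, -12], !₂[21, 12],
    !₂[50, 0]]

/-- The first endpoints of the creases. -/
def sr : Fin 7 → Fin 8 := ![0, 0, 0, 0, 1, 1, 1]

/-- The second endpoints of the creases. -/
def tg : Fin 7 → Fin 8 := ![1, 2, 3, 4, 5, 6, 7]

theorem vt_injective : Function.Injective vt := by
  intro i j h
  have h0 := congrArg (fun p : Plane => p 0) h
  have h1 := congrArg (fun p : Plane => p 1) h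
  fin_cases i <;> fin_cases j <;> first
    | rfl
    | (exfalso; simp [vt] at h0 h1; done)
    | (exfalso; simp [vt] at h0 h1; linarith)

theorem vt_mem (i : Fin 8) : vt i ∈ rect := by
  fin_cases i <;> norm_num [vt, rect]

theorem seg_subset (e : Fin 7) : openSegment ℝ (vt (sr e)) (vt (tg e)) ⊆ interior rect := by
  refine Subset.trans ?_ opoly_subset_interior_rect
  rintro _ ⟨a, b, ha, hb, hab, rfl⟩
  rw [mem_opoly_rect]
  have : a = 1 - b := by linarith
  subst this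
  refine ⟨⟨?_, ?_⟩, ?_, ?_⟩ <;> fin_cases e <;> first
    | (simp [vt, sr, tg]; done)
    | (simp [vt, sr, tg]; linarith)

theorem vt_notMem (e : Fin 7) (i : Fin 8) : vt i ∉ openSegment ℝ (vt (sr e)) (vt (tg e)) := by
  rintro ⟨a, b, ha, hb, hab, h⟩
  have h0 := congrArg (fun p : Plane => p 0) h
  have h1 := congrArg (fun p : Plane => p 1) h
  have : a = 1 - b := by linarith
  subst this
  fin_cases e <;> fin_cases i <;> first
    | (simp [vt, sr, tg] at h0 h1; done)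
    | (simp [vt, sr, tg] at h0 h1; linarith)

theorem disj (e e' : Fin 7) (hee : e ≠ e') : Disjoint (openSegment ℝ (vt (sr e)) (vt (tg e)))
    (openSegment ℝ (vt (sr e')) (vt (tg e'))) := by
  rw [Set.disjoint_left]
  rintro _ ⟨a, b, ha, hb, hab, rfl⟩ ⟨c, d, hc, hd, hcd, h⟩
  have h0 := congrArg (fun p : Plane => p 0) h
  have h1 := congrArg (fun p : Plane => p 1) h
  have : a = 1 - b := by linarith
  subst this
  have : c = 1 - d := by linarith
  subst this
  fin_cases e <;> fin_cases e' <;> first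
    | (exact absurd rfl hee)
    | (simp [vt, sr, tg] at h0 h1; done)
    | (simp [vt, sr, tg] at h0 h1; linarith)

/-- The crease pattern. -/
noncomputable def G0 : CreasePattern where
  R := rect
  isCompact_R := isCompact_rect
  closure_interior_R := closure_interior_rect
  isConnected_interior_R := isConnected_interior_rect
  nV := 8
  nE := 7
  vert := vt
  vert_injective := vt_injective
  vert_mem := vt_mem
  src := sr
  tgt := tg
  src_ne_tgt := by decide
  openSegment_subset := seg_subset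
  vert_notMem := vt_notMem
  disjoint_creases := disj

theorem vt_mem_interior_iff (i : Fin 8) : vt i ∈ interior rect ↔ i = 0 ∨ i = 1 := by
  constructor
  · intro h
    by_contra hi
    have key : ∀ h' ∈ rectL, val h' (vt i) ≠ 0 := by
      intro h' hh' h0
      refine notMem_interior (S := rect) h' ?_ h0 ?_ h
      · intro p hp
        rw [rect_eq] at hp
        exact hp h' hh'
      · simp only [rectL, List.mem_cons, List.not_mem_nil, or_false] at hh'
        rcases hh' with rfl | rfl | rfl | rfl <;> norm_num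
    have k1 := key (1, 0, 50) (by simp [rectL])
    have k2 := key (-1, 0, 50) (by simp [rectL])
    have k3 := key (0, 1, 12) (by simp [rectL])
    have k4 := key (0, -1, 12) (by simp [rectL])
    simp only [val] at k1 k2 k3 k4
    fin_cases i <;> first
      | exact hi (Or.inl rfl)
      | exact hi (Or.inr rfl)
      | (simp [vt] at k1; done)
      | (simp [vt] at k2; done)
      | (simp [vt] at k3; done)
      | (simp [vt] at k4)
  · rintro (rfl | rfl) <;> apply opoly_subset_interior_rect <;> rw [mem_opoly_rect] <;>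
      norm_num [vt]

theorem twoVertex_G0 : G0.TwoVertex := by
  constructor
  · have h1 : {i : Fin 8 | vt i ∈ interior rect} = ({0, 1} : Set (Fin 8)) := by
      ext i
      rw [Set.mem_insert_iff, Set.mem_singleton_iff]
      exact vt_mem_interior_iff i
    have h2 : ({0, 1} : Set (Fin 8)).ncard = 2 :=
      Set.ncard_pair (by decide : (0 : Fin 8) ≠ 1)
    have h3 : {i : Fin 8 | vt i ∈ interior rect}.ncard = 2 := by rw [h1, h2]
    exact h3
  · intro i hi
    exact ⟨subset_closure (vt_mem i), hi⟩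

/-- The six polygons: `0 = T`, `1 = TL`, `2 = TR`, `3 = B`, `4 = BL`, `5 = BR`. -/
def pl : Fin 6 → List (ℝ × ℝ × ℝ) :=
  ![[(0, 1, 0), (0, -1, 12), (12, -5, 252), (-1, 0, 21)],
    [(0, 1, 0), (0, -1, 12), (-12, 5, -252), (1, 0, 50)],
    [(0, 1, 0), (0, -1, 12), (1, 0, -21), (-1, 0, 50)],
    [(0, -1, 0), (0, 1, 12), (1, 0, 21), (-12, 5, 252)],
    [(0, -1, 0), (0, 1, 12), (-1, 0, -21), (1, 0, 50)],
    [(0, -1, 0), (0, 1, 12), (12, -5, -252), (-1, 0, 50)]]

/-- unfolding of membership in the polygons -/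
theorem mem_T {p : Plane} : p ∈ cpoly (pl 0) ↔
    0 ≤ p 1 ∧ p 1 ≤ 12 ∧ 5 * p 1 ≤ 12 * (p 0 + 21) ∧ p 0 ≤ 21 := by
  have h : p ∈ cpoly (pl 0) ↔ ∀ h ∈ ([(0, 1, 0), (0, -1, 12), (12, -5, 252), (-1, 0, 21)] : List (ℝ × ℝ × ℝ)),
      0 ≤ val h p := Iff.rfl
  rw [h]
  simp only [List.mem_cons, List.not_mem_nil, or_false, forall_eq_or_imp, forall_eq, val]
  constructor <;> rintro ⟨h1, h2, h3, h4⟩ <;> refine ⟨?_, ?_, ?_, ?_⟩ <;> linarith

theorem mem_TL {p : Plane} : p ∈ cpoly (pl 1) ↔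
    0 ≤ p 1 ∧ p 1 ≤ 12 ∧ 12 * (p 0 + 21) ≤ 5 * p 1 ∧ -50 ≤ p 0 := by
  have h : p ∈ cpoly (pl 1) ↔ ∀ h ∈ ([(0, 1, 0), (0, -1, 12), (-12, 5, -252), (1, 0, 50)] : List (ℝ × ℝ × ℝ)),
      0 ≤ val h p := Iff.rfl
  rw [h]
  simp only [List.mem_cons, List.not_mem_nil, or_false, forall_eq_or_imp, forall_eq, val]
  constructor <;> rintro ⟨h1, h2, h3, h4⟩ <;> refine ⟨?_, ?_, ?_, ?_⟩ <;> linarith

theorem mem_TR {p : Plane} : p ∈ cpoly (pl 2) ↔
    0 ≤ p 1 ∧ p 1 ≤ 12 ∧ 21 ≤ p 0 ∧ p 0 ≤ 50 := by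
  have h : p ∈ cpoly (pl 2) ↔ ∀ h ∈ ([(0, 1, 0), (0, -1, 12), (1, 0, -21), (-1, 0, 50)] : List (ℝ × ℝ × ℝ)),
      0 ≤ val h p := Iff.rfl
  rw [h]
  simp only [List.mem_cons, List.not_mem_nil, or_false, forall_eq_or_imp, forall_eq, val]
  constructor <;> rintro ⟨h1, h2, h3, h4⟩ <;> refine ⟨?_, ?_, ?_, ?_⟩ <;> linarith

theorem mem_B {p : Plane} : p ∈ cpoly (pl 3) ↔
    p 1 ≤ 0 ∧ -12 ≤ p 1 ∧ -21 ≤ p 0 ∧ 12 * (p 0 - 21) ≤ 5 * p 1 := by
  have h : p ∈ cpoly (pl 3) ↔ ∀ h ∈ ([(0, -1, 0), (0, 1, 12), (1, 0, 21), (-12, 5, 252)] : List (ℝ × ℝ × ℝ)),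
      0 ≤ val h p := Iff.rfl
  rw [h]
  simp only [List.mem_cons, List.not_mem_nil, or_false, forall_eq_or_imp, forall_eq, val]
  constructor <;> rintro ⟨h1, h2, h3, h4⟩ <;> refine ⟨?_, ?_, ?_, ?_⟩ <;> linarith

theorem mem_BL {p : Plane} : p ∈ cpoly (pl 4) ↔
    p 1 ≤ 0 ∧ -12 ≤ p 1 ∧ p 0 ≤ -21 ∧ -50 ≤ p 0 := by
  have h : p ∈ cpoly (pl 4) ↔ ∀ h ∈ ([(0, -1, 0), (0, 1, 12), (-1, 0, -21), (1, 0, 50)] : List (ℝ × ℝ × ℝ)),
      0 ≤ val h p := Iff.rfl
  rw [h]
  simp only [List.mem_cons, List.not_mem_nil, or_false, forall_eq_or_imp, forall_eq, val]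
  constructor <;> rintro ⟨h1, h2, h3, h4⟩ <;> refine ⟨?_, ?_, ?_, ?_⟩ <;> linarith

theorem mem_BR {p : Plane} : p ∈ cpoly (pl 5) ↔
    p 1 ≤ 0 ∧ -12 ≤ p 1 ∧ 5 * p 1 ≤ 12 * (p 0 - 21) ∧ p 0 ≤ 50 := by
  have h : p ∈ cpoly (pl 5) ↔ ∀ h ∈ ([(0, -1, 0), (0, 1, 12), (12, -5, -252), (-1, 0, 50)] : List (ℝ × ℝ × ℝ)),
      0 ≤ val h p := Iff.rfl
  rw [h]
  simp only [List.mem_cons, List.not_mem_nil, or_false, forall_eq_or_imp, forall_eq, val]
  constructor <;> rintro ⟨h1, h2, h3, h4⟩ <;> refine ⟨?_, ?_, ?_, ?_⟩ <;> linarith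

end Pool.Agent.W652.Origami
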