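import Pool.Agent.W652.OriDefs

/-!
# Convex polygons given by affine inequalities
-/

set_option autoImplicit false

namespace Pool.Agent.W652.Origami

open Set Filter
open scoped Topology

/-- The affine function with coefficients `h`. -/
noncomputable def val (h : ℝ × ℝ × ℝ) (p : Plane) : ℝ := h.1 * p 0 + h.2.1 * p 1 + h.2.2

/-- The closed polygon. -/
def cpoly (l : List (ℝ × ℝ × ℝ)) : Set Plane := {p | ∀ h ∈ l, 0 ≤ val h p}

/-- The open polygon. -/
def opoly (l : List (ℝ × ℝ × ℝ)) : Set Plane := {p | ∀ h ∈ l, 0 < val h p}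

theorem val_combo (h : ℝ × ℝ × ℝ) (x y : Plane) (a b : ℝ) (hab : a + b = 1) :
    val h (a • x + b • y) = a * val h x + b * val h y := by
  simp only [val, PiLp.add_apply, PiLp.smul_apply, smul_eq_mul]
  linear_combination (-h.2.2) * hab

theorem continuous_val (h : ℝ × ℝ × ℝ) : Continuous (val h) := by
  unfold val
  fun_prop

theorem isClosed_cpoly (l : List (ℝ × ℝ × ℝ)) : IsClosed (cpoly l) := by
  have : cpoly l = ⋂ h ∈ l, {p | 0 ≤ val h p} := by
    ext p; simp [cpoly]
  rw [this]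
  exact isClosed_biInter fun h _ => isClosed_le continuous_const (continuous_val h)

theorem isOpen_opoly (l : List (ℝ × ℝ × ℝ)) : IsOpen (opoly l) := by
  induction l with
  | nil => simp [opoly]
  | cons h l ih =>
    have : opoly (h :: l) = {p | 0 < val h p} ∩ opoly l := by
      ext p; simp [opoly]
    rw [this]
    exact (isOpen_lt continuous_const (continuous_val h)).inter ih

theorem opoly_subset_cpoly (l : List (ℝ × ℝ × ℝ)) : opoly l ⊆ cpoly l :=
  fun _ hp h hh => (hp h hh).le

theorem convex_opoly (l : List (ℝ × ℝ × ℝ)) : Convex ℝ (opoly l) := by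
  intro x hx y hy a b ha hb hab h hh
  rw [val_combo h x y a b hab]
  have h1 := hx h hh
  have h2 := hy h hh
  rcases ha.eq_or_lt with h0 | h0
  · have : b = 1 := by linarith
    subst this
    rw [← h0]; linarith
  · have := mul_pos h0 h1
    have := mul_nonneg hb h2.le
    linarith

theorem convex_cpoly (l : List (ℝ × ℝ × ℝ)) : Convex ℝ (cpoly l) := by
  intro x hx y hy a b ha hb hab h hh
  rw [val_combo h x y a b hab]
  exact add_nonneg (mul_nonneg ha (hx h hh)) (mul_nonneg hb (hy h hh))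

theorem cpoly_subset_closure {l : List (ℝ × ℝ × ℝ)} (hne : (opoly l).Nonempty) :
    cpoly l ⊆ closure (opoly l) := by
  obtain ⟨q, hq⟩ := hne
  intro p hp
  have h1 : openSegment ℝ p q ⊆ opoly l := by
    rintro _ ⟨a, b, ha, hb, hab, rfl⟩ h hh
    rw [val_combo h p q a b hab]
    exact add_pos_of_nonneg_of_pos (mul_nonneg ha.le (hp h hh)) (mul_pos hb (hq h hh))
  have h2 : p ∈ closure (openSegment ℝ p q) := segment_subset_closure_openSegment (left_mem_segment ℝ p q)
  exact closure_mono h1 h2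

theorem notMem_interior {S : Set Plane} (h : ℝ × ℝ × ℝ) (hS : ∀ p ∈ S, 0 ≤ val h p) {p : Plane}
    (hp : val h p = 0) (hne : 0 < h.1 ^ 2 + h.2.1 ^ 2) : p ∉ interior S := by
  intro hpi
  have hc : Continuous fun t : ℝ => p - t • (!₂[h.1, h.2.1] : Plane) := by fun_prop
  have h1 : (fun t : ℝ => p - t • (!₂[h.1, h.2.1] : Plane)) ⁻¹' (interior S) ∈ 𝓝 (0 : ℝ) := by
    apply hc.continuousAt.preimage_mem_nhds
    apply isOpen_interior.mem_nhds
    simpa using hpi
  have h2 : (fun t : ℝ => p - t • (!₂[h.1, h.2.1] : Plane)) ⁻¹' (interior S) ∈ 𝓝[>] (0 : ℝ) :=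
    mem_nhdsWithin_of_mem_nhds h1
  obtain ⟨t, ht1, ht2⟩ := ((self_mem_nhdsWithin : Set.Ioi (0 : ℝ) ∈ 𝓝[>] (0 : ℝ)) |>
    fun h3 => (inter_mem h2 h3)) |> Filter.nonempty_of_mem
  have h3 := hS _ (interior_subset ht1)
  have h4 : val h (p - t • (!₂[h.1, h.2.1] : Plane)) = val h p - t * (h.1 ^ 2 + h.2.1 ^ 2) := by
    simp only [val, PiLp.sub_apply, PiLp.smul_apply, smul_eq_mul]
    simp
    ring
  rw [h4, hp] at h3
  have h5 : 0 < t * (h.1 ^ 2 + h.2.1 ^ 2) := mul_pos ht2 hne
  linarith

/-- A continuous function without zeros on a preconnected set has constant sign. -/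
theorem sign_of_preconnected {C : Set Plane} (hC : IsPreconnected C) {g : Plane → ℝ}
    (hg : Continuous g) (h0 : ∀ p ∈ C, g p ≠ 0) : (∀ p ∈ C, g p < 0) ∨ (∀ p ∈ C, 0 < g p) := by
  have h1 : C ⊆ {p | g p < 0} ∪ {p | 0 < g p} := fun p hp => lt_or_gt_of_ne (h0 p hp)
  have h2 : Disjoint {p | g p < 0} {p | 0 < g p} := by
    rw [Set.disjoint_left]
    intro p (hp : g p < 0) (hp' : 0 < g p)
    linarith
  rcases IsPreconnected.subset_or_subset (isOpen_lt hg continuous_const)
    (isOpen_lt continuous_const hg) h2 h1 hC with h | h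
  · exact Or.inl fun p hp => h hp
  · exact Or.inr fun p hp => h hp

end Pool.Agent.W652.Origami
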