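import Pool.Agent.W652.OriFold

/-!
# Rigidity: the normal form of a rigid origami on the given crease pattern
-/

set_option autoImplicit false

namespace Pool.Agent.W652.Origami

open Set Filter
open scoped Topology RealInnerProductSpace

theorem inner_of_iso {σ : Plane → Space} {S : Set Plane}
    (h : ∀ x ∈ S, ∀ y ∈ S, dist (σ x) (σ y) = dist x y) {x y z : Plane} (hx : x ∈ S) (hy : y ∈ S)
    (hz : z ∈ S) : ⟪σ x - σ z, σ y - σ z⟫ = ⟪x - z, y - z⟫ := by
  rw [real_inner_eq_norm_mul_self_add_norm_mul_self_sub_norm_sub_mul_self_div_two,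
    real_inner_eq_norm_mul_self_add_norm_mul_self_sub_norm_sub_mul_self_div_two]
  have e1 : σ x - σ z - (σ y - σ z) = σ x - σ y := by abel
  have e2 : x - z - (y - z) = x - y := by abel
  rw [e1, e2]
  simp only [← dist_eq_norm]
  rw [h x hx z hz, h y hy z hz, h x hx y hy]

/-- An isometry on a set of points is affine. -/
theorem iso_affine {σ : Plane → Space} {S : Set Plane}
    (h : ∀ x ∈ S, ∀ y ∈ S, dist (σ x) (σ y) = dist x y) {p₀ p₁ p₂ x : Plane} (h₀ : p₀ ∈ S)
    (h₁ : p₁ ∈ S) (h₂ : p₂ ∈ S) (hx : x ∈ S) (a b : ℝ)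
    (he : x - p₀ = a • (p₁ - p₀) + b • (p₂ - p₀)) :
    σ x = σ p₀ + (a • (σ p₁ - σ p₀) + b • (σ p₂ - σ p₀)) := by
  have i1 := inner_of_iso h hx h₁ h₀
  have i2 := inner_of_iso h hx h₂ h₀
  have i3 := inner_of_iso h h₁ h₂ h₀
  have i4 := inner_of_iso h hx hx h₀
  have i5 := inner_of_iso h h₁ h₁ h₀
  have i6 := inner_of_iso h h₂ h₂ h₀
  have key : ⟪(σ x - σ p₀) - (a • (σ p₁ - σ p₀) + b • (σ p₂ - σ p₀)),
      (σ x - σ p₀) - (a • (σ p₁ - σ p₀) + b • (σ p₂ - σ p₀))⟫ =
      ⟪(x - p₀) - (a • (p₁ - p₀) + b • (p₂ - p₀)), (x - p₀) - (a • (p₁ - p₀) + b • (p₂ - p₀))⟫ := by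
    simp only [inner_sub_left (𝕜 := ℝ) (_ - _) (_ + _), inner_sub_right (𝕜 := ℝ) _ (_ - _) (_ + _),
      inner_add_left, inner_add_right, real_inner_smul_left, real_inner_smul_right]
    rw [real_inner_comm (σ x - σ p₀) (σ p₁ - σ p₀), real_inner_comm (σ x - σ p₀) (σ p₂ - σ p₀),
      real_inner_comm (σ p₁ - σ p₀) (σ p₂ - σ p₀), real_inner_comm (x - p₀) (p₁ - p₀),
      real_inner_comm (x - p₀) (p₂ - p₀), real_inner_comm (p₁ - p₀) (p₂ - p₀)]
    rw [i1, i2, i3, i4, i5, i6]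
  rw [he, sub_self, inner_zero_left] at key
  have := inner_self_eq_zero.1 key
  rw [sub_eq_zero] at this
  rw [← this]; abel

theorem space_inner (u v : Space) : ⟪u, v⟫ = u 0 * v 0 + u 1 * v 1 + u 2 * v 2 := by
  rw [PiLp.inner_apply, Fin.sum_univ_three]
  simp
  ring

theorem inner_cross_left (u v : Space) : ⟪u, cross u v⟫ = 0 := by
  rw [space_inner]; simp [cross]; ring

theorem inner_cross_right (u v : Space) : ⟪v, cross u v⟫ = 0 := by
  rw [space_inner]; simp [cross]; ring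

theorem inner_cross_cross (u v : Space) :
    ⟪cross u v, cross u v⟫ = ⟪u, u⟫ * ⟪v, v⟫ - ⟪u, v⟫ ^ 2 := by
  simp only [space_inner]; simp [cross]; ring

/-- Isometry on all polygons. -/
def PolyIso (f : Plane → Space) : Prop :=
  ∀ i : Fin 6, ∀ x ∈ cpoly (pl i), ∀ y ∈ cpoly (pl i), dist (f x) (f y) = dist x y

/-- Uniform limit of injective continuous maps on the sheet. -/
def IsLimit (f : Plane → Space) : Prop :=
  ∀ ε > 0, ∃ τ : Plane → Space, ContinuousOn τ rect ∧ Set.InjOn τ rect ∧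
    ∀ x ∈ rect, dist (f x) (τ x) < ε

theorem polyIso_of_rigid {ρ : Fin 7 → ℝ} {σ : Plane → Space} (h : G0.IsRigidOrigami ρ σ) :
    PolyIso σ := by
  intro i x hx y hy
  obtain ⟨F, hF, hs⟩ := poly_subset_face i
  exact h.isometric F hF x (hs hx) y (hs hy)

/-- Existence of a frame adapted to the middle crease. -/
theorem exists_frame (X U : Space) (hX : ⟪X, X⟫ = 1) (hU : ⟪U, U⟫ = 1) (hXU : ⟪X, U⟫ = 0)
    {c s : ℝ} (hcs : c ^ 2 + s ^ 2 = 1) :
    ∃ Φ : Space ≃ₗᵢ[ℝ] Space, Φ X = !₂[1, 0, 0] ∧ Φ U = !₂[0, c, s] ∧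
      Φ (cross X U) = !₂[0, -s, c] := by
  set W := cross X U with hW
  have hXW : ⟪X, W⟫ = 0 := inner_cross_left X U
  have hUW : ⟪U, W⟫ = 0 := inner_cross_right X U
  have hWW : ⟪W, W⟫ = 1 := by rw [hW, inner_cross_cross, hX, hU, hXU]; ring
  have hUX : ⟪U, X⟫ = 0 := by rw [real_inner_comm]; exact hXU
  have hWX : ⟪W, X⟫ = 0 := by rw [real_inner_comm]; exact hXW
  have hWU : ⟪W, U⟫ = 0 := by rw [real_inner_comm]; exact hUW
  have hon : Orthonormal ℝ ![X, c • U - s • W, s • U + c • W] := by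
    rw [orthonormal_iff_ite]
    intro i j
    fin_cases i <;> fin_cases j <;>
      simp [-inner_self_eq_norm_sq_to_K, inner_sub_left,
        inner_sub_right, inner_add_left, inner_add_right,
        real_inner_smul_left, real_inner_smul_right, hX, hU, hXU, hXW, hUW, hWW, hUX, hWX, hWU]
    · linear_combination hcs
    · ring
    · ring
    · linear_combination hcs
  let B := basisOfOrthonormalOfCardEqFinrank hon (by simp)
  have hB : (B : Fin 3 → Space) = ![X, c • U - s • W, s • U + c • W] :=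
    coe_basisOfOrthonormalOfCardEqFinrank hon (by simp)
  let b := B.toOrthonormalBasis (by rw [hB]; exact hon)
  have hb : ∀ i, b i = (![X, c • U - s • W, s • U + c • W] : Fin 3 → Space) i := by
    intro i
    rw [Module.Basis.coe_toOrthonormalBasis, hB]
  refine ⟨b.repr, ?_, ?_, ?_⟩
  · apply space_ext <;> rw [OrthonormalBasis.repr_apply_apply, hb] <;>
      simp [-inner_self_eq_norm_sq_to_K, inner_sub_left, inner_add_left, real_inner_smul_left, hX,
        hUX, hWX]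
  · apply space_ext <;> rw [OrthonormalBasis.repr_apply_apply, hb] <;>
      simp [-inner_self_eq_norm_sq_to_K, inner_sub_left, inner_add_left, real_inner_smul_left, hXU,
        hU, hWU]
  · apply space_ext <;> rw [OrthonormalBasis.repr_apply_apply, hb] <;>
      simp [-inner_self_eq_norm_sq_to_K, inner_sub_left, inner_add_left, real_inner_smul_left, hXW,
        hUW, hWW]

theorem norm_nml (e : Fin 7) : ‖nml e‖ = len e := by
  have h : ‖nml e‖ = ‖vt (tg e) - vt (sr e)‖ := by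
    unfold nml quarter
    rw [EuclideanSpace.norm_eq, EuclideanSpace.norm_eq, Fin.sum_univ_two, Fin.sum_univ_two]
    congr 1
    simp only [Real.norm_eq_abs, sq_abs]
    simp
    ring
  rw [h, ← dist_eq_norm, dist_comm]
  exact dist_vt e

theorem smul_cross (h : ℝ) (u v : Space) : cross u (h • v) = h • cross u v := by
  apply space_ext <;> simp [cross] <;> ring

/-- The folding angle expressed through distances. -/
theorem fold_dist {ρ : Fin 7 → ℝ} {σ : Plane → Space} (hσ : G0.IsRigidOrigami ρ σ) (e : Fin 7)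
    {q : Plane} (hq : q ∈ openSegment ℝ (vt (sr e)) (vt (tg e))) :
    ∃ h : ℝ, 0 < h ∧ q + h • nml e ∈ cpoly (pl (lft e)) ∧ q - h • nml e ∈ cpoly (pl (rgt e)) ∧
      dist (σ (q + h • nml e)) (σ (q - h • nml e)) ^ 2 =
        2 * (1 + Real.cos (ρ e)) * (h * len e) ^ 2 := by
  have hiso := polyIso_of_rigid hσ
  obtain ⟨⟨h1, h2⟩, h3⟩ := sides e hq
  have h4 := hσ.foldAngle e q hq
  obtain ⟨h, ⟨⟨h5, h6⟩, h7⟩, h8⟩ := ((h3.and h4).and self_mem_nhdsWithin).exists
  change 0 < h at h8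
  change σ (q - h • nml e) - σ q = -(Real.cos (ρ e)) • (σ (q + h • nml e) - σ q) +
    Real.sin (ρ e) • cross ((dist (vt (sr e)) (vt (tg e)))⁻¹ • (σ (vt (tg e)) - σ (vt (sr e))))
      (σ (q + h • nml e) - σ q) at h7
  refine ⟨h, h8, h5, h6, ?_⟩
  have n1 : ‖σ (q + h • nml e) - σ q‖ = h * len e := by
    rw [← dist_eq_norm, hiso _ _ h5 _ h1, dist_eq_norm, add_sub_cancel_left, norm_smul,
      norm_nml, Real.norm_of_nonneg h8.le]
  have n2 : ‖σ (q - h • nml e) - σ q‖ = h * len e := by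
    rw [← dist_eq_norm, hiso _ _ h6 _ h2, dist_eq_norm]
    have : q - h • nml e - q = -(h • nml e) := by abel
    rw [this, norm_neg, norm_smul, norm_nml, Real.norm_of_nonneg h8.le]
  have n3 : ⟪σ (q + h • nml e) - σ q, σ (q - h • nml e) - σ q⟫ =
      -Real.cos (ρ e) * (h * len e) ^ 2 := by
    rw [h7, inner_add_right, real_inner_smul_right, real_inner_smul_right, inner_cross_right,
      real_inner_self_eq_norm_sq, n1]
    ring
  have n4 : σ (q + h • nml e) - σ (q - h • nml e) =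
      (σ (q + h • nml e) - σ q) - (σ (q - h • nml e) - σ q) := by abel
  rw [dist_eq_norm, n4, @norm_sub_sq_real, n1, n2, n3]
  ring

/-- A rigid origami in normal position. -/
structure NF (f : Plane → Space) (c s : ℝ) : Prop where
  iso : PolyIso f
  lim : IsLimit f
  top : ∀ p ∈ cpoly (pl 0), f p = !₂[p 0, c * p 1, s * p 1]
  bot : ∀ p ∈ cpoly (pl 3), f p = !₂[p 0, c * p 1, -(s * p 1)]

theorem normal_form {ρ : Fin 7 → ℝ} {σ : Plane → Space} (hσ : G0.IsRigidOrigami ρ σ) {c s : ℝ}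
    (hcs : c ^ 2 + s ^ 2 = 1) (hc : Real.cos (ρ 0) = c ^ 2 - s ^ 2)
    (hs : Real.sin (ρ 0) = 2 * s * c) :
    ∃ f : Plane → Space, NF f c s ∧ ∀ x y, dist (f x) (f y) = dist (σ x) (σ y) := by
  have hiso := polyIso_of_rigid hσ
  have hiT := hiso 0
  have hiB := hiso 3
  -- the base points
  have o_T : (!₂[0, 0] : Plane) ∈ cpoly (pl 0) := mem_T.2 (by simp)
  have x_T : (!₂[1, 0] : Plane) ∈ cpoly (pl 0) := mem_T.2 (by simp; norm_num)
  have y_T : (!₂[0, 1] : Plane) ∈ cpoly (pl 0) := mem_T.2 (by simp; norm_num)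
  have o_B : (!₂[0, 0] : Plane) ∈ cpoly (pl 3) := mem_B.2 (by simp)
  have x_B : (!₂[1, 0] : Plane) ∈ cpoly (pl 3) := mem_B.2 (by simp; norm_num)
  have y_B : (!₂[0, -1] : Plane) ∈ cpoly (pl 3) := mem_B.2 (by simp; norm_num)
  set P := σ !₂[0, 0] with hP
  set X := σ !₂[1, 0] - P with hX
  set U := σ !₂[0, 1] - P with hU
  set V := σ !₂[0, -1] - P with hV
  have iXX : ⟪X, X⟫ = 1 := by
    rw [hX, hP, inner_of_iso hiT x_T x_T o_T, PiLp.inner_apply, Fin.sum_univ_two]; simp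
  have iUU : ⟪U, U⟫ = 1 := by
    rw [hU, hP, inner_of_iso hiT y_T y_T o_T, PiLp.inner_apply, Fin.sum_univ_two]; simp
  have iXU : ⟪X, U⟫ = 0 := by
    rw [hX, hU, hP, inner_of_iso hiT x_T y_T o_T, PiLp.inner_apply, Fin.sum_univ_two]; simp
  have fT : ∀ p ∈ cpoly (pl 0), σ p = P + (p 0 • X + p 1 • U) := by
    intro p hp
    apply iso_affine hiT o_T x_T y_T hp
    apply plane_ext <;> simp
  have fB : ∀ p ∈ cpoly (pl 3), σ p = P + (p 0 • X + (-(p 1)) • V) := by
    intro p hp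
    apply iso_affine hiB o_B x_B y_B hp
    apply plane_ext <;> simp
  -- the fold at the middle crease
  have hq : (!₂[0, 0] : Plane) ∈ openSegment ℝ (vt (sr 0)) (vt (tg 0)) := by
    refine ⟨1 / 2, 1 / 2, by norm_num, by norm_num, by norm_num, ?_⟩
    apply plane_ext <;> simp [vt, sr, tg]
  have hVU : V = -(Real.cos (ρ 0)) • U + Real.sin (ρ 0) • cross X U := by
    obtain ⟨-, h3⟩ := sides 0 hq
    have h4 := hσ.foldAngle (0 : Fin 7) _ hq
    obtain ⟨h, ⟨⟨h5, h6⟩, h7⟩, h8⟩ := ((h3.and h4).and self_mem_nhdsWithin).exists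
    change 0 < h at h8
    change σ (!₂[0, 0] - h • nml 0) - σ !₂[0, 0] =
      -(Real.cos (ρ 0)) • (σ (!₂[0, 0] + h • nml 0) - σ !₂[0, 0]) +
      Real.sin (ρ 0) • cross ((dist (vt (sr 0)) (vt (tg 0)))⁻¹ • (σ (vt (tg 0)) - σ (vt (sr 0))))
        (σ (!₂[0, 0] + h • nml 0) - σ !₂[0, 0]) at h7
    have v0 := (vt_mem_poly 0).1
    have v1 := (vt_mem_poly 0).2
    have h5' : !₂[0, 0] + h • nml 0 ∈ cpoly (pl 0) := h5
    have h6' : !₂[0, 0] - h • nml 0 ∈ cpoly (pl 3) := h6
    have a0 : (!₂[0, 0] + h • nml 0 : Plane) 0 = 0 := by simp [nml, quarter, vt, sr, tg]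
    have a1 : (!₂[0, 0] + h • nml 0 : Plane) 1 = 42 * h := by
      simp [nml, quarter, vt, sr, tg]; ring
    have b0 : (!₂[0, 0] - h • nml 0 : Plane) 0 = 0 := by simp [nml, quarter, vt, sr, tg]
    have b1 : (!₂[0, 0] - h • nml 0 : Plane) 1 = -(42 * h) := by
      simp [nml, quarter, vt, sr, tg]; ring
    have c0 : (vt (tg 0)) 0 = 21 := by simp [vt, tg]
    have c1 : (vt (tg 0)) 1 = 0 := by simp [vt, tg]
    have d0 : (vt (sr 0)) 0 = -21 := by simp [vt, sr]
    have d1 : (vt (sr 0)) 1 = 0 := by simp [vt, sr]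
    have l0 : len 0 = 42 := rfl
    rw [fT _ h5', fB _ h6', fT _ v1, fT _ v0, dist_vt, ← hP, a0, a1, b0, b1, c0, c1, d0, d1,
      l0] at h7
    have e1 : P + ((0 : ℝ) • X + (-(-(42 * h))) • V) - P = (42 * h) • V := by module
    have e2 : P + ((0 : ℝ) • X + (42 * h) • U) - P = (42 * h) • U := by module
    have e3 : (42 : ℝ)⁻¹ • (P + ((21 : ℝ) • X + (0 : ℝ) • U) - (P + ((-21 : ℝ) • X + (0 : ℝ) • U))) =
        X := by module
    rw [e1, e2, e3, smul_cross] at h7
    have e4 : (42 * h) • V = (42 * h) •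
        (-(Real.cos (ρ 0)) • U + Real.sin (ρ 0) • cross X U) := by
      rw [h7]; module
    exact smul_right_injective Space (by positivity : (42 * h) ≠ 0) e4
  obtain ⟨Φ, hΦX, hΦU, hΦW⟩ := exists_frame X U iXX iUU iXU hcs
  have hΦV : Φ V = !₂[0, -c, s] := by
    rw [hVU, map_add, map_smul, map_smul, hΦU, hΦW, hc, hs]
    apply space_ext
    · simp
    · simp
      linear_combination (-c) * hcs
    · simp
      linear_combination s * hcs
  have hd : ∀ x y, dist (Φ (σ x - P)) (Φ (σ y - P)) = dist (σ x) (σ y) := by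
    intro x y
    rw [Φ.dist_map, dist_sub_right]
  refine ⟨fun x => Φ (σ x - P), ⟨?_, ?_, ?_, ?_⟩, hd⟩
  · intro i x hx y hy
    rw [hd]
    exact hiso i x hx y hy
  · intro ε hε
    obtain ⟨τ, h1, h2, h3⟩ := hσ.limit ε hε
    refine ⟨fun x => Φ (τ x - P), ?_, ?_, ?_⟩
    · exact Φ.continuous.comp_continuousOn (h1.sub continuousOn_const)
    · intro x hx y hy hxy
      apply h2 hx hy
      have := Φ.injective hxy
      exact sub_left_injective this
    · intro x hx
      rw [Φ.dist_map, dist_sub_right]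
      exact h3 x hx
  · intro p hp
    have e1 : σ p - P = p 0 • X + p 1 • U := by rw [fT p hp]; abel
    change Φ (σ p - P) = _
    rw [e1, map_add, map_smul, map_smul, hΦX, hΦU]
    apply space_ext <;> simp <;> ring
  · intro p hp
    have e1 : σ p - P = p 0 • X + (-(p 1)) • V := by rw [fB p hp]; abel
    change Φ (σ p - P) = _
    rw [e1, map_add, map_smul, map_smul, hΦX, hΦV]
    apply space_ext <;> simp <;> ring

end Pool.Agent.W652.Origami
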