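import Pool.Agent.W652.OriFaces

/-!
# The two sides of each crease
-/

set_option autoImplicit false

namespace Pool.Agent.W652.Origami

open Set Filter
open scoped Topology

/-- The polygon on the left of a crease. -/
def lft : Fin 7 → Fin 6 := ![0, 1, 3, 4, 5, 0, 2]

/-- The polygon on the right of a crease. -/
def rgt : Fin 7 → Fin 6 := ![3, 0, 4, 1, 3, 2, 5]

/-- The direction of a crease, turned by a quarter turn to the left. -/
noncomputable def nml (e : Fin 7) : Plane := quarter (vt (tg e) - vt (sr e))

theorem sides (e : Fin 7) {c : Plane} (hc : c ∈ openSegment ℝ (vt (sr e)) (vt (tg e))) :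
    (c ∈ cpoly (pl (lft e)) ∧ c ∈ cpoly (pl (rgt e))) ∧
    ∀ᶠ h in 𝓝[>] (0 : ℝ), c + h • nml e ∈ cpoly (pl (lft e)) ∧
      c - h • nml e ∈ cpoly (pl (rgt e)) := by
  obtain ⟨a, b, ha, hb, hab, rfl⟩ := hc
  have : a = 1 - b := by linarith
  subst this
  fin_cases e
  · constructor
    · constructor
      · refine mem_T.2 ⟨?_, ?_, ?_, ?_⟩ <;> first
          | (simp [vt, sr, tg]; done)
          | (simp [vt, sr, tg]; linarith)
      · refine mem_B.2 ⟨?_, ?_, ?_, ?_⟩ <;> first
          | (simp [vt, sr, tg]; done)
          | (simp [vt, sr, tg]; linarith)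
    · filter_upwards [Ioo_mem_nhdsGT (show (0 : ℝ) < min (1 - b) b / 100 by positivity)] with h hh
      have h0 := hh.1
      have h1 : h < (1 - b) / 100 := hh.2.trans_le (by gcongr; exact min_le_left _ _)
      have h2 : h < b / 100 := hh.2.trans_le (by gcongr; exact min_le_right _ _)
      constructor
      · refine mem_T.2 ⟨?_, ?_, ?_, ?_⟩ <;> first
          | (simp [vt, sr, tg, nml, quarter]; done)
          | (simp [vt, sr, tg, nml, quarter]; linarith)
      · refine mem_B.2 ⟨?_, ?_, ?_, ?_⟩ <;> first
          | (simp [vt, sr, tg, nml, quarter]; done)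
          | (simp [vt, sr, tg, nml, quarter]; linarith)
  · constructor
    · constructor
      · refine mem_TL.2 ⟨?_, ?_, ?_, ?_⟩ <;> first
          | (simp [vt, sr, tg]; done)
          | (simp [vt, sr, tg]; linarith)
      · refine mem_T.2 ⟨?_, ?_, ?_, ?_⟩ <;> first
          | (simp [vt, sr, tg]; done)
          | (simp [vt, sr, tg]; linarith)
    · filter_upwards [Ioo_mem_nhdsGT (show (0 : ℝ) < min (1 - b) b / 100 by positivity)] with h hh
      have h0 := hh.1
      have h1 : h < (1 - b) / 100 := hh.2.trans_le (by gcongr; exact min_le_left _ _)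
      have h2 : h < b / 100 := hh.2.trans_le (by gcongr; exact min_le_right _ _)
      constructor
      · refine mem_TL.2 ⟨?_, ?_, ?_, ?_⟩ <;> first
          | (simp [vt, sr, tg, nml, quarter]; done)
          | (simp [vt, sr, tg, nml, quarter]; linarith)
      · refine mem_T.2 ⟨?_, ?_, ?_, ?_⟩ <;> first
          | (simp [vt, sr, tg, nml, quarter]; done)
          | (simp [vt, sr, tg, nml, quarter]; linarith)
  · constructor
    · constructor
      · refine mem_B.2 ⟨?_, ?_, ?_, ?_⟩ <;> first
          | (simp [vt, sr, tg]; done)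
          | (simp [vt, sr, tg]; linarith)
      · refine mem_BL.2 ⟨?_, ?_, ?_, ?_⟩ <;> first
          | (simp [vt, sr, tg]; done)
          | (simp [vt, sr, tg]; linarith)
    · filter_upwards [Ioo_mem_nhdsGT (show (0 : ℝ) < min (1 - b) b / 100 by positivity)] with h hh
      have h0 := hh.1
      have h1 : h < (1 - b) / 100 := hh.2.trans_le (by gcongr; exact min_le_left _ _)
      have h2 : h < b / 100 := hh.2.trans_le (by gcongr; exact min_le_right _ _)
      constructor
      · refine mem_B.2 ⟨?_, ?_, ?_, ?_⟩ <;> first
          | (simp [vt, sr, tg, nml, quarter]; done)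
          | (simp [vt, sr, tg, nml, quarter]; linarith)
      · refine mem_BL.2 ⟨?_, ?_, ?_, ?_⟩ <;> first
          | (simp [vt, sr, tg, nml, quarter]; done)
          | (simp [vt, sr, tg, nml, quarter]; linarith)
  · constructor
    · constructor
      · refine mem_BL.2 ⟨?_, ?_, ?_, ?_⟩ <;> first
          | (simp [vt, sr, tg]; done)
          | (simp [vt, sr, tg]; linarith)
      · refine mem_TL.2 ⟨?_, ?_, ?_, ?_⟩ <;> first
          | (simp [vt, sr, tg]; done)
          | (simp [vt, sr, tg]; linarith)
    · filter_upwards [Ioo_mem_nhdsGT (show (0 : ℝ) < min (1 - b) b / 100 by positivity)] with h hh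
      have h0 := hh.1
      have h1 : h < (1 - b) / 100 := hh.2.trans_le (by gcongr; exact min_le_left _ _)
      have h2 : h < b / 100 := hh.2.trans_le (by gcongr; exact min_le_right _ _)
      constructor
      · refine mem_BL.2 ⟨?_, ?_, ?_, ?_⟩ <;> first
          | (simp [vt, sr, tg, nml, quarter]; done)
          | (simp [vt, sr, tg, nml, quarter]; linarith)
      · refine mem_TL.2 ⟨?_, ?_, ?_, ?_⟩ <;> first
          | (simp [vt, sr, tg, nml, quarter]; done)
          | (simp [vt, sr, tg, nml, quarter]; linarith)
  · constructor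
    · constructor
      · refine mem_BR.2 ⟨?_, ?_, ?_, ?_⟩ <;> first
          | (simp [vt, sr, tg]; done)
          | (simp [vt, sr, tg]; linarith)
      · refine mem_B.2 ⟨?_, ?_, ?_, ?_⟩ <;> first
          | (simp [vt, sr, tg]; done)
          | (simp [vt, sr, tg]; linarith)
    · filter_upwards [Ioo_mem_nhdsGT (show (0 : ℝ) < min (1 - b) b / 100 by positivity)] with h hh
      have h0 := hh.1
      have h1 : h < (1 - b) / 100 := hh.2.trans_le (by gcongr; exact min_le_left _ _)
      have h2 : h < b / 100 := hh.2.trans_le (by gcongr; exact min_le_right _ _)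
      constructor
      · refine mem_BR.2 ⟨?_, ?_, ?_, ?_⟩ <;> first
          | (simp [vt, sr, tg, nml, quarter]; done)
          | (simp [vt, sr, tg, nml, quarter]; linarith)
      · refine mem_B.2 ⟨?_, ?_, ?_, ?_⟩ <;> first
          | (simp [vt, sr, tg, nml, quarter]; done)
          | (simp [vt, sr, tg, nml, quarter]; linarith)
  · constructor
    · constructor
      · refine mem_T.2 ⟨?_, ?_, ?_, ?_⟩ <;> first
          | (simp [vt, sr, tg]; done)
          | (simp [vt, sr, tg]; linarith)
      · refine mem_TR.2 ⟨?_, ?_, ?_, ?_⟩ <;> first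
          | (simp [vt, sr, tg]; done)
          | (simp [vt, sr, tg]; linarith)
    · filter_upwards [Ioo_mem_nhdsGT (show (0 : ℝ) < min (1 - b) b / 100 by positivity)] with h hh
      have h0 := hh.1
      have h1 : h < (1 - b) / 100 := hh.2.trans_le (by gcongr; exact min_le_left _ _)
      have h2 : h < b / 100 := hh.2.trans_le (by gcongr; exact min_le_right _ _)
      constructor
      · refine mem_T.2 ⟨?_, ?_, ?_, ?_⟩ <;> first
          | (simp [vt, sr, tg, nml, quarter]; done)
          | (simp [vt, sr, tg, nml, quarter]; linarith)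
      · refine mem_TR.2 ⟨?_, ?_, ?_, ?_⟩ <;> first
          | (simp [vt, sr, tg, nml, quarter]; done)
          | (simp [vt, sr, tg, nml, quarter]; linarith)
  · constructor
    · constructor
      · refine mem_TR.2 ⟨?_, ?_, ?_, ?_⟩ <;> first
          | (simp [vt, sr, tg]; done)
          | (simp [vt, sr, tg]; linarith)
      · refine mem_BR.2 ⟨?_, ?_, ?_, ?_⟩ <;> first
          | (simp [vt, sr, tg]; done)
          | (simp [vt, sr, tg]; linarith)
    · filter_upwards [Ioo_mem_nhdsGT (show (0 : ℝ) < min (1 - b) b / 100 by positivity)] with h hh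
      have h0 := hh.1
      have h1 : h < (1 - b) / 100 := hh.2.trans_le (by gcongr; exact min_le_left _ _)
      have h2 : h < b / 100 := hh.2.trans_le (by gcongr; exact min_le_right _ _)
      constructor
      · refine mem_TR.2 ⟨?_, ?_, ?_, ?_⟩ <;> first
          | (simp [vt, sr, tg, nml, quarter]; done)
          | (simp [vt, sr, tg, nml, quarter]; linarith)
      · refine mem_BR.2 ⟨?_, ?_, ?_, ?_⟩ <;> first
          | (simp [vt, sr, tg, nml, quarter]; done)
          | (simp [vt, sr, tg, nml, quarter]; linarith)

end Pool.Agent.W652.Origami
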