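import Pool.Agent.W652.OriRigid

/-!
# The two modes of each interior vertex
-/

set_option autoImplicit false

namespace Pool.Agent.W652.Origami

open Set Filter
open scoped Topology

theorem dist_sq_space (P Q : Space) :
    dist P Q ^ 2 = (P 0 - Q 0) ^ 2 + (P 1 - Q 1) ^ 2 + (P 2 - Q 2) ^ 2 := by
  rw [EuclideanSpace.dist_eq, Real.sq_sqrt (by positivity), Fin.sum_univ_three]
  simp only [Real.dist_eq, sq_abs]

theorem dist_sq_plane (p q : Plane) : dist p q ^ 2 = (p 0 - q 0) ^ 2 + (p 1 - q 1) ^ 2 := by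
  rw [EuclideanSpace.dist_eq, Real.sq_sqrt (by positivity), Fin.sum_univ_two]
  simp only [Real.dist_eq, sq_abs]

/-- The left arm in terms of three parameters. -/
theorem vertex {f : Plane → Space} {c s : ℝ} (hcs : c ^ 2 + s ^ 2 = 1) (hf : NF f c s) :
    ∃ a b d : ℝ, a ^ 2 + b ^ 2 + d ^ 2 = 2 * a ∧ c * b = -(5 / 24) * a ∧ s * d = -(5 / 24) * a ∧
      ∀ p ∈ cpoly (pl 1), f p =
        !₂[p 0 + (5 / 12 * p 1 - (p 0 + 21)) * a, c * p 1 + (5 / 12 * p 1 - (p 0 + 21)) * b,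
          s * p 1 + (5 / 12 * p 1 - (p 0 + 21)) * d] := by
  have v_T : (!₂[-21, 0] : Plane) ∈ cpoly (pl 0) := mem_T.2 (by simp)
  have v_TL : (!₂[-21, 0] : Plane) ∈ cpoly (pl 1) := mem_TL.2 (by simp; norm_num)
  have a_T : (!₂[-16, 12] : Plane) ∈ cpoly (pl 0) := mem_T.2 (by simp; norm_num)
  have a_TL : (!₂[-16, 12] : Plane) ∈ cpoly (pl 1) := mem_TL.2 (by simp; norm_num)
  have o_TL : (!₂[-22, 0] : Plane) ∈ cpoly (pl 1) := mem_TL.2 (by simp; norm_num)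
  have o_BL : (!₂[-22, 0] : Plane) ∈ cpoly (pl 4) := mem_BL.2 (by simp; norm_num)
  have b_B : (!₂[-21, -12] : Plane) ∈ cpoly (pl 3) := mem_B.2 (by simp; norm_num)
  have b_BL : (!₂[-21, -12] : Plane) ∈ cpoly (pl 4) := mem_BL.2 (by simp; norm_num)
  have f1 := hf.top _ v_T
  have f2 := hf.top _ a_T
  have f3 := hf.bot _ b_B
  have k1 := congrArg (· ^ 2) (hf.iso 1 _ o_TL _ v_TL)
  have k2 := congrArg (· ^ 2) (hf.iso 1 _ o_TL _ a_TL)
  have k3 := congrArg (· ^ 2) (hf.iso 4 _ o_BL _ b_BL)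
  simp only [dist_sq_space, dist_sq_plane, f1, f2, f3] at k1 k2 k3
  set F := f !₂[-22, 0] with hF
  simp at k1 k2 k3
  have e1 : (F 0 + 22) ^ 2 + F 1 ^ 2 + F 2 ^ 2 = 2 * (F 0 + 22) := by linarith
  have e2 : c * F 1 - s * F 2 = 0 := by nlinarith
  have e3 : c * F 1 + s * F 2 = -(5 / 12) * (F 0 + 22) := by nlinarith
  refine ⟨F 0 + 22, F 1, F 2, e1, by linarith, by linarith, ?_⟩
  intro p hp
  have h1 := iso_affine (hf.iso 1) v_TL o_TL a_TL hp (5 / 12 * p 1 - (p 0 + 21)) (p 1 / 12) (by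
    apply plane_ext <;> simp <;> ring)
  rw [h1, f1, f2, ← hF]
  apply space_ext <;> simp <;> ring

/-- The two modes. -/
theorem mode {a b c d s : ℝ} (h2 : a ^ 2 + b ^ 2 + d ^ 2 = 2 * a) (h3 : c * b = -(5 / 24) * a)
    (h4 : s * d = -(5 / 24) * a) (hcs : c ^ 2 + s ^ 2 = 1) :
    a = 0 ∨ a * ((2 * s * c) ^ 2 + 25 / 144) = 2 * (2 * s * c) ^ 2 := by
  have h5 : a * (a * ((2 * s * c) ^ 2 + 25 / 144) - 2 * (2 * s * c) ^ 2) = 0 := by
    have h6 : (c * b) ^ 2 = (5 / 24 * a) ^ 2 := by rw [h3]; ring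
    have h7 : (s * d) ^ 2 = (5 / 24 * a) ^ 2 := by rw [h4]; ring
    linear_combination 4 * s ^ 2 * c ^ 2 * h2 - 4 * s ^ 2 * h6 - 4 * c ^ 2 * h7 -
      4 * (5 / 24 * a) ^ 2 * hcs
  rcases mul_eq_zero.1 h5 with h | h
  · exact Or.inl h
  · exact Or.inr (by linarith)

/-- The rotation of space by a half turn about the third axis. -/
noncomputable def rot (P : Space) : Space := !₂[-(P 0), -(P 1), P 2]

theorem dist_rot (P Q : Space) : dist (rot P) (rot Q) = dist P Q := by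
  rw [← Real.sqrt_sq (dist_nonneg (x := rot P) (y := rot Q)),
    ← Real.sqrt_sq (dist_nonneg (x := P) (y := Q)), dist_sq_space, dist_sq_space]
  congr 1
  simp [rot]
  ring

theorem rot_injective : Function.Injective rot := by
  intro P Q h
  have h0 := congrArg (fun P : Space => P 0) h
  have h1 := congrArg (fun P : Space => P 1) h
  have h2 := congrArg (fun P : Space => P 2) h
  simp [rot] at h0 h1 h2
  exact space_ext h0 h1 h2

theorem continuous_rot : Continuous rot := by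
  unfold rot; fun_prop

theorem neg_mem_rect {p : Plane} (hp : p ∈ rect) : -p ∈ rect := by
  obtain ⟨⟨h1, h2⟩, h3, h4⟩ := hp
  refine ⟨⟨?_, ?_⟩, ?_, ?_⟩ <;> simp <;> linarith

/-- The polygons are permuted by the half turn. -/
theorem neg_mem_poly (i : Fin 6) : ∃ j : Fin 6, ∀ p ∈ cpoly (pl i), -p ∈ cpoly (pl j) := by
  fin_cases i
  · refine ⟨3, fun p hp => ?_⟩
    obtain ⟨h1, h2, h3, h4⟩ := mem_T.1 hp
    refine mem_B.2 ⟨?_, ?_, ?_, ?_⟩ <;> simp <;> linarith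
  · refine ⟨5, fun p hp => ?_⟩
    obtain ⟨h1, h2, h3, h4⟩ := mem_TL.1 hp
    refine mem_BR.2 ⟨?_, ?_, ?_, ?_⟩ <;> simp <;> linarith
  · refine ⟨4, fun p hp => ?_⟩
    obtain ⟨h1, h2, h3, h4⟩ := mem_TR.1 hp
    refine mem_BL.2 ⟨?_, ?_, ?_, ?_⟩ <;> simp <;> linarith
  · refine ⟨0, fun p hp => ?_⟩
    obtain ⟨h1, h2, h3, h4⟩ := mem_B.1 hp
    refine mem_T.2 ⟨?_, ?_, ?_, ?_⟩ <;> simp <;> linarith
  · refine ⟨2, fun p hp => ?_⟩
    obtain ⟨h1, h2, h3, h4⟩ := mem_BL.1 hp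
    refine mem_TR.2 ⟨?_, ?_, ?_, ?_⟩ <;> simp <;> linarith
  · refine ⟨1, fun p hp => ?_⟩
    obtain ⟨h1, h2, h3, h4⟩ := mem_BR.1 hp
    refine mem_TL.2 ⟨?_, ?_, ?_, ?_⟩ <;> simp <;> linarith

theorem neg_T {p : Plane} (hp : p ∈ cpoly (pl 0)) : -p ∈ cpoly (pl 3) := by
  obtain ⟨h1, h2, h3, h4⟩ := mem_T.1 hp
  refine mem_B.2 ⟨?_, ?_, ?_, ?_⟩ <;> simp <;> linarith

theorem neg_B {p : Plane} (hp : p ∈ cpoly (pl 3)) : -p ∈ cpoly (pl 0) := by
  obtain ⟨h1, h2, h3, h4⟩ := mem_B.1 hp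
  refine mem_T.2 ⟨?_, ?_, ?_, ?_⟩ <;> simp <;> linarith

theorem neg_BR {p : Plane} (hp : p ∈ cpoly (pl 5)) : -p ∈ cpoly (pl 1) := by
  obtain ⟨h1, h2, h3, h4⟩ := mem_BR.1 hp
  refine mem_TL.2 ⟨?_, ?_, ?_, ?_⟩ <;> simp <;> linarith

/-- The half turn of a normal form is a normal form. -/
theorem twist {f : Plane → Space} {c s : ℝ} (hf : NF f c s) : NF (fun p => rot (f (-p))) c s where
  iso := by
    intro i x hx y hy
    obtain ⟨j, hj⟩ := neg_mem_poly i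
    rw [dist_rot, hf.iso j _ (hj x hx) _ (hj y hy), dist_neg_neg]
  lim := by
    intro ε hε
    obtain ⟨τ, h1, h2, h3⟩ := hf.lim ε hε
    refine ⟨fun p => rot (τ (-p)), ?_, ?_, ?_⟩
    · apply continuous_rot.comp_continuousOn
      exact h1.comp continuous_neg.continuousOn fun p hp => neg_mem_rect hp
    · intro x hx y hy hxy
      have h4 := h2 (neg_mem_rect hx) (neg_mem_rect hy) (rot_injective hxy)
      exact neg_injective h4
    · intro x hx
      rw [dist_rot]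
      exact h3 _ (neg_mem_rect hx)
  top := by
    intro p hp
    rw [hf.bot _ (neg_T hp)]
    apply space_ext <;> simp [rot]
  bot := by
    intro p hp
    rw [hf.top _ (neg_B hp)]
    apply space_ext <;> simp [rot]

/-- The relation between the parameter of an arm and the folding angle. -/
theorem arm_angle {f : Plane → Space} {c s a b d t h : ℝ} (hcs : c ^ 2 + s ^ 2 = 1)
    (h2 : a ^ 2 + b ^ 2 + d ^ 2 = 2 * a)
    (h3 : c * b = -(5 / 24) * a) (h4 : s * d = -(5 / 24) * a)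
    (hT : ∀ p ∈ cpoly (pl 0), f p = !₂[p 0, c * p 1, s * p 1])
    (hTL : ∀ p ∈ cpoly (pl 1), f p =
        !₂[p 0 + (5 / 12 * p 1 - (p 0 + 21)) * a, c * p 1 + (5 / 12 * p 1 - (p 0 + 21)) * b,
          s * p 1 + (5 / 12 * p 1 - (p 0 + 21)) * d])
    (h0 : 0 < h) (m1 : !₂[-37 / 2, 6] + h • nml 1 ∈ cpoly (pl 1))
    (m2 : !₂[-37 / 2, 6] - h • nml 1 ∈ cpoly (pl 0))
    (hd : dist (f (!₂[-37 / 2, 6] + h • nml 1)) (f (!₂[-37 / 2, 6] - h • nml 1)) ^ 2 =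
      2 * (1 + Real.cos t) * (h * 13) ^ 2) : 1 - Real.cos t = 169 / 144 * a := by
  rw [hTL _ m1, hT _ m2, dist_sq_space] at hd
  have a0 : (!₂[-37 / 2, 6] + h • nml 1 : Plane) 0 = -37 / 2 - 12 * h := by
    simp [nml, quarter, vt, sr, tg]; ring
  have a1 : (!₂[-37 / 2, 6] + h • nml 1 : Plane) 1 = 6 + 5 * h := by
    simp [nml, quarter, vt, sr, tg]; ring
  have b0 : (!₂[-37 / 2, 6] - h • nml 1 : Plane) 0 = -37 / 2 + 12 * h := by
    simp [nml, quarter, vt, sr, tg]; ring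
  have b1 : (!₂[-37 / 2, 6] - h • nml 1 : Plane) 1 = 6 - 5 * h := by
    simp [nml, quarter, vt, sr, tg]; ring
  simp only [a0, a1, b0, b1] at hd
  simp at hd
  have h5 : h ^ 2 * ((1 - Real.cos t) - 169 / 144 * a) = 0 := by
    have e0 : 5 / 12 * (6 + 5 * h) - (-37 / 2 - 12 * h + 21) = 169 / 12 * h := by ring
    rw [e0] at hd
    linear_combination (1 / 338) * hd - (50 / 169) * h ^ 2 * hcs -
      (169 / 288) * h ^ 2 * h2 - (5 / 6) * h ^ 2 * (h3 + h4)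
  rcases mul_eq_zero.1 h5 with h6 | h6
  · exact absurd h6 (by positivity)
  · linarith

end Pool.Agent.W652.Origami
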